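import Mathlib

/-!
# The parity identity (algebraic part)
-/

set_option autoImplicit false

namespace Pool.Agent.H119.Sefe

open Finset Real

/-- The oriented angle function: `φ - θ` reduced to `(0, 2π)`, minus `π`; zero if `φ = θ`.
Both arguments lie in `[0, 2π)`. -/
noncomputable def psi (φ θ : ℝ) : ℝ :=
  if θ < φ then φ - θ - π else if φ < θ then φ - θ + π else 0

theorem psi_self (φ : ℝ) : psi φ φ = 0 := by simp [psi]

theorem psi_anti (φ θ : ℝ) : psi θ φ = - psi φ θ := by
  unfold psi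
  rcases lt_trichotomy φ θ with h | h | h
  · rw [if_pos h, if_neg (lt_asymm h), if_pos h]; ring
  · subst h; simp
  · rw [if_neg (lt_asymm h), if_pos h, if_pos h]; ring

open Classical in
/-- Angle data of a drawing. `θ x y` is the direction at `x` of the edge `xy`, `B x y z` the
variation of the argument along `yz` seen from `x`, `nn` the crossing integers. -/
structure AngData (W : Type*) (U : SimpleGraph W) where
  θ : W → W → ℝ
  B : W → W → W → ℝ
  nn : W → W → W → W → ℤ
  θ0 : ∀ x y, U.Adj x y → 0 ≤ θ x y ∧ θ x y < 2 * π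
  θinj : ∀ x y z, U.Adj x y → U.Adj x z → θ x y = θ x z → y = z
  Banti : ∀ x y z, B x z y = - B x y z
  nanti : ∀ a b y z, nn a b z y = - nn a b y z
  key : ∀ a b y z, U.Adj a b → U.Adj y z → s(a, b) ≠ s(y, z) →
    B b y z - B a y z - B z a b + B y a b = 2 * π * nn a b y z +
      ((if a = y then - psi (θ a b) (θ y z) else 0) + (if b = y then psi (θ b a) (θ y z) else 0) +
       (if a = z then psi (θ a b) (θ z y) else 0) + (if b = z then - psi (θ b a) (θ z y) else 0))

/-- Telescoping of a corner function around a vertex. -/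
theorem corner_sum {ι : Type*} [DecidableEq ι] (N : Finset ι) (t : ι → ℝ)
    (ht : ∀ i ∈ N, 0 ≤ t i ∧ t i < 2 * π) (tinj : ∀ i ∈ N, ∀ j ∈ N, t i = t j → i = j)
    (cp cm : ℝ → ℤ)
    (c1 : ∀ φ, 0 ≤ φ → φ < 2 * π → (∀ i ∈ N, t i ≠ φ) → cp φ = cm φ)
    (c2 : ∀ φ₁ φ₂, 0 ≤ φ₁ → φ₁ < φ₂ → φ₂ < 2 * π → (∀ i ∈ N, ¬ (φ₁ < t i ∧ t i < φ₂)) →
      cp φ₁ = cm φ₂) :
    ∀ (k : ℕ) (φ : ℝ), 0 ≤ φ → φ < 2 * π → (N.filter (fun i => t i < φ)).card = k →
      ∑ i ∈ N.filter (fun i => t i < φ), (cp (t i) - cm (t i)) = cm φ - cm 0 := by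
  intro k
  induction k using Nat.strong_induction_on with
  | _ k ih =>
    intro φ h0 h1 hk
    rcases (N.filter (fun i => t i < φ)).eq_empty_or_nonempty with he | hne
    · rw [he, Finset.sum_empty]
      rcases h0.eq_or_lt with h | h
      · rw [← h]; ring
      · have hno : ∀ i ∈ N, ¬ t i < φ := by
          intro i hi hlt
          have : i ∈ N.filter (fun i => t i < φ) := Finset.mem_filter.2 ⟨hi, hlt⟩
          rw [he] at this
          simp at this
        have e1 : cp 0 = cm 0 := c1 0 le_rfl (by positivity) (fun i hi hti => by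
          apply hno i hi; rw [hti]; exact h)
        have e2 : cp 0 = cm φ := c2 0 φ le_rfl h h1 (fun i hi hti => hno i hi hti.2)
        omega
    · obtain ⟨j, hj, hmax⟩ := Finset.exists_max_image _ t hne
      obtain ⟨hjN, hjφ⟩ := Finset.mem_filter.1 hj
      have htj := ht j hjN
      have e2 : cp (t j) = cm φ := by
        refine c2 (t j) φ htj.1 hjφ h1 ?_
        intro i hi hti
        have := hmax i (Finset.mem_filter.2 ⟨hi, hti.2⟩)
        linarith [hti.1]
      have hsplit : N.filter (fun i => t i < φ) = insert j (N.filter (fun i => t i < t j)) := by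
        ext i
        simp only [Finset.mem_filter, Finset.mem_insert]
        constructor
        · rintro ⟨hi, hlt⟩
          rcases (hmax i (Finset.mem_filter.2 ⟨hi, hlt⟩)).eq_or_lt with h | h
          · left; exact tinj i hi j hjN h
          · right; exact ⟨hi, h⟩
        · rintro (h | ⟨hi, hlt⟩)
          · subst h; exact ⟨hjN, hjφ⟩
          · exact ⟨hi, hlt.trans hjφ⟩
      have hnot : j ∉ N.filter (fun i => t i < t j) := by simp
      have hcard : (N.filter (fun i => t i < t j)).card < k := by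
        rw [← hk, hsplit, Finset.card_insert_of_notMem hnot]; omega
      have hih := ih _ hcard (t j) htj.1 htj.2 rfl
      rw [hsplit, Finset.sum_insert hnot, hih, e2]
      ring

/-- The sum of the angle function over the edges at a vertex. -/
theorem vertex_sum {ι : Type*} [DecidableEq ι] (N : Finset ι) (t : ι → ℝ)
    (ht : ∀ i ∈ N, 0 ≤ t i ∧ t i < 2 * π) (tinj : ∀ i ∈ N, ∀ j ∈ N, t i = t j → i = j)
    (cp cm : ℝ → ℤ)
    (c1 : ∀ φ, 0 ≤ φ → φ < 2 * π → (∀ i ∈ N, t i ≠ φ) → cp φ = cm φ)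
    (c2 : ∀ φ₁ φ₂, 0 ≤ φ₁ → φ₁ < φ₂ → φ₂ < 2 * π → (∀ i ∈ N, ¬ (φ₁ < t i ∧ t i < φ₂)) →
      cp φ₁ = cm φ₂)
    (c3 : ∀ φ₁, 0 ≤ φ₁ → φ₁ < 2 * π → (∀ i ∈ N, ¬ (φ₁ < t i)) → cp φ₁ = cm 0) :
    (∑ i ∈ N, (cp (t i) - cm (t i)) = 0) ∧
    ∀ φ, 0 ≤ φ → φ < 2 * π →
      ∑ i ∈ N, ((cp (t i) - cm (t i) : ℤ) : ℝ) * psi φ (t i) =
        (2 * π * cm 0 - ∑ i ∈ N, ((cp (t i) - cm (t i) : ℤ) : ℝ) * t i) - π * (cp φ + cm φ) := by
  have hz : ∑ i ∈ N, (cp (t i) - cm (t i)) = 0 := by
    rcases N.eq_empty_or_nonempty with he | hne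
    · rw [he, Finset.sum_empty]
    · obtain ⟨j, hj, hmax⟩ := Finset.exists_max_image _ t hne
      have htj := ht j hj
      have e := corner_sum N t ht tinj cp cm c1 c2 _ (t j) htj.1 htj.2 rfl
      have e3 : cp (t j) = cm 0 := c3 (t j) htj.1 htj.2 (fun i hi => not_lt.2 (hmax i hi))
      have hsplit : N = insert j (N.filter (fun i => t i < t j)) := by
        ext i
        simp only [Finset.mem_filter, Finset.mem_insert]
        constructor
        · intro hi
          rcases (hmax i hi).eq_or_lt with h | h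
          · left; exact tinj i hi j hj h
          · right; exact ⟨hi, h⟩
        · rintro (h | ⟨hi, _⟩)
          · subst h; exact hj
          · exact hi
      have hnot : j ∉ N.filter (fun i => t i < t j) := by simp
      have : ∑ i ∈ N, (cp (t i) - cm (t i)) =
          ∑ i ∈ insert j (N.filter (fun i => t i < t j)), (cp (t i) - cm (t i)) := by
        rw [← hsplit]
      rw [this, Finset.sum_insert hnot, e, e3]
      ring
  refine ⟨hz, fun φ h0 h1 => ?_⟩
  have hlow := corner_sum N t ht tinj cp cm c1 c2 _ φ h0 h1 rfl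
  -- the sum over `t i > φ`
  have hmid : ∑ i ∈ N.filter (fun i => t i = φ), (cp (t i) - cm (t i)) = cp φ - cm φ := by
    by_cases hex : ∃ j ∈ N, t j = φ
    · obtain ⟨j, hj, hjφ⟩ := hex
      have : N.filter (fun i => t i = φ) = {j} := by
        ext i
        simp only [Finset.mem_filter, Finset.mem_singleton]
        constructor
        · rintro ⟨hi, h⟩; exact tinj i hi j hj (h.trans hjφ.symm)
        · intro h; subst h; exact ⟨hj, hjφ⟩
      rw [this, Finset.sum_singleton, hjφ]
    · push Not at hex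
      have : N.filter (fun i => t i = φ) = ∅ := by
        apply Finset.filter_eq_empty_iff.2
        intro i hi; exact hex i hi
      rw [this, Finset.sum_empty, c1 φ h0 h1 hex]; ring
  have hpart : ∑ i ∈ N, (cp (t i) - cm (t i)) =
      ∑ i ∈ N.filter (fun i => t i < φ), (cp (t i) - cm (t i)) +
      (∑ i ∈ N.filter (fun i => t i = φ), (cp (t i) - cm (t i)) +
      ∑ i ∈ N.filter (fun i => φ < t i), (cp (t i) - cm (t i))) := by
    simp only [Finset.sum_filter, ← Finset.sum_add_distrib]
    refine Finset.sum_congr rfl fun i _ => ?_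
    rcases lt_trichotomy (t i) φ with h | h | h
    · simp [h, h.ne, lt_asymm h]
    · simp [h]
    · simp [h, h.ne', lt_asymm h]
  have hup : ∑ i ∈ N.filter (fun i => φ < t i), (cp (t i) - cm (t i)) = cm 0 - cp φ := by
    rw [hz, hlow, hmid] at hpart
    omega
  have hpsi : ∀ i ∈ N, ((cp (t i) - cm (t i) : ℤ) : ℝ) * psi φ (t i) =
      ((cp (t i) - cm (t i) : ℤ) : ℝ) * (φ - t i) +
      π * ((if φ < t i then ((cp (t i) - cm (t i) : ℤ) : ℝ) else 0) -
        (if t i < φ then ((cp (t i) - cm (t i) : ℤ) : ℝ) else 0)) := by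
    intro i _
    unfold psi
    rcases lt_trichotomy (t i) φ with h | h | h
    · rw [if_pos h, if_neg (lt_asymm h), if_pos h]; ring
    · rw [h]; simp
    · rw [if_neg (lt_asymm h), if_pos h, if_pos h, if_neg (lt_asymm h)]; ring
  rw [Finset.sum_congr rfl hpsi, Finset.sum_add_distrib, ← Finset.mul_sum,
    Finset.sum_sub_distrib]
  have e1 : ∑ i ∈ N, (if φ < t i then ((cp (t i) - cm (t i) : ℤ) : ℝ) else 0) =
      ((cm 0 - cp φ : ℤ) : ℝ) := by
    rw [← hup, Finset.sum_filter]
    push_cast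
    refine Finset.sum_congr rfl fun i _ => ?_
    split_ifs <;> simp
  have e2 : ∑ i ∈ N, (if t i < φ then ((cp (t i) - cm (t i) : ℤ) : ℝ) else 0) =
      ((cm φ - cm 0 : ℤ) : ℝ) := by
    rw [← hlow, Finset.sum_filter]
    push_cast
    refine Finset.sum_congr rfl fun i _ => ?_
    split_ifs <;> simp
  have e3 : ∑ i ∈ N, ((cp (t i) - cm (t i) : ℤ) : ℝ) * (φ - t i) =
      - ∑ i ∈ N, ((cp (t i) - cm (t i) : ℤ) : ℝ) * t i := by
    have : ∑ i ∈ N, ((cp (t i) - cm (t i) : ℤ) : ℝ) = 0 := by exact_mod_cast hz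
    simp only [mul_sub, Finset.sum_sub_distrib]
    rw [← Finset.sum_mul, this]
    ring
  rw [e1, e2, e3]
  push_cast
  ring

/-- A symmetric integer function vanishing on the diagonal has an even sum. -/
theorem even_sum_symm {W : Type*} [Fintype W] (f : W → W → ℤ)
    (hs : ∀ x y, f x y = f y x) (hd : ∀ x, f x x = 0) : Even (∑ x, ∑ y, f x y) := by
  classical
  rw [← Finset.sum_product', even_iff_two_dvd]
  have h2 : ((2 : ℕ) : ℤ) ∣ ∑ x ∈ (univ : Finset W) ×ˢ univ, f x.1 x.2 := by
    rw [← (ZMod.intCast_zmod_eq_zero_iff_dvd _ 2)]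
    push_cast
    refine Finset.sum_involution (fun p _ => (p.2, p.1)) ?_ ?_ ?_ ?_
    · intro p _
      simp only
      rw [hs p.2 p.1]
      exact CharTwo.add_self_eq_zero _
    · intro p _ hp h
      apply hp
      have : p.2 = p.1 := congrArg Prod.fst h
      rw [this, hd]; simp
    · intro p _; simp
    · intro p _; simp
  exact_mod_cast h2

/-- Corner functions of a face of a plane drawing of `H` with directions `θ`: `cp x φ` and `cm x φ`
are the values just after and just before the direction `φ` at `x`. -/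
structure IsCirc {W : Type*} (θ : W → W → ℝ) (H : SimpleGraph W) (cp cm : W → ℝ → ℤ) : Prop where
  c1 : ∀ x φ, 0 ≤ φ → φ < 2 * π → (∀ y, H.Adj x y → θ x y ≠ φ) → cp x φ = cm x φ
  c2 : ∀ x φ₁ φ₂, 0 ≤ φ₁ → φ₁ < φ₂ → φ₂ < 2 * π →
    (∀ y, H.Adj x y → ¬ (φ₁ < θ x y ∧ θ x y < φ₂)) → cp x φ₁ = cm x φ₂
  c3 : ∀ x φ₁, 0 ≤ φ₁ → φ₁ < 2 * π → (∀ y, H.Adj x y → ¬ (φ₁ < θ x y)) → cp x φ₁ = cm x 0
  side : ∀ x y, H.Adj x y → cp x (θ x y) = cm y (θ y x)

section circ

variable {W : Type*} {θ : W → W → ℝ} {H : SimpleGraph W} {cp cm : W → ℝ → ℤ}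

open Classical in
/-- The circulation of corner functions. -/
noncomputable def eps (θ : W → W → ℝ) (H : SimpleGraph W) (cp cm : W → ℝ → ℤ) (x y : W) : ℤ :=
  if H.Adj x y then cp x (θ x y) - cm x (θ x y) else 0

theorem eps_anti (h : IsCirc θ H cp cm) (x y : W) :
    eps θ H cp cm y x = - eps θ H cp cm x y := by
  unfold eps
  by_cases hxy : H.Adj x y
  · rw [if_pos hxy, if_pos hxy.symm, ← h.side x y hxy, h.side y x hxy.symm]; ring
  · rw [if_neg hxy, if_neg (fun h => hxy h.symm)]; rfl

theorem eps_self (x : W) : eps θ H cp cm x x = 0 := by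
  unfold eps; rw [if_neg (H.irrefl)]

theorem eps_sums [Fintype W] (h : IsCirc θ H cp cm)
    (h0 : ∀ x y, H.Adj x y → 0 ≤ θ x y ∧ θ x y < 2 * π)
    (hinj : ∀ x y z, H.Adj x y → H.Adj x z → θ x y = θ x z → y = z) (x : W) :
    (∑ y, eps θ H cp cm x y = 0) ∧ ∃ C : ℝ, ∀ φ, 0 ≤ φ → φ < 2 * π →
      ∑ y, (eps θ H cp cm x y : ℝ) * psi φ (θ x y) = C - π * (cp x φ + cm x φ) := by
  classical
  have key := vertex_sum (univ.filter fun y => H.Adj x y) (fun y => θ x y)
    (fun i hi => h0 x i (Finset.mem_filter.1 hi).2)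
    (fun i hi j hj hij => hinj x i j (Finset.mem_filter.1 hi).2 (Finset.mem_filter.1 hj).2 hij)
    (cp x) (cm x)
    (fun φ p1 p2 p3 => h.c1 x φ p1 p2 fun y hy => p3 y (Finset.mem_filter.2 ⟨mem_univ _, hy⟩))
    (fun φ₁ φ₂ p0 p1 p2 p3 => h.c2 x φ₁ φ₂ p0 p1 p2
      fun y hy => p3 y (Finset.mem_filter.2 ⟨mem_univ _, hy⟩))
    (fun φ p1 p2 p3 => h.c3 x φ p1 p2 fun y hy => p3 y (Finset.mem_filter.2 ⟨mem_univ _, hy⟩))
  constructor
  · have := key.1
    rw [Finset.sum_filter] at this
    unfold eps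
    exact this
  · refine ⟨2 * π * cm x 0 - ∑ y ∈ univ.filter (fun y => H.Adj x y),
      ((cp x (θ x y) - cm x (θ x y) : ℤ) : ℝ) * θ x y, fun φ p1 p2 => ?_⟩
    rw [← key.2 φ p1 p2, Finset.sum_filter]
    refine Finset.sum_congr rfl fun y _ => ?_
    unfold eps
    split_ifs
    · rfl
    · simp

end circ

/-- Parity of the corners at the ends of an edge `uv` outside `H`. -/
theorem algD {W : Type*} [Fintype W] {U : SimpleGraph W} (A : AngData W U) {H : SimpleGraph W}
    (hH : H ≤ U) {cp cm : W → ℝ → ℤ} (h : IsCirc A.θ H cp cm) {u v : W} (huv : U.Adj u v)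
    (hn : ¬ H.Adj u v) (hr : H.Reachable u v)
    (hev : ∀ a b, (s(a, b) = s(u, v) ∨ H.Adj a b) → ∀ y z, H.Adj y z →
      cp y (A.θ y z) ≠ cm y (A.θ y z) → s(a, b) ≠ s(y, z) → Even (A.nn a b y z)) :
    Even (cp u (A.θ u v) - cp v (A.θ v u)) := by
  classical
  have hπ := Real.pi_pos
  have hsum := fun x => eps_sums h (fun x y hxy => A.θ0 x y (hH hxy))
    (fun x y z h1 h2 => A.θinj x y z (hH h1) (hH h2)) x
  choose hz C hC using hsum
  set ε := eps A.θ H cp cm with hε
  have hz' : ∀ z, ∑ y, ε y z = 0 := by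
    intro z
    have : ∑ y, ε y z = ∑ y, - ε z y := Finset.sum_congr rfl fun y _ => eps_anti h z y
    rw [this, Finset.sum_neg_distrib, hz]; rfl
  let g : W → ℝ := fun x => ∑ y, ∑ z, (ε y z : ℝ) * A.B x y z
  let G : W → ℝ := fun x => g x - 2 * C x
  let n' : W → W → W → W → ℤ := fun a b y z => if s(a, b) = s(y, z) then 0 else A.nn a b y z
  -- the extended key identity
  have key : ∀ a b y z, U.Adj a b → U.Adj y z →
      A.B b y z - A.B a y z = (A.B z a b - A.B y a b) + 2 * π * n' a b y z +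
      ((if a = y then - psi (A.θ a b) (A.θ y z) else 0) +
       (if b = y then psi (A.θ b a) (A.θ y z) else 0) +
       (if a = z then psi (A.θ a b) (A.θ z y) else 0) +
       (if b = z then - psi (A.θ b a) (A.θ z y) else 0)) := by
    intro a b y z hab hyz
    by_cases hs : s(a, b) = s(y, z)
    · simp only [n', if_pos hs]
      rw [Sym2.eq_iff] at hs
      rcases hs with ⟨rfl, rfl⟩ | ⟨rfl, rfl⟩
      · simp only [if_true, psi_self, if_neg hab.ne, if_neg hab.ne']
        norm_num
      · simp only [if_true, psi_self, if_neg hab.ne, if_neg hab.ne']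
        have e1 := A.Banti b b a
        have e2 := A.Banti a b a
        push_cast
        linarith
    · simp only [n', if_neg hs]
      have := A.key a b y z hab hyz hs
      linarith
  -- the difference of `G` along a dart
  have diff : ∀ a b, U.Adj a b → G b - G a = 2 * π * ((∑ y, ∑ z, ε y z * n' a b y z : ℤ) : ℝ) -
      2 * π * ((cp b (A.θ b a) + cm b (A.θ b a)) - (cp a (A.θ a b) + cm a (A.θ a b))) := by
    intro a b hab
    have e0 : g b - g a = ∑ y, ∑ z, (ε y z : ℝ) * (A.B b y z - A.B a y z) := by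
      simp only [g, mul_sub, Finset.sum_sub_distrib]
    have e1 : ∑ y, ∑ z, (ε y z : ℝ) * (A.B b y z - A.B a y z) =
        ∑ y, ∑ z, ((ε y z : ℝ) * A.B z a b - (ε y z : ℝ) * A.B y a b +
          2 * π * ((ε y z * n' a b y z : ℤ) : ℝ) +
          ((if a = y then (ε y z : ℝ) * - psi (A.θ a b) (A.θ y z) else 0) +
           (if b = y then (ε y z : ℝ) * psi (A.θ b a) (A.θ y z) else 0) +
           (if a = z then (ε y z : ℝ) * psi (A.θ a b) (A.θ z y) else 0) +
           (if b = z then (ε y z : ℝ) * - psi (A.θ b a) (A.θ z y) else 0))) := by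
      refine Finset.sum_congr rfl fun y _ => Finset.sum_congr rfl fun z _ => ?_
      by_cases hyz : H.Adj y z
      · rw [key a b y z hab (hH hyz)]
        push_cast
        split_ifs <;> ring
      · have : ε y z = 0 := if_neg hyz
        rw [this]
        push_cast
        split_ifs <;> ring
    have e2 : ∑ y, ∑ z, (ε y z : ℝ) * A.B z a b = 0 := by
      rw [Finset.sum_comm]
      refine Finset.sum_eq_zero fun z _ => ?_
      rw [← Finset.sum_mul]
      have : ∑ y, (ε y z : ℝ) = 0 := by exact_mod_cast hz' z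
      rw [this, zero_mul]
    have e3 : ∑ y, ∑ z, (ε y z : ℝ) * A.B y a b = 0 := by
      refine Finset.sum_eq_zero fun y _ => ?_
      rw [← Finset.sum_mul]
      have : ∑ z, (ε y z : ℝ) = 0 := by exact_mod_cast hz y
      rw [this, zero_mul]
    have hθab := A.θ0 a b hab
    have hθba := A.θ0 b a hab.symm
    have c1 := hC a _ hθab.1 hθab.2
    have c2 := hC b _ hθba.1 hθba.2
    have f1 : ∑ y, ∑ z, (if a = y then (ε y z : ℝ) * - psi (A.θ a b) (A.θ y z) else 0) =
        - (C a - π * (cp a (A.θ a b) + cm a (A.θ a b))) := by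
      rw [← c1]
      simp only [Finset.sum_ite_irrel, Finset.sum_const_zero]
      rw [Finset.sum_ite_eq]
      simp
    have f2 : ∑ y, ∑ z, (if b = y then (ε y z : ℝ) * psi (A.θ b a) (A.θ y z) else 0) =
        (C b - π * (cp b (A.θ b a) + cm b (A.θ b a))) := by
      rw [← c2]
      simp only [Finset.sum_ite_irrel, Finset.sum_const_zero]
      rw [Finset.sum_ite_eq]
      simp
    have f3 : ∑ y, ∑ z, (if a = z then (ε y z : ℝ) * psi (A.θ a b) (A.θ z y) else 0) =
        - (C a - π * (cp a (A.θ a b) + cm a (A.θ a b))) := by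
      rw [← c1]
      simp only [Finset.sum_ite_eq, Finset.mem_univ, if_true]
      rw [← Finset.sum_neg_distrib]
      refine Finset.sum_congr rfl fun y _ => ?_
      have : ε y a = - ε a y := eps_anti h a y
      rw [this]; push_cast; ring
    have f4 : ∑ y, ∑ z, (if b = z then (ε y z : ℝ) * - psi (A.θ b a) (A.θ z y) else 0) =
        (C b - π * (cp b (A.θ b a) + cm b (A.θ b a))) := by
      rw [← c2]
      simp only [Finset.sum_ite_eq, Finset.mem_univ, if_true]
      refine Finset.sum_congr rfl fun y _ => ?_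
      have : ε y b = - ε b y := eps_anti h b y
      rw [this]; push_cast; ring
    have e4 : g b - g a = 2 * π * ((∑ y, ∑ z, ε y z * n' a b y z : ℤ) : ℝ) +
        2 * (C b - π * (cp b (A.θ b a) + cm b (A.θ b a))) -
        2 * (C a - π * (cp a (A.θ a b) + cm a (A.θ a b))) := by
      rw [e0, e1]
      simp only [Finset.sum_add_distrib, Finset.sum_sub_distrib, ← Finset.mul_sum]
      rw [e2, e3, f1, f2, f3, f4]
      push_cast
      ring
    have : G b - G a = (g b - g a) - 2 * (C b - C a) := by simp only [G]; ring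
    rw [this, e4]
    ring
  -- divisibility by four
  have four : ∀ a b, (s(a, b) = s(u, v) ∨ H.Adj a b) →
      (4 : ℤ) ∣ ∑ y, ∑ z, ε y z * n' a b y z := by
    intro a b hab
    have hex : ∀ y z, ∃ m : ℤ, ε y z * n' a b y z = 2 * m := by
      intro y z
      by_cases hyz : H.Adj y z
      · by_cases hne : cp y (A.θ y z) = cm y (A.θ y z)
        · refine ⟨0, ?_⟩
          have : ε y z = 0 := by rw [hε]; unfold eps; rw [if_pos hyz, hne, sub_self]
          rw [this]; ring
        · by_cases hs : s(a, b) = s(y, z)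
          · refine ⟨0, ?_⟩
            simp only [n', if_pos hs]; ring
          · obtain ⟨k, hk⟩ := hev a b hab y z hyz hne hs
            refine ⟨ε y z * k, ?_⟩
            simp only [n', if_neg hs, hk]; ring
      · refine ⟨0, ?_⟩
        have : ε y z = 0 := if_neg hyz
        rw [this]; ring
    choose m hm using hex
    have hsym : ∀ y z, m y z = m z y := by
      intro y z
      have h1 : ε y z * n' a b y z = ε z y * n' a b z y := by
        have e1 : ε z y = - ε y z := eps_anti h y z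
        have e2 : n' a b z y = - n' a b y z := by
          simp only [n']
          rw [Sym2.eq_swap (a := z) (b := y)]
          split_ifs
          · rfl
          · exact A.nanti a b y z
        rw [e1, e2]; ring
      have := hm y z
      have := hm z y
      omega
    have hdiag : ∀ y, m y y = 0 := by
      intro y
      have h1 := hm y y
      have : ε y y = 0 := eps_self y
      rw [this] at h1
      omega
    obtain ⟨k, hk⟩ := even_sum_symm m hsym hdiag
    refine ⟨k, ?_⟩
    have : ∑ y, ∑ z, ε y z * n' a b y z = 2 * ∑ y, ∑ z, m y z := by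
      rw [Finset.mul_sum]
      refine Finset.sum_congr rfl fun y _ => ?_
      rw [Finset.mul_sum]
      exact Finset.sum_congr rfl fun z _ => hm y z
    rw [this, hk]; ring
  -- along walks
  have walk : ∀ x y : W, H.Reachable x y → ∃ k : ℤ, G y - G x = 8 * π * k := by
    rintro x y ⟨p⟩
    induction p with
    | nil => exact ⟨0, by simp⟩
    | @cons a b c hab q ih =>
      obtain ⟨k, hk⟩ := ih
      obtain ⟨l, hl⟩ := four a b (Or.inr hab)
      refine ⟨k + l, ?_⟩
      have h1 := diff a b (hH hab)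
      rw [hl, h.side a b hab, ← h.side b a hab.symm] at h1
      push_cast at h1 ⊢
      linear_combination hk + h1
  obtain ⟨k, hk⟩ := walk u v hr
  obtain ⟨l, hl⟩ := four u v (Or.inl rfl)
  have h1 := diff u v huv
  have hθ1 := A.θ0 u v huv
  have hθ2 := A.θ0 v u huv.symm
  have d1 : cp u (A.θ u v) = cm u (A.θ u v) := h.c1 u _ hθ1.1 hθ1.2 (fun y hy he => by
    have := A.θinj u y v (hH hy) huv he
    rw [this] at hy; exact hn hy)
  have d2 : cp v (A.θ v u) = cm v (A.θ v u) := h.c1 v _ hθ2.1 hθ2.2 (fun y hy he => by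
    have := A.θinj v y u (hH hy) huv.symm he
    rw [this] at hy; exact hn hy.symm)
  rw [hl, ← d1, ← d2, hk] at h1
  have h2 : (π * (cp u (A.θ u v) - cp v (A.θ v u)) : ℝ) = π * (2 * (k - l)) := by
    push_cast at h1
    linarith
  have h3 := mul_left_cancel₀ hπ.ne' h2
  refine ⟨k - l, ?_⟩
  have h4 : cp u (A.θ u v) - cp v (A.θ v u) = 2 * (k - l) := by exact_mod_cast h3
  rw [h4]; ring

end Pool.Agent.H119.Sefe
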