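import Mathlib

/-!
# Drawings of graphs in the plane and simultaneous embeddings with fixed edges

The plane is the complex plane `ℂ`. A graph with vertices in a type `V` is a subgraph of the
complete graph on `V`, that is, an element of `(⊤ : SimpleGraph V).Subgraph`: it has a set `verts`
of vertices and a symmetric irreflexive relation `Adj` between them. The union `G₁ ⊔ G₂` and the
intersection `G₁ ⊓ G₂` have the vertex sets `V₁ ∪ V₂`, `V₁ ∩ V₂` and the edge sets `E₁ ∪ E₂`,
`E₁ ∩ E₂`.
-/

set_option autoImplicit false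

namespace Pool.Agent.H119.SefeDefs

variable {V : Type}

/-- `a` is (the set of points of) a simple arc in the plane joining `x` and `y`. -/
def IsArc (a : Set ℂ) (x y : ℂ) : Prop :=
  ∃ γ : Path x y, Function.Injective γ ∧ Set.range γ = a

/-- The arcs `a` and `b` cross properly at `z`: in suitable local coordinates around `z` (a
homeomorphism `φ` between a neighbourhood of `z` and an open subset of `ℝ × ℝ`, with `φ z = 0`),
the arc `a` is the first coordinate axis and the arc `b` is the second coordinate axis. -/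
def IsProperCrossing (a b : Set ℂ) (z : ℂ) : Prop :=
  ∃ φ : OpenPartialHomeomorph ℂ (ℝ × ℝ), z ∈ φ.source ∧ φ z = (0, 0) ∧
    ∀ w ∈ φ.source, (w ∈ a ↔ (φ w).2 = 0) ∧ (w ∈ b ↔ (φ w).1 = 0)

/-- A drawing of the graph `G` in the plane: the vertices are distinct points, each edge is a simple
arc joining its two endpoints and passing through no other vertex, any two arcs share finitely many
points, and each common point that is not a vertex is a proper crossing. (The values of `pt` outside
the vertex set and of `arc` outside the edge set are irrelevant.) -/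
structure Drawing (G : (⊤ : SimpleGraph V).Subgraph) where
  /-- the point of a vertex -/
  pt : V → ℂ
  /-- the arc of an edge -/
  arc : Sym2 V → Set ℂ
  pt_inj : Set.InjOn pt G.verts
  isArc : ∀ u v : V, G.Adj u v → IsArc (arc s(u, v)) (pt u) (pt v)
  avoid : ∀ e ∈ G.edgeSet, ∀ w ∈ G.verts, pt w ∈ arc e → w ∈ e
  finite : ∀ e ∈ G.edgeSet, ∀ f ∈ G.edgeSet, e ≠ f → (arc e ∩ arc f).Finite
  proper : ∀ e ∈ G.edgeSet, ∀ f ∈ G.edgeSet, e ≠ f → ∀ z ∈ arc e ∩ arc f,
    z ∉ pt '' G.verts → IsProperCrossing (arc e) (arc f) z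

variable {G G₁ G₂ : (⊤ : SimpleGraph V).Subgraph}

/-- The crossings of `e` and `f`: the common points of the two arcs that are not vertices. -/
def Drawing.crossings (D : Drawing G) (e f : Sym2 V) : Set ℂ :=
  {z | z ∈ D.arc e ∩ D.arc f ∧ z ∉ D.pt '' G.verts}

/-- A drawing is planar if no two edges cross. -/
def Drawing.Planar (D : Drawing G) : Prop :=
  ∀ e ∈ G.edgeSet, ∀ f ∈ G.edgeSet, e ≠ f → D.crossings e f = ∅

/-- A drawing of `G₁ ∪ G₂` is SEFE-odd-admissible if, whenever two edges cross an odd number of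
times, one of them is an exclusive edge of `G₁` and the other is an exclusive edge of `G₂`. -/
def Drawing.OddAdmissible (D : Drawing (G₁ ⊔ G₂)) : Prop :=
  ∀ e ∈ (G₁ ⊔ G₂).edgeSet, ∀ f ∈ (G₁ ⊔ G₂).edgeSet, e ≠ f → Odd (D.crossings e f).ncard →
    (e ∈ G₁.edgeSet \ (G₁ ⊓ G₂).edgeSet ∧ f ∈ G₂.edgeSet \ (G₁ ⊓ G₂).edgeSet) ∨
    (e ∈ G₂.edgeSet \ (G₁ ⊓ G₂).edgeSet ∧ f ∈ G₁.edgeSet \ (G₁ ⊓ G₂).edgeSet)

/-- `G₁` and `G₂` admit a simultaneous embedding with fixed edges: there are planar drawings of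
`G₁` and of `G₂` in which every vertex of `G₁ ∩ G₂` is the same point and every edge of `G₁ ∩ G₂`
is the same arc. -/
def AdmitsSEFE (G₁ G₂ : (⊤ : SimpleGraph V).Subgraph) : Prop :=
  ∃ (D₁ : Drawing G₁) (D₂ : Drawing G₂), D₁.Planar ∧ D₂.Planar ∧
    (∀ v ∈ (G₁ ⊓ G₂).verts, D₁.pt v = D₂.pt v) ∧
    ∀ e ∈ (G₁ ⊓ G₂).edgeSet, D₁.arc e = D₂.arc e

end Pool.Agent.H119.SefeDefs
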