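import Pool.Agent.H119.Sefe.Var
import Pool.Agent.H119.Sefe.Alg

/-!
# The angle data of a drawing
-/

set_option autoImplicit false

namespace Pool.Agent.H119.Sefe

open Set Complex Topology Filter Pool.Agent.H858R3.Lift Pool.Agent.H858R3.Cross
open Pool.Agent.TH510.Sefe

variable {W : Type} [Fintype W] {U : SimpleGraph W}

/-- parametrizations of the arcs of a drawing -/
structure Par (D : Drawing U) (X : W → W → ℝ → ℂ) (σ : W → W → ℝ) (θ : W → W → ℝ) (r : ℝ) :
    Prop where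
  cont : ∀ x y, U.Adj x y → Continuous (X x y)
  zero : ∀ x y, U.Adj x y → X x y 0 = D.pt x
  one : ∀ x y, U.Adj x y → X x y 1 = D.pt y
  inj : ∀ x y, U.Adj x y → ∀ s ∈ Icc (0 : ℝ) 1, ∀ t ∈ Icc (0 : ℝ) 1, X x y s = X x y t → s = t
  img : ∀ x y, U.Adj x y → X x y '' Icc (0 : ℝ) 1 = D.arc s(x, y)
  rev : ∀ x y, U.Adj x y → ∀ t, X y x t = X x y (1 - t)
  rpos : 0 < r
  far : ∀ e ∈ U.edgeSet, ∀ f ∈ U.edgeSet, e ≠ f → ∀ x, ∀ z ∈ D.arc e, z ∈ D.arc f → z ≠ D.pt x →
    r < ‖z - D.pt x‖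
  σpos : ∀ x y, U.Adj x y → 0 < σ x y
  σlt : ∀ x y, U.Adj x y → σ x y < 1
  exit : ∀ x y, U.Adj x y → X x y (σ x y) = D.pt x + r * ev (θ x y)
  disc : ∀ x y, U.Adj x y → ∀ s ∈ Icc 0 (σ x y), ‖X x y s - D.pt x‖ ≤ r
  θ0 : ∀ x y, U.Adj x y → 0 ≤ θ x y ∧ θ x y < 2 * Real.pi

theorem exists_par (D : Drawing U) : ∃ X σ θ r, Par D X σ θ r := by
  classical
  -- parametrizations
  have hΓ : ∀ x y, ∃ g : ℝ → ℂ, U.Adj x y → (Continuous g ∧ g 0 = D.pt x ∧ g 1 = D.pt y ∧
      (∀ s ∈ Icc (0 : ℝ) 1, ∀ t ∈ Icc (0 : ℝ) 1, g s = g t → s = t) ∧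
      g '' Icc (0 : ℝ) 1 = D.arc s(x, y)) := by
    intro x y
    by_cases h : U.Adj x y
    · obtain ⟨γ, hγ, hr⟩ := D.isArc x y h
      refine ⟨γ.extend, fun _ => ⟨γ.continuous_extend, γ.extend_zero, γ.extend_one, ?_, ?_⟩⟩
      · intro s hs t ht hst
        rw [γ.extend_apply hs, γ.extend_apply ht] at hst
        exact congrArg Subtype.val (hγ hst)
      · rw [← hr]
        ext z
        constructor
        · rintro ⟨t, ht, rfl⟩
          rw [γ.extend_apply ht]; exact ⟨_, rfl⟩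
        · rintro ⟨t, rfl⟩
          exact ⟨t, t.2, by rw [γ.extend_apply t.2]⟩
    · exact ⟨0, fun h' => absurd h' h⟩
  choose g hg using hΓ
  let X : W → W → ℝ → ℂ := fun x y t =>
    if (Quot.out s(x, y) : W × W) = (x, y) then g x y t else g y x (1 - t)
  have hout : ∀ x y : W, (Quot.out s(x, y) : W × W) = (x, y) ∨
      (Quot.out s(x, y) : W × W) = (y, x) := by
    intro x y
    have h : s((Quot.out s(x, y) : W × W).1, (Quot.out s(x, y) : W × W).2) = s(x, y) :=
      Quot.out_eq s(x, y)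
    rcases Sym2.eq_iff.1 h with h1 | h1
    · left; exact Prod.ext h1.1 h1.2
    · right; exact Prod.ext h1.1 h1.2
  have hX1 : ∀ x y, (Quot.out s(x, y) : W × W) = (x, y) → X x y = g x y := by
    intro x y h; funext t; exact if_pos h
  have hX2 : ∀ x y, (Quot.out s(x, y) : W × W) ≠ (x, y) → X x y = fun t => g y x (1 - t) := by
    intro x y h; funext t; exact if_neg h
  have hrev : ∀ x y, U.Adj x y → ∀ t, X y x t = X x y (1 - t) := by
    intro x y hxy t
    have hne : (x, y) ≠ (y, x) := fun h => hxy.ne (congrArg Prod.fst h)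
    rcases hout x y with h | h
    · rw [hX1 x y h, hX2 y x (by rw [Sym2.eq_swap, h]; exact hne)]
    · rw [hX2 x y (by rw [h]; exact hne.symm), hX1 y x (by rw [Sym2.eq_swap]; exact h)]
      simp
  have hprop : ∀ x y, U.Adj x y → (Continuous (X x y) ∧ X x y 0 = D.pt x ∧ X x y 1 = D.pt y ∧
      (∀ s ∈ Icc (0 : ℝ) 1, ∀ t ∈ Icc (0 : ℝ) 1, X x y s = X x y t → s = t) ∧
      X x y '' Icc (0 : ℝ) 1 = D.arc s(x, y)) := by
    intro x y hxy
    by_cases h : (Quot.out s(x, y) : W × W) = (x, y)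
    · rw [hX1 x y h]; exact hg x y hxy
    · rw [hX2 x y h]
      obtain ⟨h1, h2, h3, h4, h5⟩ := hg y x hxy.symm
      refine ⟨by fun_prop, by simpa using h3, by simpa using h2, ?_, ?_⟩
      · intro s hs t ht hst
        have := h4 (1 - s) ⟨by linarith [hs.2], by linarith [hs.1]⟩ (1 - t)
          ⟨by linarith [ht.2], by linarith [ht.1]⟩ hst
        linarith
      · rw [Sym2.eq_swap, ← h5]
        ext z
        constructor
        · rintro ⟨t, ht, rfl⟩
          exact ⟨1 - t, ⟨by linarith [ht.2], by linarith [ht.1]⟩, rfl⟩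
        · rintro ⟨t, ht, rfl⟩
          exact ⟨1 - t, ⟨by linarith [ht.2], by linarith [ht.1]⟩, by simp⟩
  -- the radius
  obtain ⟨r, hr, hfar, hpt⟩ : ∃ r : ℝ, 0 < r ∧ (∀ e ∈ U.edgeSet, ∀ f ∈ U.edgeSet, e ≠ f → ∀ x,
      ∀ z ∈ D.arc e, z ∈ D.arc f → z ≠ D.pt x → r < ‖z - D.pt x‖) ∧
      ∀ x y, x ≠ y → r < ‖D.pt y - D.pt x‖ := by
    let F : Set ℂ := Set.range D.pt ∪ ⋃ e ∈ U.edgeSet, ⋃ f ∈ {f | f ∈ U.edgeSet ∧ e ≠ f},
      (D.arc e ∩ D.arc f)
    have hF : F.Finite := by
      refine (Set.finite_range _).union ?_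
      refine (Set.toFinite U.edgeSet).biUnion fun e he => ?_
      refine (Set.toFinite _).biUnion fun f hf => D.finite e he f hf.1 hf.2
    have h1 : ∀ᶠ r in 𝓝[>] (0 : ℝ), ∀ x, ∀ z ∈ F, z ≠ D.pt x → r < ‖z - D.pt x‖ := by
      rw [eventually_all]
      intro x
      rw [eventually_all_finite hF]
      intro z _
      by_cases hz : z = D.pt x
      · exact Eventually.of_forall fun r h => absurd hz h
      · have : 0 < ‖z - D.pt x‖ := norm_pos_iff.2 (sub_ne_zero.2 hz)
        filter_upwards [Ioo_mem_nhdsGT this] with r hr _ using hr.2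
    obtain ⟨r, h2, h3⟩ := (h1.and self_mem_nhdsWithin).exists
    refine ⟨r, h3, ?_, ?_⟩
    · intro e he f hf hef x z hze hzf hz
      refine h2 x z (Or.inr ?_) hz
      simp only [Set.mem_iUnion]
      exact ⟨e, he, f, ⟨hf, hef⟩, hze, hzf⟩
    · intro x y hxy
      exact h2 x _ (Or.inl ⟨y, rfl⟩) (fun h => hxy (D.pt_inj h).symm)
  -- the exits
  have hσ : ∀ x y, ∃ a : ℝ, U.Adj x y → (0 < a ∧ a < 1 ∧ ‖X x y a - D.pt x‖ = r ∧
      ∀ s ∈ Icc 0 a, ‖X x y s - D.pt x‖ ≤ r) := by
    intro x y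
    by_cases h : U.Adj x y
    · obtain ⟨h1, h2, h3, -, -⟩ := hprop x y h
      obtain ⟨a, a1, a2, a3, a4⟩ := Pool.Agent.H858R3.Lift.exit h1 hr
        (by rw [h2, h3]; exact hpt x y h.ne)
      rw [h2] at a3 a4
      refine ⟨a, fun _ => ⟨a1, lt_of_le_of_ne a2 ?_, a3, a4⟩⟩
      rintro rfl
      rw [h3] at a3
      exact (hpt x y h.ne).ne' a3
    · exact ⟨0, fun h' => absurd h' h⟩
  choose σ hσ using hσ
  have hθ : ∀ x y, ∃ θ : ℝ, U.Adj x y → (X x y (σ x y) = D.pt x + r * ev θ ∧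
      0 ≤ θ ∧ θ < 2 * Real.pi) := by
    intro x y
    by_cases h : U.Adj x y
    · obtain ⟨a1, a2, a3, a4⟩ := hσ x y h
      have hne : D.pt x ≠ X x y (σ x y) := by
        intro he
        rw [← he, sub_self, norm_zero] at a3
        exact hr.ne a3
      obtain ⟨φ, hφ⟩ := exists_ray hne
      obtain ⟨θ, t1, t2, t3⟩ := exists_shift 0 φ
      refine ⟨θ, fun _ => ⟨?_, t2, by linarith⟩⟩
      have := hφ.norm
      rw [a3, ← t1] at this
      exact this
    · exact ⟨0, fun h' => absurd h' h⟩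
  choose θ hθ using hθ
  exact ⟨X, σ, θ, r, {
    cont := fun x y h => (hprop x y h).1
    zero := fun x y h => (hprop x y h).2.1
    one := fun x y h => (hprop x y h).2.2.1
    inj := fun x y h => (hprop x y h).2.2.2.1
    img := fun x y h => (hprop x y h).2.2.2.2
    rev := hrev
    rpos := hr
    far := hfar
    σpos := fun x y h => (hσ x y h).1
    σlt := fun x y h => (hσ x y h).2.1
    exit := fun x y h => (hθ x y h).1
    disc := fun x y h => (hσ x y h).2.2.2
    θ0 := fun x y h => (hθ x y h).2 }⟩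

section

variable {D : Drawing U} {X : W → W → ℝ → ℂ} {σ : W → W → ℝ} {θ : W → W → ℝ} {r : ℝ}

omit [Fintype W] in
theorem Par.mem (P : Par D X σ θ r) {x y : W} (h : U.Adj x y) {t : ℝ} (ht : t ∈ Icc (0 : ℝ) 1) :
    X x y t ∈ D.arc s(x, y) := by
  rw [← P.img x y h]; exact ⟨t, ht, rfl⟩

omit [Fintype W] in
/-- a vertex on both of two different edges -/
theorem Par.vertex (_P : Par D X σ θ r) {e f : Sym2 W} (he : e ∈ U.edgeSet) (hf : f ∈ U.edgeSet)
    {w : W} (h1 : D.pt w ∈ D.arc e) (h2 : D.pt w ∈ D.arc f) : w ∈ e ∧ w ∈ f :=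
  ⟨D.avoid e he w h1, D.avoid f hf w h2⟩

open Classical in
/-- the variation of the argument along `yz` seen from `x` -/
noncomputable def BB (D : Drawing U) (X : W → W → ℝ → ℂ) (σ : W → W → ℝ) (x y z : W) : ℝ :=
  if U.Adj y z then
    (if x = y then (al (D.pt x) (sub (X y z) (σ y z) 1)).im
     else if x = z then - (al (D.pt x) (sub (X z y) (σ z y) 1)).im
     else (al (D.pt x) (sub (X y z) 0 1)).im)
  else 0

theorem BB_anti (P : Par D X σ θ r) (x y z : W) : BB D X σ x z y = - BB D X σ x y z := by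
  unfold BB
  by_cases h : U.Adj y z
  · rw [if_pos h, if_pos h.symm]
    by_cases h1 : x = y
    · have h2 : x ≠ z := fun h2 => h.ne (h1.symm.trans h2)
      rw [if_neg h2, if_pos h1, if_pos h1]
    · by_cases h2 : x = z
      · rw [if_pos h2, if_neg h1, if_pos h2, neg_neg]
      · rw [if_neg h2, if_neg h1, if_neg h1, if_neg h2]
        have hn : ∀ t ∈ Icc (0 : ℝ) 1, X y z t ≠ D.pt x := by
          intro t ht he
          have := D.avoid _ h x (by rw [← he]; exact P.mem h ht)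
          rw [Sym2.mem_iff] at this
          rcases this with h3 | h3
          · exact h1 h3
          · exact h2 h3
        obtain ⟨ℓ, hℓ⟩ := exists_primitive (P.cont y z h) zero_le_one hn
        have m0 : (0 : ℝ) ∈ Icc (0 : ℝ) 1 := ⟨le_rfl, zero_le_one⟩
        have m1 : (1 : ℝ) ∈ Icc (0 : ℝ) 1 := ⟨zero_le_one, le_rfl⟩
        have e : sub (X z y) 0 1 = sub (X y z) 1 0 := by
          funext t
          unfold sub
          rw [P.rev y z h]
          congr 1
          ring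
        rw [e, hℓ _ m1 _ m0, hℓ _ m0 _ m1]
        simp
  · rw [if_neg h, if_neg fun h' => h h'.symm, neg_zero]

open Classical in
/-- the correction term for common vertices -/
noncomputable def corr (θ : W → W → ℝ) (a b y z : W) : ℝ :=
  ((if a = y then - psi (θ a b) (θ y z) else 0) + (if b = y then psi (θ b a) (θ y z) else 0) +
   (if a = z then psi (θ a b) (θ z y) else 0) + (if b = z then - psi (θ b a) (θ z y) else 0))

omit [Fintype W] in
theorem corr_swap (θ : W → W → ℝ) (a b y z : W) : corr θ b a y z = - corr θ a b y z := by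
  unfold corr; split_ifs <;> ring

omit [Fintype W] in
theorem corr_swap' (θ : W → W → ℝ) (a b y z : W) : corr θ a b z y = - corr θ a b y z := by
  unfold corr; split_ifs <;> ring

/-- the left-hand side of the key identity -/
noncomputable def FF (D : Drawing U) (X : W → W → ℝ → ℂ) (σ : W → W → ℝ) (a b y z : W) : ℝ :=
  BB D X σ b y z - BB D X σ a y z - BB D X σ z a b + BB D X σ y a b

theorem FF_swap (P : Par D X σ θ r) (a b y z : W) : FF D X σ b a y z = - FF D X σ a b y z := by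
  unfold FF
  rw [BB_anti P z a b, BB_anti P y a b]
  ring

theorem FF_swap' (P : Par D X σ θ r) (a b y z : W) : FF D X σ a b z y = - FF D X σ a b y z := by
  unfold FF
  rw [BB_anti P b y z, BB_anti P a y z]
  ring

/-- the statement of the key identity -/
def Key (D : Drawing U) (X : W → W → ℝ → ℂ) (σ θ : W → W → ℝ) (a b y z : W) : Prop :=
  ∃ n : ℤ, FF D X σ a b y z = 2 * Real.pi * n + corr θ a b y z ∧
    (Even (D.crossings s(a, b) s(y, z)).ncard → Even n)

theorem Key.swap (P : Par D X σ θ r) {a b y z : W} (h : Key D X σ θ a b y z) :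
    Key D X σ θ b a y z := by
  obtain ⟨n, h1, h2⟩ := h
  refine ⟨-n, ?_, fun h3 => ?_⟩
  · rw [FF_swap P, h1, corr_swap]; push_cast; ring
  · rw [Sym2.eq_swap] at h3
    exact (h2 h3).neg

theorem Key.swap' (P : Par D X σ θ r) {a b y z : W} (h : Key D X σ θ a b y z) :
    Key D X σ θ a b z y := by
  obtain ⟨n, h1, h2⟩ := h
  refine ⟨-n, ?_, fun h3 => ?_⟩
  · rw [FF_swap' P, h1, corr_swap']; push_cast; ring
  · rw [Sym2.eq_swap (a := z)] at h3
    exact (h2 h3).neg

theorem im_two_pi (m : ℤ) : (2 * (Real.pi : ℂ) * I * m).im = 2 * Real.pi * m := by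
  have e : 2 * (Real.pi : ℂ) * I * m = ((2 * Real.pi * m : ℝ) : ℂ) * I := by push_cast; ring
  rw [e, Complex.im_ofReal_mul, Complex.I_im, mul_one]

/-- independent edges -/
theorem key_indep (P : Par D X σ θ r) {a b y z : W} (hab : U.Adj a b) (hyz : U.Adj y z)
    (h1 : a ≠ y) (h2 : a ≠ z) (h3 : b ≠ y) (h4 : b ≠ z) : Key D X σ θ a b y z := by
  have hne : s(a, b) ≠ s(y, z) := by
    intro h
    rcases Sym2.eq_iff.1 h with ⟨h, -⟩ | ⟨h, -⟩
    · exact h1 h
    · exact h2 h
  have nov : ∀ w, ¬ (D.pt w ∈ D.arc s(a, b) ∧ D.pt w ∈ D.arc s(y, z)) := by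
    rintro w ⟨q1, q2⟩
    obtain ⟨q3, q4⟩ := P.vertex hab hyz q1 q2
    rw [Sym2.mem_iff] at q3 q4
    rcases q3 with rfl | rfl <;> rcases q4 with q | q
    · exact h1 q
    · exact h2 q
    · exact h3 q
    · exact h4 q
  set Z := {s | s ∈ Icc (0 : ℝ) 1 ∧ ∃ t ∈ Icc (0 : ℝ) 1, X a b s = X y z t} with hZ
  have himg : X a b '' Z = D.crossings s(a, b) s(y, z) := by
    ext w
    constructor
    · rintro ⟨s, ⟨hs, t, ht, h⟩, rfl⟩
      refine ⟨⟨P.mem hab hs, by rw [h]; exact P.mem hyz ht⟩, ?_⟩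
      rintro ⟨w, hw⟩
      exact nov w ⟨by rw [hw]; exact P.mem hab hs, by rw [hw, h]; exact P.mem hyz ht⟩
    · rintro ⟨⟨q1, q2⟩, -⟩
      rw [← P.img a b hab] at q1
      rw [← P.img y z hyz] at q2
      obtain ⟨s, hs, rfl⟩ := q1
      obtain ⟨t, ht, h⟩ := q2
      exact ⟨s, ⟨hs, t, ht, h.symm⟩, rfl⟩
  have hinj : Set.InjOn (X a b) Z := fun s hs t ht h => P.inj a b hab s hs.1 t ht.1 h
  have hfin : Z.Finite := by
    refine Set.Finite.of_finite_image ?_ hinj
    rw [himg]
    exact (D.finite _ hab _ hyz hne).subset fun w hw => hw.1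
  obtain ⟨m, hm, hev⟩ := KK_parity (P.cont a b hab) (P.cont y z hyz) zero_lt_one
    (P.inj y z hyz) (fun t ht => P.mem hyz ht) Z.ncard (a := 0) (b := 1) zero_lt_one
    (P.inj a b hab) (fun s hs => P.mem hab hs) hfin rfl (by
      intro s hs t ht h
      have m1 := P.mem hab hs
      have m2 := P.mem hyz ht
      have m0 : (0 : ℝ) ∈ Icc (0 : ℝ) 1 := ⟨le_rfl, zero_le_one⟩
      refine ⟨lt_of_le_of_ne hs.1 ?_, lt_of_le_of_ne hs.2 ?_, lt_of_le_of_ne ht.1 ?_,
        lt_of_le_of_ne ht.2 ?_, ?_⟩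
      · rintro rfl
        rw [P.zero a b hab] at h m1
        rw [← h] at m2
        exact nov a ⟨m1, m2⟩
      · rintro rfl
        rw [P.one a b hab] at h m1
        rw [← h] at m2
        exact nov b ⟨m1, m2⟩
      · rintro rfl
        rw [P.zero y z hyz] at h m2
        rw [h] at m1
        exact nov y ⟨m1, m2⟩
      · rintro rfl
        rw [P.one y z hyz] at h m2
        rw [h] at m1
        exact nov z ⟨m1, m2⟩
      · refine D.proper _ hab _ hyz hne _ ⟨m1, by rw [h]; exact m2⟩ ?_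
        rintro ⟨w, hw⟩
        exact nov w ⟨by rw [hw]; exact m1, by rw [hw, h]; exact m2⟩)
  refine ⟨m, ?_, ?_⟩
  · have hF : FF D X σ a b y z = (KK (X a b) 0 1 (X y z) 0 1).im := by
      unfold FF BB KK
      rw [if_pos hyz, if_neg h3, if_neg h4, if_pos hyz, if_neg h1, if_neg h2, if_pos hab,
        if_neg h2.symm, if_neg h4.symm, if_pos hab, if_neg h1.symm, if_neg h3.symm,
        P.zero a b hab, P.one a b hab, P.zero y z hyz, P.one y z hyz]
      simp only [Complex.add_im, Complex.sub_im]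
    have hc : corr θ a b y z = 0 := by
      unfold corr
      rw [if_neg h1, if_neg h3, if_neg h2, if_neg h4]; ring
    rw [hF, hm, im_two_pi, hc, add_zero]
  · intro h
    rw [← himg, hinj.ncard_image] at h
    have : Even ((Z.ncard : ℕ) : ℤ) := by exact_mod_cast h
    have h5 := hev.add this
    rwa [sub_add_cancel] at h5

/-- edges with a common first vertex -/
theorem key_share (P : Par D X σ θ r) {a b z : W} (hab : U.Adj a b) (haz : U.Adj a z)
    (hbz : b ≠ z) : Key D X σ θ a b a z := by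
  have hne : s(a, b) ≠ s(a, z) := by
    intro h
    rcases Sym2.eq_iff.1 h with ⟨-, h⟩ | ⟨h, -⟩
    · exact hbz h
    · exact haz.ne h
  have nov : ∀ w, D.pt w ∈ D.arc s(a, b) → D.pt w ∈ D.arc s(a, z) → w = a := by
    intro w q1 q2
    obtain ⟨q3, q4⟩ := P.vertex hab haz q1 q2
    rw [Sym2.mem_iff] at q3 q4
    rcases q3 with q3 | q3
    · exact q3
    · rcases q4 with q4 | q4
      · exact q4
      · exact absurd (q3.symm.trans q4) hbz
  have m0 : (0 : ℝ) ∈ Icc (0 : ℝ) 1 := ⟨le_rfl, zero_le_one⟩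
  have m1 : (1 : ℝ) ∈ Icc (0 : ℝ) 1 := ⟨zero_le_one, le_rfl⟩
  have zab := P.zero a b hab
  have zaz := P.zero a z haz
  have z00 : X a b 0 = X a z 0 := zab.trans zaz.symm
  set Z := {s | s ∈ Icc (0 : ℝ) 1 ∧ s ≠ 0 ∧ ∃ t ∈ Icc (0 : ℝ) 1, X a b s = X a z t} with hZ
  have hpa : ∀ s ∈ Icc (0 : ℝ) 1, X a b s = D.pt a → s = 0 := fun s hs h =>
    P.inj a b hab s hs 0 m0 (h.trans zab.symm)
  have hpa' : ∀ s ∈ Icc (0 : ℝ) 1, X a z s = D.pt a → s = 0 := fun s hs h =>
    P.inj a z haz s hs 0 m0 (h.trans zaz.symm)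
  have himg : X a b '' Z = D.crossings s(a, b) s(a, z) := by
    ext w
    constructor
    · rintro ⟨s, ⟨hs, hs0, t, ht, h⟩, rfl⟩
      refine ⟨⟨P.mem hab hs, by rw [h]; exact P.mem haz ht⟩, ?_⟩
      rintro ⟨w, hw⟩
      have : w = a := nov w (by rw [hw]; exact P.mem hab hs) (by rw [hw, h]; exact P.mem haz ht)
      rw [this] at hw
      exact hs0 (hpa s hs hw.symm)
    · rintro ⟨⟨q1, q2⟩, q3⟩
      rw [← P.img a b hab] at q1
      rw [← P.img a z haz] at q2
      obtain ⟨s, hs, rfl⟩ := q1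
      obtain ⟨t, ht, h⟩ := q2
      refine ⟨s, ⟨hs, ?_, t, ht, h.symm⟩, rfl⟩
      rintro rfl
      exact q3 ⟨a, zab.symm⟩
  have hinj : Set.InjOn (X a b) Z := fun s hs t ht h => P.inj a b hab s hs.1 t ht.1 h
  have hfin : Z.Finite := by
    refine Set.Finite.of_finite_image ?_ hinj
    rw [himg]
    exact (D.finite _ hab _ haz hne).subset fun w hw => hw.1
  have t1 := P.θ0 a b hab
  have t2 := P.θ0 a z haz
  obtain ⟨m, hm, hev⟩ := KK_share (P.cont a b hab) (P.cont a z haz) z00 (σ := σ a b)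
    (τ := σ a z) (r := r) (φ := θ a b) (ψ := θ a z) P.rpos (P.σpos a b hab) (P.σlt a b hab)
    (P.σpos a z haz) (P.σlt a z haz) (by rw [zab]; exact P.exit a b hab)
    (by rw [zaz]; exact P.exit a z haz) (by rw [zab]; exact P.disc a b hab)
    (by rw [zaz]; exact P.disc a z haz) t1.1 t1.2 t2.1 t2.2 (P.inj a b hab) (P.inj a z haz)
    (fun s hs => P.mem hab hs) (fun s hs => P.mem haz hs) hfin rfl (by
      intro s hs t ht h
      have n1 := P.mem hab hs
      have n2 := P.mem haz ht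
      by_cases hx : X a b s = D.pt a
      · left
        refine ⟨hpa s hs hx, hpa' t ht (by rw [← h, hx])⟩
      · right
        refine ⟨?_, lt_of_le_of_ne hs.2 ?_, lt_of_le_of_ne ht.2 ?_, ?_⟩
        · rw [zab]
          exact P.far _ hab _ haz hne a _ n1 (by rw [h]; exact n2) hx
        · rintro rfl
          rw [P.one a b hab] at h n1
          rw [← h] at n2
          exact hab.ne (nov b n1 n2).symm
        · rintro rfl
          rw [P.one a z haz] at h n2
          rw [h] at n1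
          exact haz.ne (nov z n1 n2).symm
        · refine D.proper _ hab _ haz hne _ ⟨n1, by rw [h]; exact n2⟩ ?_
          rintro ⟨w, hw⟩
          have := nov w (by rw [hw]; exact n1) (by rw [hw, h]; exact n2)
          rw [this] at hw
          exact hx hw.symm)
  refine ⟨m, ?_, ?_⟩
  · have hF : FF D X σ a b a z = (al (X a b 1) (sub (X a z) 0 1) -
        al (X a b 0) (sub (X a z) (σ a z) 1) - al (X a z 1) (sub (X a b) 0 1) +
        al (X a b 0) (sub (X a b) (σ a b) 1)).im := by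
      unfold FF BB
      rw [if_pos haz, if_neg hab.ne.symm, if_neg hbz, if_pos haz, if_pos rfl, if_pos hab,
        if_neg haz.ne.symm, if_neg hbz.symm, if_pos hab, if_pos rfl,
        P.zero a b hab, P.one a b hab, P.one a z haz]
      simp only [Complex.add_im, Complex.sub_im]
    have hc : corr θ a b a z = - psi (θ a b) (θ a z) := by
      unfold corr
      rw [if_pos rfl, if_neg hab.ne.symm, if_neg haz.ne, if_neg hbz]; ring
    rw [hF, hm, hc]; ring
  · intro h
    rw [← himg, hinj.ncard_image] at h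
    have : Even ((Z.ncard : ℕ) : ℤ) := by exact_mod_cast h
    have h5 := hev.add this
    rwa [sub_add_cancel] at h5

theorem key_all (P : Par D X σ θ r) {a b y z : W} (hab : U.Adj a b) (hyz : U.Adj y z)
    (hne : s(a, b) ≠ s(y, z)) : Key D X σ θ a b y z := by
  by_cases h1 : a = y
  · subst h1
    exact key_share P hab hyz fun h => hne (by rw [h])
  by_cases h2 : a = z
  · subst h2
    exact (key_share P hab hyz.symm fun h => hne (by rw [h, Sym2.eq_swap])).swap' P
  by_cases h3 : b = y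
  · subst h3
    exact (key_share P hab.symm hyz fun h => hne (by rw [h, Sym2.eq_swap])).swap P
  by_cases h4 : b = z
  · subst h4
    refine ((key_share P hab.symm hyz.symm fun h => hne ?_).swap' P).swap P
    rw [h]
  exact key_indep P hab hyz h1 h2 h3 h4

end

/-- the angle data of a drawing -/
theorem exists_angData (D : Drawing U) : ∃ A : AngData W U, ∀ a b y z, U.Adj a b → U.Adj y z →
    s(a, b) ≠ s(y, z) → Even (D.crossings s(a, b) s(y, z)).ncard → Even (A.nn a b y z) := by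
  classical
  obtain ⟨X, σ, θ, r, P⟩ := exists_par D
  have hex : ∀ a b y z, ∃ n : ℤ, (U.Adj a b ∧ U.Adj y z ∧ s(a, b) ≠ s(y, z)) →
      (FF D X σ a b y z = 2 * Real.pi * n + corr θ a b y z ∧
        (Even (D.crossings s(a, b) s(y, z)).ncard → Even n)) := by
    intro a b y z
    by_cases h : U.Adj a b ∧ U.Adj y z ∧ s(a, b) ≠ s(y, z)
    · obtain ⟨n, hn⟩ := key_all P h.1 h.2.1 h.2.2
      exact ⟨n, fun _ => hn⟩
    · exact ⟨0, fun h' => absurd h' h⟩
  choose n hn using hex
  let n' : W → W → W → W → ℤ := fun a b y z =>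
    if U.Adj a b ∧ U.Adj y z ∧ s(a, b) ≠ s(y, z) then n a b y z else 0
  refine ⟨{
    θ := θ
    B := BB D X σ
    nn := n'
    θ0 := P.θ0
    θinj := ?_
    Banti := BB_anti P
    nanti := ?_
    key := ?_ }, ?_⟩
  · intro x y z hxy hxz he
    by_contra hyz
    have hne : s(x, y) ≠ s(x, z) := by
      intro h
      rcases Sym2.eq_iff.1 h with ⟨-, h⟩ | ⟨h, -⟩
      · exact hyz h
      · exact hxz.ne h
    have e1 := P.exit x y hxy
    have e2 := P.exit x z hxz
    rw [← he, ← e1] at e2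
    have m1 := P.mem hxy (t := σ x y) ⟨(P.σpos x y hxy).le, (P.σlt x y hxy).le⟩
    have m2 := P.mem hxz (t := σ x z) ⟨(P.σpos x z hxz).le, (P.σlt x z hxz).le⟩
    rw [e2] at m2
    have hnorm : ‖X x y (σ x y) - D.pt x‖ = r := by
      rw [e1, add_sub_cancel_left, norm_mul, norm_ev, mul_one, Complex.norm_real,
        Real.norm_of_nonneg P.rpos.le]
    have hne2 : X x y (σ x y) ≠ D.pt x := by
      intro h
      rw [h, sub_self, norm_zero] at hnorm
      exact P.rpos.ne hnorm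
    have := P.far _ hxy _ hxz hne x _ m1 m2 hne2
    rw [hnorm] at this
    exact lt_irrefl _ this
  · intro a b y z
    simp only [n']
    by_cases h : U.Adj a b ∧ U.Adj y z ∧ s(a, b) ≠ s(y, z)
    · have h' : U.Adj a b ∧ U.Adj z y ∧ s(a, b) ≠ s(z, y) :=
        ⟨h.1, h.2.1.symm, by rw [Sym2.eq_swap (a := z)]; exact h.2.2⟩
      rw [if_pos h, if_pos h']
      have e1 := (hn a b y z h).1
      have e2 := (hn a b z y h').1
      rw [FF_swap' P, corr_swap', e1] at e2
      have e3 : (2 * Real.pi) * ((n a b z y : ℤ) : ℝ) = (2 * Real.pi) * ((-n a b y z : ℤ) : ℝ) := by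
        push_cast; linarith
      have e4 := mul_left_cancel₀ (by positivity : (2 * Real.pi : ℝ) ≠ 0) e3
      exact_mod_cast e4
    · have h' : ¬ (U.Adj a b ∧ U.Adj z y ∧ s(a, b) ≠ s(z, y)) := by
        rintro ⟨h1, h2, h3⟩
        exact h ⟨h1, h2.symm, by rw [Sym2.eq_swap (a := y)]; exact h3⟩
      rw [if_neg h, if_neg h', neg_zero]
  · intro a b y z hab hyz hne
    have h : U.Adj a b ∧ U.Adj y z ∧ s(a, b) ≠ s(y, z) := ⟨hab, hyz, hne⟩
    have e := (hn a b y z h).1
    simp only [n']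
    rw [if_pos h]
    exact e
  · intro a b y z hab hyz hne hev
    have h : U.Adj a b ∧ U.Adj y z ∧ s(a, b) ≠ s(y, z) := ⟨hab, hyz, hne⟩
    change Even (n' a b y z)
    simp only [n']
    rw [if_pos h]
    exact (hn a b y z h).2 hev

end Pool.Agent.H119.Sefe
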