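import Pool.Agent.H119.Sefe.Plane

/-!
# Building the simultaneous embedding
-/

set_option autoImplicit false

namespace Pool.Agent.H119.Sefe

open Set Complex Topology Filter Pool.Agent.TH510.Sefe

variable {W : Type}

/-- integral circulations -/
structure IsFlow [Fintype W] (H : SimpleGraph W) (ε : W → W → ℤ) : Prop where
  anti : ∀ x y, ε y x = - ε x y
  div : ∀ x, ∑ y, ε x y = 0
  supp : ∀ x y, ε x y ≠ 0 → H.Adj x y

theorem MM_congr {pt : W → ℂ} {H : SimpleGraph W} {arc arc' : Sym2 W → Set ℂ}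
    (ha : ∀ e ∈ H.edgeSet, arc' e = arc e) : MM pt H arc' = MM pt H arc :=
  Set.Subset.antisymm (MM_mono le_rfl fun e he => (ha e he).symm) (MM_mono le_rfl ha)

theorem adj_sup_edge {H : SimpleGraph W} {x y : W} (hxy : x ≠ y) {a b : W} :
    (H ⊔ SimpleGraph.edge x y).Adj a b ↔ H.Adj a b ∨ s(a, b) = s(x, y) := by
  have : s(a, b) ∈ (H ⊔ SimpleGraph.edge x y).edgeSet ↔ s(a, b) ∈ H.edgeSet ∨ s(a, b) = s(x, y) := by
    rw [SimpleGraph.edgeSet_sup, SimpleGraph.edgeSet_edge_of_ne hxy]; rfl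
  exact this

theorem bridge [Fintype W] {H : SimpleGraph W} {x y : W} {ε : W → W → ℤ}
    (h : IsFlow (H ⊔ SimpleGraph.edge x y) ε) (hr : ¬ H.Reachable x y) : ε x y = 0 := by
  classical
  have hxy : x ≠ y := fun he => hr (he ▸ SimpleGraph.Reachable.refl _)
  let S : Finset W := Finset.univ.filter fun z => H.Reachable x z
  have hxS : x ∈ S := Finset.mem_filter.2 ⟨Finset.mem_univ _, SimpleGraph.Reachable.refl _⟩
  have hyS : y ∉ S := fun hy => hr (Finset.mem_filter.1 hy).2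
  have h0 : ∑ a ∈ S, ∑ b, ε a b = 0 := Finset.sum_eq_zero fun a _ => h.div a
  have h1 : ∑ a ∈ S, ∑ b ∈ S, ε a b = 0 := by
    have e : ∑ a ∈ S, ∑ b ∈ S, ε a b = - ∑ a ∈ S, ∑ b ∈ S, ε a b := by
      conv_lhs => rw [Finset.sum_comm]
      rw [← Finset.sum_neg_distrib]
      refine Finset.sum_congr rfl fun b _ => ?_
      rw [← Finset.sum_neg_distrib]
      exact Finset.sum_congr rfl fun a _ => h.anti b a
    omega
  have h2 : ∑ a ∈ S, ∑ b ∈ Sᶜ, ε a b = ε x y := by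
    have hz : ∀ a ∈ S, ∀ b ∈ Sᶜ, ε a b ≠ 0 → a = x ∧ b = y := by
      intro a ha b hb hne
      have hb' : b ∉ S := Finset.mem_compl.1 hb
      have ha' := (Finset.mem_filter.1 ha).2
      rcases (adj_sup_edge hxy).1 (h.supp a b hne) with h3 | h3
      · exact absurd (Finset.mem_filter.2 ⟨Finset.mem_univ _, ha'.trans h3.reachable⟩) hb'
      · rcases Sym2.eq_iff.1 h3 with h4 | ⟨rfl, rfl⟩
        · exact h4
        · exact absurd ha hyS
    rw [Finset.sum_eq_single x, Finset.sum_eq_single y]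
    · intro b hb hby
      by_contra hne
      exact hby (hz x hxS b hb hne).2
    · intro hy
      exact absurd (Finset.mem_compl.2 hyS) hy
    · intro a ha hax
      refine Finset.sum_eq_zero fun b hb => ?_
      by_contra hne
      exact hax (hz a ha b hb hne).1
    · intro hx; exact absurd hxS hx
  have h3 : ∑ a ∈ S, ∑ b, ε a b = ∑ a ∈ S, ∑ b ∈ S, ε a b + ∑ a ∈ S, ∑ b ∈ Sᶜ, ε a b := by
    rw [← Finset.sum_add_distrib]
    exact Finset.sum_congr rfl fun a _ => (Finset.sum_add_sum_compl S _).symm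
  omega

/-- all circulations on `H` vanish outside `E` -/
def VP [Fintype W] (H E : SimpleGraph W) : Prop :=
  ∀ ε : W → W → ℤ, IsFlow H ε → ∀ x y, ε x y ≠ 0 → E.Adj x y

theorem VP.mono [Fintype W] {H H' E : SimpleGraph W} (h : VP H E) (hH : H' ≤ H) : VP H' E :=
  fun ε hε => h ε ⟨hε.anti, hε.div, fun x y hxy => hH (hε.supp x y hxy)⟩

theorem VP.self [Fintype W] (H : SimpleGraph W) : VP H H := fun _ hε => hε.supp

theorem VP.step [Fintype W] {H E : SimpleGraph W} (h : VP H E) {x y : W}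
    (hr : ¬ H.Reachable x y) : VP (H ⊔ SimpleGraph.edge x y) E := by
  have hxy : x ≠ y := fun he => hr (he ▸ SimpleGraph.Reachable.refl _)
  intro ε hε
  have h0 := bridge hε hr
  refine h ε ⟨hε.anti, hε.div, fun a b hab => ?_⟩
  rcases (adj_sup_edge hxy).1 (hε.supp a b hab) with h3 | h3
  · exact h3
  · exfalso
    rcases Sym2.eq_iff.1 h3 with ⟨rfl, rfl⟩ | ⟨rfl, rfl⟩
    · exact hab h0
    · apply hab; rw [hε.anti, h0]; rfl

variable {pt : W → ℂ} {θ : W → W → ℝ} {H : SimpleGraph W} {arc : Sym2 W → Set ℂ}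

theorem Plane.flow [Fintype W] (h : Plane pt θ H arc) (hd : Dirs θ H) {Φ : Set ℂ}
    (hΦ : IsFace (MM pt H arc) Φ) : IsFlow H (eps θ H (cpF pt Φ) (cmF pt Φ)) where
  anti := eps_anti (h.isCirc hd hΦ)
  div x := (eps_sums (h.isCirc hd hΦ) hd.rng hd.inj x).1
  supp x y hxy := by
    by_contra hn
    exact hxy (if_neg hn)

theorem cpF_one {Φ : Set ℂ} {x : W} {φ : ℝ} : cpF pt Φ x φ = 1 ↔ FanP (pt x) φ Φ := by
  unfold cpF; split_ifs with h <;> simp [h]

theorem cmF_one {Φ : Set ℂ} {x : W} {φ : ℝ} : cmF pt Φ x φ = 1 ↔ FanM (pt x) φ Φ := by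
  unfold cmF; split_ifs with h <;> simp [h]

/-- the face containing a free corner -/
theorem exists_face_at {M : Set ℂ} {p : ℂ} {φ : ℝ} (h : Clear p φ M) :
    ∃ Φ, IsFace M Φ ∧ GermIn p φ Φ := by
  obtain ⟨δ, hδ, h⟩ := h
  have hs : Sector p (φ - δ) (φ + δ) δ ⊆ Mᶜ := by
    rintro w ⟨r, t, hr, hrd, h1, h2, rfl⟩
    have := h r (t - φ) hr hrd (by rw [abs_lt]; constructor <;> linarith)
    rwa [show φ + (t - φ) = t by ring] at this
  have fG : GermIn p φ (Sector p (φ - δ) (φ + δ) δ) := ⟨δ, hδ, fun r q1 q2 =>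
    ⟨r, φ, q1, q2, by linarith, by linarith, rfl⟩⟩
  obtain ⟨Φ, h1, h2⟩ := exists_face (sector_preconnected _ _ _ _) hs fG.nonempty
  exact ⟨Φ, h1, fG.mono h2⟩

/-- the two ends of an edge lie in the same face -/
theorem Plane.same [Fintype W] {U : SimpleGraph W} (A : AngData W U) (h : Plane pt A.θ H arc)
    (hH : H ≤ U) {E₀ : SimpleGraph W} (hVP : VP H E₀) {u v : W} (huv : U.Adj u v)
    (hn : ¬ H.Adj u v) (hr : H.Reachable u v)
    (hev : ∀ a b, (s(a, b) = s(u, v) ∨ H.Adj a b) → ∀ y z, H.Adj y z → E₀.Adj y z →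
      s(a, b) ≠ s(y, z) → Even (A.nn a b y z)) :
    Same pt A.θ (MM pt H arc) u v := by
  have hU : Dirs A.θ U := ⟨A.θ0, A.θinj⟩
  have hd := hU.mono hH
  have cu := h.clear_edge hU hH huv hn
  have cv := h.clear_edge hU hH huv.symm (fun hh => hn hh.symm)
  obtain ⟨Φ, hΦ, hg⟩ := exists_face_at cu
  refine ⟨Φ, hΦ.pre, hΦ.sub, hg, ?_⟩
  rw [clear_germ cv hΦ, ← cpF_one]
  have h1 : cpF pt Φ u (A.θ u v) = 1 := cpF_one.2 ((clear_germ cu hΦ).1 hg)
  have h2 := algD A hH (h.isCirc hd hΦ) huv hn hr (by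
    intro a b hab y z hyz hne hs
    refine hev a b hab y z hyz ?_ hs
    refine hVP _ (h.flow hd hΦ) y z ?_
    unfold eps
    rw [if_pos hyz]
    exact sub_ne_zero.2 hne)
  rw [h1] at h2
  by_contra hne
  have h3 : cpF pt Φ v (A.θ v u) = 0 := by
    unfold cpF at hne ⊢
    split_ifs at hne ⊢ with h4
    · exact absurd rfl hne
    · rfl
  rw [h3] at h2
  exact absurd h2 (by decide)

theorem open_compl_comp {M Ψ : Set ℂ} (hM : IsClosed M) (hΨ : IsFace M Ψ) : IsOpen (Mᶜ \ Ψ) := by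
  rw [isOpen_iff_forall_mem_open]
  rintro z ⟨hz, hzn⟩
  refine ⟨connectedComponentIn Mᶜ z, ?_, hM.isOpen_compl.connectedComponentIn,
    mem_connectedComponentIn hz⟩
  intro w hw
  refine ⟨connectedComponentIn_subset _ _ hw, fun hwΨ => hzn ?_⟩
  exact hΨ.absorb isPreconnected_connectedComponentIn (connectedComponentIn_subset _ _)
    ⟨w, hw, hwΨ⟩ (mem_connectedComponentIn hz)

/-- An edge joining two components does not separate its face. -/
theorem ns [Fintype W] {x y : W} {arc' : Sym2 W → Set ℂ}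
    (h' : Plane pt θ (H ⊔ SimpleGraph.edge x y) arc') (hd : Dirs θ (H ⊔ SimpleGraph.edge x y))
    (hold : ∀ e ∈ H.edgeSet, arc' e = arc e) {Φ : Set ℂ} (hΦ : IsFace (MM pt H arc) Φ)
    (hA : arc' s(x, y) \ {pt x, pt y} ⊆ Φ) (hr : ¬ H.Reachable x y) :
    ∃ Ψ, IsPreconnected Ψ ∧ Ψ ⊆ (MM pt (H ⊔ SimpleGraph.edge x y) arc')ᶜ ∧
      Φ \ arc' s(x, y) ⊆ Ψ := by
  have hxy : x ≠ y := fun he => hr (he ▸ SimpleGraph.Reachable.refl _)
  have hadj : (H ⊔ SimpleGraph.edge x y).Adj x y := (adj_sup_edge hxy).2 (Or.inr rfl)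
  obtain ⟨L, R, N, p1, p2, p3, p4, p5, p6, p7, p8, p9, p10, p11⟩ := h'.edge_sides hd hadj
  have hLne : L.Nonempty := (fanP_common p8 p8).mono inter_subset_left
  obtain ⟨Ψ, hΨ, hLΨ⟩ := exists_face p1 p3 hLne
  have hRΨ : R ⊆ Ψ := by
    have h0 := bridge (h'.flow hd hΨ) hr
    unfold eps at h0
    rw [if_pos hadj, (cpF_one.2 (p8.mono hLΨ))] at h0
    have h1 : cmF pt Ψ x (θ x y) = 1 := by omega
    exact hΨ.absorb p2 p4 (fanM_common p9 (cmF_one.1 h1))
  have hMA : ∀ z, z ∈ MM pt (H ⊔ SimpleGraph.edge x y) arc' → z ∈ MM pt H arc ∨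
      z ∈ arc' s(x, y) := by
    rintro z (hz | ⟨e, he, hz⟩)
    · exact Or.inl (Or.inl hz)
    · induction e with
      | _ a b =>
      rcases (adj_sup_edge hxy).1 he with h1 | h1
      · rw [hold _ h1] at hz; exact Or.inl (Or.inr ⟨_, h1, hz⟩)
      · rw [h1] at hz; exact Or.inr hz
  have hAM' : arc' s(x, y) ⊆ MM pt (H ⊔ SimpleGraph.edge x y) arc' := fun z hz =>
    Or.inr ⟨_, hadj, hz⟩
  have hNΨ : N \ arc' s(x, y) ⊆ Ψ := fun z hz => (p7 hz).elim (fun h => hLΨ h) (fun h => hRΨ h)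
  have hsub : Φ ⊆ Ψ ∪ (N ∩ Φ) := by
    have hΦo : IsOpen Φ := hΦ.isOpen (by
      rw [← MM_congr hold]; exact (h'.mono le_sup_left).closed)
    refine hΦ.pre.subset_left_of_subset_union
      (v := (MM pt (H ⊔ SimpleGraph.edge x y) arc')ᶜ \ Ψ)
      ((hΨ.isOpen h'.closed).union (p5.inter hΦo)) (open_compl_comp h'.closed hΨ) ?_ ?_ ?_
    · rw [Set.disjoint_left]
      rintro z (hz | hz) ⟨h1, h2⟩
      · exact h2 hz
      · exact h2 (hNΨ ⟨hz.1, fun h => h1 (hAM' h)⟩)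
    · intro z hz
      by_cases hzΨ : z ∈ Ψ
      · exact Or.inl (Or.inl hzΨ)
      · by_cases hzM : z ∈ MM pt (H ⊔ SimpleGraph.edge x y) arc'
        · have hzM' : z ∉ MM pt H arc := hΦ.sub hz
          have hzA := (hMA z hzM).resolve_left hzM'
          left; right
          refine ⟨p6 ⟨hzA, ?_⟩, hz⟩
          rintro (h | h)
          · exact hzM' (Or.inl ⟨x, h.symm⟩)
          · exact hzM' (Or.inl ⟨y, (Set.mem_singleton_iff.1 h).symm⟩)
        · exact Or.inr ⟨hzM, hzΨ⟩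
    · -- a point of the arc
      obtain ⟨δ, hδ, hg⟩ := Metric.eventually_nhds_iff.1 ((h'.pa x y hadj).germ)
      have hne : pt x ≠ pt y := fun hh => hxy (h'.inj hh)
      have hpos : 0 < ‖pt y - pt x‖ := norm_pos_iff.2 (sub_ne_zero.2 hne.symm)
      set r := min δ ‖pt y - pt x‖ / 2 with hr'
      have hrpos : 0 < r := by positivity
      have hrδ : r < δ := by
        have := min_le_left δ ‖pt y - pt x‖; rw [hr']; linarith [lt_min hδ hpos]
      have hrn : r < ‖pt y - pt x‖ := by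
        have := min_le_right δ ‖pt y - pt x‖; rw [hr']; linarith [lt_min hδ hpos]
      have hR : Ray (pt x) (pt x + r * ev (θ x y)) (θ x y) := ⟨r, hrpos, rfl⟩
      have hmem : pt x + r * ev (θ x y) ∈ arc' s(x, y) :=
        (hg (by rw [dist_ev hrpos]; exact hrδ)).2 (Or.inr hR)
      have hmem2 : pt x + r * ev (θ x y) ∈ arc' s(x, y) \ {pt x, pt y} := by
        refine ⟨hmem, ?_⟩
        rintro (h | h)
        · exact hR.ne h.symm
        · have h : pt x + r * ev (θ x y) = pt y := h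
          rw [← h, add_sub_cancel_left, norm_mul, norm_ev, mul_one, Complex.norm_real,
            Real.norm_of_nonneg hrpos.le] at hrn
          exact lt_irrefl _ hrn
      exact ⟨_, hA hmem2, Or.inr ⟨p6 hmem2, hA hmem2⟩⟩
  refine ⟨Ψ, hΨ.pre, hΨ.sub, ?_⟩
  rintro z ⟨hz, hzA⟩
  rcases hsub hz with h | h
  · exact h
  · exact hNΨ ⟨h.1, hzA⟩

/-- every missing edge of `E` has both ends in one face -/
def QQ (pt : W → ℂ) (θ : W → W → ℝ) (H E : SimpleGraph W) (arc : Sym2 W → Set ℂ) : Prop :=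
  ∀ u v, E.Adj u v → ¬ H.Adj u v → Same pt θ (MM pt H arc) u v

theorem q_step [Fintype W] {U E : SimpleGraph W} (hU : Dirs θ U) (hE : E ≤ U) (hH : H ≤ U)
    (h : Plane pt θ H arc) (hQ : QQ pt θ H E arc) {x y : W} (hxy : E.Adj x y)
    (hr : ¬ H.Reachable x y) :
    ∃ arc', Plane pt θ (H ⊔ SimpleGraph.edge x y) arc' ∧ (∀ e ∈ H.edgeSet, arc' e = arc e) ∧
      QQ pt θ (H ⊔ SimpleGraph.edge x y) E arc' := by
  have hne : x ≠ y := hxy.ne
  have hn : ¬ H.Adj x y := fun hh => hr hh.reachable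
  obtain ⟨Ψ₀, a1, a2, a3, a4⟩ := hQ x y hxy hn
  obtain ⟨Φ, hΦ, hsub⟩ := exists_face a1 a2 a3.nonempty
  obtain ⟨arc', h', hold, hA⟩ := h.add hΦ hne hn (a3.mono hsub) (a4.mono hsub)
  have hH' : H ⊔ SimpleGraph.edge x y ≤ U := by
    intro a b hab
    rcases (adj_sup_edge hne).1 hab with h1 | h1
    · exact hH h1
    · have : s(a, b) ∈ U.edgeSet := by rw [h1]; exact hE hxy
      exact this
  obtain ⟨Ψ, b1, b2, b3⟩ := ns h' (hU.mono hH') hold hΦ hA hr
  refine ⟨arc', h', hold, fun u v huv hnuv => ?_⟩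
  have hnuv' : ¬ H.Adj u v := fun hh => hnuv ((adj_sup_edge hne).2 (Or.inl hh))
  have cu := (h'.clear_edge hU hH' (hE huv) hnuv).germIn
  have cv := (h'.clear_edge hU hH' (hE huv).symm (fun hh => hnuv hh.symm)).germIn
  obtain ⟨Ψ₁, c1, c2, c3, c4⟩ := hQ u v huv hnuv'
  obtain ⟨Φ₁, hΦ₁, hsub₁⟩ := exists_face c1 c2 c3.nonempty
  have hadj : (H ⊔ SimpleGraph.edge x y).Adj x y := (adj_sup_edge hne).2 (Or.inr rfl)
  by_cases hint : (Φ₁ ∩ Φ).Nonempty
  · have hs1 : Φ₁ ⊆ Φ := hΦ.absorb hΦ₁.pre hΦ₁.sub hint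
    have key : ∀ {p : ℂ} {φ : ℝ}, GermIn p φ Ψ₁ →
        GermIn p φ (MM pt (H ⊔ SimpleGraph.edge x y) arc')ᶜ → GermIn p φ Ψ := by
      intro p φ g1 g2
      refine (g1.inter g2).mono ?_
      rintro z ⟨hz1, hz2⟩
      exact b3 ⟨hs1 (hsub₁ hz1), fun hzA => hz2 (Or.inr ⟨_, hadj, hzA⟩)⟩
    exact ⟨Ψ, b1, b2, key c3 cu, key c4 cv⟩
  · refine ⟨Φ₁, hΦ₁.pre, ?_, c3.mono hsub₁, c4.mono hsub₁⟩
    rintro z hz (hzM | ⟨e, he, hze⟩)
    · exact hΦ₁.sub hz (Or.inl hzM)
    · induction e with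
      | _ a b =>
      rcases (adj_sup_edge hne).1 he with h1 | h1
      · rw [hold _ h1] at hze
        exact hΦ₁.sub hz (Or.inr ⟨_, h1, hze⟩)
      · rw [h1] at hze
        by_cases hzp : z = pt x ∨ z = pt y
        · rcases hzp with rfl | rfl
          · exact hΦ₁.sub hz (Or.inl ⟨x, rfl⟩)
          · exact hΦ₁.sub hz (Or.inl ⟨y, rfl⟩)
        · exact hint ⟨z, hz, hA ⟨hze, fun hh => hzp (by rcases hh with h | h; exacts [Or.inl h, Or.inr h])⟩⟩

theorem card_lt [Finite W] {H E : SimpleGraph W} {x y : W} (hxy : E.Adj x y)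
    (hn : ¬ H.Adj x y) : (E.edgeSet \ (H ⊔ SimpleGraph.edge x y).edgeSet).ncard <
      (E.edgeSet \ H.edgeSet).ncard := by
  apply Set.ncard_lt_ncard _ (Set.toFinite _)
  constructor
  · intro e he
    exact ⟨he.1, fun h => he.2 (SimpleGraph.edgeSet_mono le_sup_left h)⟩
  · intro h
    have h1 : s(x, y) ∈ E.edgeSet \ H.edgeSet := ⟨hxy, hn⟩
    exact (h h1).2 ((adj_sup_edge hxy.ne).2 (Or.inr rfl))

theorem sup_edge_le {H E : SimpleGraph W} {x y : W} (hH : H ≤ E) (hxy : E.Adj x y) :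
    H ⊔ SimpleGraph.edge x y ≤ E := by
  intro a b hab
  rcases (adj_sup_edge hxy.ne).1 hab with h1 | h1
  · exact hH h1
  · have : s(a, b) ∈ E.edgeSet := by rw [h1]; exact hxy
    exact this

/-- adding edges between different components -/
theorem grow [Finite W] (E : SimpleGraph W) (P : SimpleGraph W → Prop)
    (hP : ∀ H, H ≤ E → P H → ∀ x y, E.Adj x y → ¬ H.Reachable x y → P (H ⊔ SimpleGraph.edge x y)) :
    ∀ H, H ≤ E → P H → ∃ H', H ≤ H' ∧ H' ≤ E ∧ P H' ∧ ∀ x y, E.Adj x y → H'.Reachable x y := by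
  have key : ∀ n : ℕ, ∀ H, (E.edgeSet \ H.edgeSet).ncard = n → H ≤ E → P H →
      ∃ H', H ≤ H' ∧ H' ≤ E ∧ P H' ∧ ∀ x y, E.Adj x y → H'.Reachable x y := by
    intro n
    induction n using Nat.strong_induction_on with
    | _ n ih =>
      intro H hn hH hPH
      by_cases hex : ∃ x y, E.Adj x y ∧ ¬ H.Reachable x y
      · obtain ⟨x, y, hxy, hr⟩ := hex
        obtain ⟨H', h1, h2, h3, h4⟩ := ih _ (by
          rw [← hn]; exact card_lt hxy fun hh => hr hh.reachable) (H ⊔ SimpleGraph.edge x y) rfl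
          (sup_edge_le hH hxy) (hP H hH hPH x y hxy hr)
        exact ⟨H', le_sup_left.trans h1, h2, h3, h4⟩
      · push Not at hex
        exact ⟨H, le_rfl, hH, hPH, hex⟩
  exact fun H hH hPH => key _ H rfl hH hPH

/-- adding all edges -/
theorem fill [Finite W] (E : SimpleGraph W) (P : SimpleGraph W → Prop)
    (hP : ∀ H, H ≤ E → P H → ∀ x y, E.Adj x y → ¬ H.Adj x y → P (H ⊔ SimpleGraph.edge x y)) :
    ∀ H, H ≤ E → P H → P E := by
  have key : ∀ n : ℕ, ∀ H, (E.edgeSet \ H.edgeSet).ncard = n → H ≤ E → P H → P E := by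
    intro n
    induction n using Nat.strong_induction_on with
    | _ n ih =>
      intro H hn hH hPH
      by_cases hex : ∃ x y, E.Adj x y ∧ ¬ H.Adj x y
      · obtain ⟨x, y, hxy, hr⟩ := hex
        exact ih _ (by rw [← hn]; exact card_lt hxy hr) (H ⊔ SimpleGraph.edge x y) rfl
          (sup_edge_le hH hxy) (hP H hH hPH x y hxy hr)
      · push Not at hex
        have : H = E := le_antisymm hH (fun x y hxy => hex x y hxy)
        rw [← this]; exact hPH
  exact fun H hH hPH => key _ H rfl hH hPH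

/-- drawing the missing edges when the components do not change -/
theorem saturate [Fintype W] {U : SimpleGraph W} (A : AngData W U) {E E₀ H₀ : SimpleGraph W}
    (hE : E ≤ U) (hH₀ : H₀ ≤ E) {arc₀ : Sym2 W → Set ℂ} (h₀ : Plane pt A.θ H₀ arc₀)
    (hreach : ∀ x y, E.Adj x y → H₀.Reachable x y) (hVP : VP E E₀)
    (hev : ∀ a b y z, E.Adj a b → E.Adj y z → E₀.Adj y z → s(a, b) ≠ s(y, z) →
      Even (A.nn a b y z)) :
    ∃ arc, Plane pt A.θ E arc ∧ ∀ e ∈ H₀.edgeSet, arc e = arc₀ e := by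
  have hU : Dirs A.θ U := ⟨A.θ0, A.θinj⟩
  have := fill E (fun H => H₀ ≤ H ∧ ∃ arc, Plane pt A.θ H arc ∧ ∀ e ∈ H₀.edgeSet, arc e = arc₀ e)
    (by
      rintro H hHE ⟨hH, arc, h, hag⟩ x y hxy hn
      refine ⟨hH.trans le_sup_left, ?_⟩
      obtain ⟨Ψ₀, a1, a2, a3, a4⟩ := h.same A (hHE.trans hE) (hVP.mono hHE) (hE hxy) hn
        ((hreach x y hxy).mono hH) (by
          intro a b hab y' z' hyz h0 hs
          refine hev a b y' z' ?_ (hHE hyz) h0 hs
          rcases hab with hab | hab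
          · have : s(a, b) ∈ E.edgeSet := by rw [hab]; exact hxy
            exact this
          · exact hHE hab)
      obtain ⟨Φ, hΦ, hsub⟩ := exists_face a1 a2 a3.nonempty
      obtain ⟨arc', h', hold, hA⟩ := h.add hΦ hxy.ne hn (a3.mono hsub) (a4.mono hsub)
      refine ⟨arc', h', fun e he => ?_⟩
      rw [hold e (SimpleGraph.edgeSet_mono hH he)]
      exact hag e he)
    H₀ hH₀ ⟨le_rfl, arc₀, h₀, fun _ _ => rfl⟩
  exact this.2

theorem reach_of {A B : SimpleGraph W} (h : ∀ x y, A.Adj x y → B.Reachable x y) {x y : W}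
    (hr : A.Reachable x y) : B.Reachable x y := by
  obtain ⟨p⟩ := hr
  induction p with
  | nil => exact SimpleGraph.Reachable.refl _
  | cons hab _ ih => exact (h _ _ hab).trans ih

/-- the open arc -/
theorem arc_same {A : Set ℂ} {u v : ℂ} {α β : ℝ} (hA : PA u v α β A) :
    IsPreconnected (A \ {u, v}) ∧ GermIn u α (A \ {u, v}) := by
  constructor
  · obtain ⟨γ, hγ, rfl⟩ := hA.isArc
    have : Set.range γ \ {u, v} = γ '' {t | t ≠ 0 ∧ t ≠ 1} := by
      ext z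
      constructor
      · rintro ⟨⟨t, rfl⟩, hn⟩
        refine ⟨t, ⟨?_, ?_⟩, rfl⟩
        · rintro rfl; exact hn (Or.inl γ.source)
        · rintro rfl; exact hn (Or.inr γ.target)
      · rintro ⟨t, ⟨h0, h1⟩, rfl⟩
        refine ⟨⟨t, rfl⟩, ?_⟩
        rintro (h | h)
        · exact h0 (hγ (h.trans γ.source.symm))
        · exact h1 (hγ (Eq.trans h γ.target.symm))
    rw [this]
    have h2 : IsPreconnected {t : unitInterval | t ≠ 0 ∧ t ≠ 1} := by
      have : {t : unitInterval | t ≠ 0 ∧ t ≠ 1} = Ioo 0 1 := by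
        ext t
        constructor
        · rintro ⟨h0, h1⟩
          exact ⟨lt_of_le_of_ne unitInterval.nonneg' (Ne.symm h0),
            lt_of_le_of_ne unitInterval.le_one' h1⟩
        · rintro ⟨h0, h1⟩
          exact ⟨h0.ne', h1.ne⟩
      rw [this]
      exact isPreconnected_Ioo
    exact h2.image γ γ.continuous.continuousOn
  · obtain ⟨δ, hδ, hg⟩ := Metric.eventually_nhds_iff.1 hA.germ
    have hpos : 0 < ‖v - u‖ := norm_pos_iff.2 (sub_ne_zero.2 hA.ne.symm)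
    refine ⟨min δ ‖v - u‖, lt_min hδ hpos, fun r hr hrd => ?_⟩
    have hR : Ray u (u + r * ev α) α := ⟨r, hr, rfl⟩
    refine ⟨(hg (by rw [dist_ev hr]; exact hrd.trans_le (min_le_left _ _))).2 (Or.inr hR), ?_⟩
    rintro (h | h)
    · exact hR.ne h.symm
    · have h : u + r * ev α = v := h
      have h2 := hrd.trans_le (min_le_right δ ‖v - u‖)
      rw [← h, add_sub_cancel_left, norm_mul, norm_ev, mul_one, Complex.norm_real,
        Real.norm_of_nonneg hr.le] at h2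
      exact lt_irrefl _ h2

/-- the start -/
theorem start [Fintype W] {U : SimpleGraph W} (hU : Dirs θ U) (hpt : Function.Injective pt) :
    Plane pt θ ⊥ (fun _ => ∅) ∧ QQ pt θ ⊥ U (fun _ => ∅) := by
  have h : Plane pt θ ⊥ (fun _ => ∅) := ⟨hpt, fun x y hxy => absurd hxy (by simp),
    fun e he => absurd he (by simp), fun e he => absurd he (by simp)⟩
  refine ⟨h, fun u v huv hn => ?_⟩
  have cu := (h.clear_edge hU bot_le huv hn).germIn
  have cv := (h.clear_edge hU bot_le huv.symm (fun hh => hn hh.symm)).germIn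
  refine ⟨_, ?_, subset_rfl, cu, cv⟩
  have hM : MM pt (⊥ : SimpleGraph W) (fun _ => ∅) = Set.range pt := by
    unfold MM; simp
  rw [hM]
  have hc : (Set.range pt).Countable := (Set.finite_range pt).countable
  have := (hc.isPathConnected_compl_of_one_lt_rank (by rw [Complex.rank_real_complex]; norm_num))
  exact this.isConnected.isPreconnected

/-- the main construction -/
theorem glue [Fintype W] {U G g₁ g₂ : SimpleGraph W} (A : AngData W U)
    (hpt : Function.Injective pt) (hU : U = g₁ ⊔ g₂) (hG : G = g₁ ⊓ g₂)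
    (hev₁ : ∀ a b y z, g₁.Adj a b → g₁.Adj y z → s(a, b) ≠ s(y, z) → Even (A.nn a b y z))
    (hev₂ : ∀ a b y z, g₂.Adj a b → g₂.Adj y z → s(a, b) ≠ s(y, z) → Even (A.nn a b y z)) :
    ∃ arc₁ arc₂, Plane pt A.θ g₁ arc₁ ∧ Plane pt A.θ g₂ arc₂ ∧
      ∀ e ∈ G.edgeSet, arc₁ e = arc₂ e := by
  have hd : Dirs A.θ U := ⟨A.θ0, A.θinj⟩
  have h1U : g₁ ≤ U := by rw [hU]; exact le_sup_left
  have h2U : g₂ ≤ U := by rw [hU]; exact le_sup_right
  have hG1 : G ≤ g₁ := by rw [hG]; exact inf_le_left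
  have hG2 : G ≤ g₂ := by rw [hG]; exact inf_le_right
  have hGU := hG1.trans h1U
  have hevG : ∀ a b y z, U.Adj a b → G.Adj y z → s(a, b) ≠ s(y, z) → Even (A.nn a b y z) := by
    intro a b y z hab hyz hs
    rw [hU] at hab
    rcases hab with hab | hab
    · exact hev₁ a b y z hab (hG1 hyz) hs
    · exact hev₂ a b y z hab (hG2 hyz) hs
  -- a spanning forest of the shared graph
  obtain ⟨s1, s2⟩ := start (pt := pt) hd hpt
  obtain ⟨K₀, -, hK₀G, ⟨arcK, pK, qK⟩, rK₀⟩ := grow G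
    (fun H => ∃ arc, Plane pt A.θ H arc ∧ QQ pt A.θ H U arc) (by
      rintro H hH ⟨arc, h1, h2⟩ x y hxy hr
      obtain ⟨arc', k1, -, k3⟩ := q_step hd le_rfl (hH.trans hGU) h1 h2 (hGU hxy) hr
      exact ⟨arc', k1, k3⟩) ⊥ bot_le ⟨_, s1, s2⟩
  -- growing further
  have step : ∀ E : SimpleGraph W, E ≤ U → ∀ H, H ≤ E →
      (K₀ ≤ H ∧ VP (G ⊔ H) G ∧ ∃ arc, Plane pt A.θ H arc ∧ QQ pt A.θ H U arc) →
      ∀ x y, E.Adj x y → ¬ H.Reachable x y →
      (K₀ ≤ H ⊔ SimpleGraph.edge x y ∧ VP (G ⊔ (H ⊔ SimpleGraph.edge x y)) G ∧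
        ∃ arc, Plane pt A.θ (H ⊔ SimpleGraph.edge x y) arc ∧
          QQ pt A.θ (H ⊔ SimpleGraph.edge x y) U arc) := by
    rintro E hE H hH ⟨hK, hV, arc, h1, h2⟩ x y hxy hr
    obtain ⟨arc', k1, -, k3⟩ := q_step hd le_rfl (hH.trans hE) h1 h2 (hE hxy) hr
    refine ⟨hK.trans le_sup_left, ?_, arc', k1, k3⟩
    rw [← sup_assoc]
    refine hV.step fun hr' => hr (reach_of ?_ hr')
    intro a b hab
    rcases hab with hab | hab
    · exact (rK₀ a b hab).mono hK
    · exact hab.reachable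
  obtain ⟨K₁, hK₀₁, hK₁, P₁, rK₁⟩ := grow g₁ _ (step g₁ h1U) K₀ (hK₀G.trans hG1)
    ⟨le_rfl, by rw [sup_eq_left.2 hK₀G]; exact VP.self G, arcK, pK, qK⟩
  obtain ⟨K, hK₁K, hKU, ⟨hK₀K, hVK, arcK', pK', qK'⟩, rK⟩ := grow U _ (step U le_rfl) K₁
    (hK₁.trans h1U) P₁
  -- the skeleton
  obtain ⟨arcT, pT, aT⟩ := saturate A (E := G ⊔ K) (E₀ := G) (sup_le hGU hKU) le_sup_right pK'
    (fun x y hxy => rK x y (sup_le hGU hKU hxy)) hVK
    (fun a b y z hab _ hyz hs => hevG a b y z (sup_le hGU hKU hab) hyz hs)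
  have qT : QQ pt A.θ (G ⊔ K) U arcT := by
    intro u v huv hn
    refine pT.same A (sup_le hGU hKU) hVK huv hn ((rK u v huv).mono le_sup_right) ?_
    intro a b hab y z hyz h0 hs
    refine hevG a b y z ?_ h0 hs
    rcases hab with hab | hab
    · have : s(a, b) ∈ U.edgeSet := by rw [hab]; exact huv
      exact this
    · exact sup_le hGU hKU hab
  -- the first graph
  obtain ⟨arc₁, p₁, a₁⟩ := saturate A (E := g₁) (E₀ := g₁) h1U (sup_le hG1 hK₁)
    (pT.mono (sup_le_sup_left hK₁K G)) (fun x y hxy => (rK₁ x y hxy).mono le_sup_right)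
    (VP.self g₁) (fun a b y z hab hyz _ hs => hev₁ a b y z hab hyz hs)
  -- the shared graph
  have pG : Plane pt A.θ G arcT := pT.mono le_sup_left
  have qG : QQ pt A.θ G g₂ arcT := by
    intro u v huv hn
    by_cases hT : (G ⊔ K).Adj u v
    · have hPA := pT.pa u v hT
      obtain ⟨c1, c2⟩ := arc_same hPA
      obtain ⟨-, c3⟩ := arc_same hPA.rev
      refine ⟨_, c1, ?_, c2, ?_⟩
      · rintro z ⟨hz, hzn⟩ (⟨w, rfl⟩ | ⟨e, he, hze⟩)
        · have := pT.avoid _ hT w hz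
          rw [Sym2.mem_iff] at this
          rcases this with rfl | rfl
          · exact hzn (Or.inl rfl)
          · exact hzn (Or.inr rfl)
        · have hne : s(u, v) ≠ e := by rintro rfl; exact hn he
          obtain ⟨w, rfl⟩ := pT.meet _ hT e (SimpleGraph.edgeSet_mono le_sup_left he) hne z hz hze
          have := pT.avoid _ hT w hz
          rw [Sym2.mem_iff] at this
          rcases this with rfl | rfl
          · exact hzn (Or.inl rfl)
          · exact hzn (Or.inr rfl)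
      · rw [Set.pair_comm]; exact c3
    · obtain ⟨Ψ, c1, c2, c3, c4⟩ := qT u v (h2U huv) hT
      exact ⟨Ψ, c1, c2.trans (compl_subset_compl.2 (MM_mono le_sup_left fun _ _ => rfl)), c3, c4⟩
  -- growing within the second graph
  obtain ⟨K₂, hGK₂, hK₂, ⟨arcF, pF, aF, qF⟩, rK₂⟩ := grow g₂
    (fun H => ∃ arc, Plane pt A.θ H arc ∧ (G ≤ H ∧ ∀ e ∈ G.edgeSet, arc e = arcT e) ∧
      QQ pt A.θ H g₂ arc) (by
      rintro H hH ⟨arc, h1, ⟨h2, h2'⟩, h3⟩ x y hxy hr
      obtain ⟨arc', k1, k2, k3⟩ := q_step hd h2U (hH.trans h2U) h1 h3 hxy hr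
      refine ⟨arc', k1, ⟨h2.trans le_sup_left, fun e he => ?_⟩, k3⟩
      rw [k2 e (SimpleGraph.edgeSet_mono h2 he)]
      exact h2' e he) G hG2 ⟨arcT, pG, ⟨le_rfl, fun _ _ => rfl⟩, qG⟩
  obtain ⟨arc₂, p₂, a₂⟩ := saturate A (E := g₂) (E₀ := g₂) h2U hK₂ pF rK₂
    (VP.self g₂) (fun a b y z hab hyz _ hs => hev₂ a b y z hab hyz hs)
  refine ⟨arc₁, arc₂, p₁, p₂, fun e he => ?_⟩
  rw [a₁ e (SimpleGraph.edgeSet_mono le_sup_left he), a₂ e (SimpleGraph.edgeSet_mono hGK₂ he),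
    aF.2 e he]

end Pool.Agent.H119.Sefe
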