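import Pool.Agent.H119.Sefe.Defs
import Pool.Agent.H119.Sefe.Glue
import Pool.Agent.H119.Sefe.Draw

/-!
# The Hanani-Tutte theorem for simultaneous embeddings with fixed edges
-/

set_option autoImplicit false

namespace Pool.Agent.H119.Sefe

open Set Pool.Agent.H119.SefeDefs

variable {V : Type}

/-- from a plane drawing on a vertex subtype to a planar drawing -/
theorem build {S : Set V} (hS : S.Finite) {G : (⊤ : SimpleGraph V).Subgraph} (hG : G.verts ⊆ S)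
    {g : SimpleGraph S} (hg : ∀ x y : S, g.Adj x y ↔ G.Adj x y) {pt : V → ℂ}
    {θ : S → S → ℝ} {arc : Sym2 S → Set ℂ} (h : Plane (fun x : S => pt x) θ g arc) :
    ∃ D : Drawing G, D.Planar ∧ D.pt = pt ∧
      ∀ e : Sym2 S, D.arc (e.map Subtype.val) = arc e := by
  have : Finite S := hS
  let arc' : Sym2 V → Set ℂ := fun e => {z | ∃ e' : Sym2 S, e'.map Subtype.val = e ∧ z ∈ arc e'}
  have harc : ∀ e : Sym2 S, arc' (e.map Subtype.val) = arc e := by
    intro e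
    ext z
    constructor
    · rintro ⟨e', h1, h2⟩
      rw [Sym2.map.injective Subtype.val_injective h1] at h2
      exact h2
    · intro hz; exact ⟨e, rfl, hz⟩
  have hlift : ∀ e ∈ G.edgeSet, ∃ e' : Sym2 S, e' ∈ g.edgeSet ∧ e'.map Subtype.val = e := by
    intro e he
    induction e with
    | _ u v =>
    have huv : G.Adj u v := he
    have hu : u ∈ S := hG (G.edge_vert huv)
    have hv : v ∈ S := hG (G.edge_vert huv.symm)
    exact ⟨s(⟨u, hu⟩, ⟨v, hv⟩), (hg _ _).2 huv, rfl⟩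
  have hmeet : ∀ e ∈ G.edgeSet, ∀ f ∈ G.edgeSet, e ≠ f → ∀ z ∈ arc' e ∩ arc' f,
      z ∈ pt '' G.verts := by
    intro e he f hf hef z hz
    obtain ⟨e', he', rfl⟩ := hlift e he
    obtain ⟨f', hf', rfl⟩ := hlift f hf
    rw [harc, harc] at hz
    obtain ⟨w, rfl⟩ := h.meet e' he' f' hf' (fun hh => hef (by rw [hh])) z hz.1 hz.2
    have hw := h.avoid e' he' w hz.1
    refine ⟨w, ?_, rfl⟩
    obtain ⟨y, rfl⟩ := Sym2.mem_iff_exists.1 hw
    exact G.edge_vert ((hg _ _).1 he')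
  refine ⟨{
    pt := pt
    arc := arc'
    pt_inj := ?_
    isArc := ?_
    avoid := ?_
    finite := ?_
    proper := ?_ }, ?_, rfl, harc⟩
  · intro x hx y hy hxy
    have := h.inj (a₁ := ⟨x, hG hx⟩) (a₂ := ⟨y, hG hy⟩) hxy
    exact congrArg Subtype.val this
  · intro u v huv
    have hu : u ∈ S := hG (G.edge_vert huv)
    have hv : v ∈ S := hG (G.edge_vert huv.symm)
    have h1 := (h.pa ⟨u, hu⟩ ⟨v, hv⟩ ((hg _ _).2 huv)).isArc
    have h2 := harc s(⟨u, hu⟩, ⟨v, hv⟩)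
    rw [← h2] at h1
    exact h1
  · intro e he w hw hmem
    obtain ⟨e', he', rfl⟩ := hlift e he
    rw [harc] at hmem
    exact Sym2.mem_map.2 ⟨⟨w, hG hw⟩, h.avoid e' he' ⟨w, hG hw⟩ hmem, rfl⟩
  · intro e he f hf hef
    exact ((hS.subset hG).image pt).subset fun z hz => hmeet e he f hf hef z hz
  · intro e he f hf hef z hz hn
    exact absurd (hmeet e he f hf hef z hz) hn
  · intro e he f hf hef
    rw [Set.eq_empty_iff_forall_notMem]
    rintro z ⟨hz, hn⟩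
    exact hn (hmeet e he f hf hef z hz)

/-- the main theorem -/
theorem sefe (G₁ G₂ : (⊤ : SimpleGraph V).Subgraph) (h₁ : G₁.verts.Finite)
    (h₂ : G₂.verts.Finite) (D : Drawing (G₁ ⊔ G₂)) (hD : D.OddAdmissible) :
    AdmitsSEFE G₁ G₂ := by
  classical
  set S : Set V := (G₁ ⊔ G₂).verts with hS
  have hSf : S.Finite := by
    rw [hS, SimpleGraph.Subgraph.verts_sup]; exact h₁.union h₂
  have : Finite S := hSf
  have : Fintype S := Fintype.ofFinite S
  have hG1 : G₁.verts ⊆ S := by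
    rw [hS, SimpleGraph.Subgraph.verts_sup]; exact subset_union_left
  have hG2 : G₂.verts ⊆ S := by
    rw [hS, SimpleGraph.Subgraph.verts_sup]; exact subset_union_right
  let g₁ : SimpleGraph S := ⟨fun x y => G₁.Adj x y, ⟨fun x y h => SimpleGraph.Subgraph.Adj.symm h⟩,
    ⟨fun x h => (G₁.adj_sub h).ne rfl⟩⟩
  let g₂ : SimpleGraph S := ⟨fun x y => G₂.Adj x y, ⟨fun x y h => SimpleGraph.Subgraph.Adj.symm h⟩,
    ⟨fun x h => (G₂.adj_sub h).ne rfl⟩⟩
  have hadj : ∀ x y : S, (g₁ ⊔ g₂).Adj x y ↔ (G₁ ⊔ G₂).Adj x y := fun x y => Iff.rfl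
  have hedge : ∀ e : Sym2 S, e ∈ (g₁ ⊔ g₂).edgeSet → e.map Subtype.val ∈ (G₁ ⊔ G₂).edgeSet := by
    intro e he
    induction e with
    | _ x y => exact he
  have hne : ∀ {e f : Sym2 S}, e ≠ f → e.map Subtype.val ≠ f.map Subtype.val :=
    fun hef h => hef (Sym2.map.injective Subtype.val_injective h)
  have hrange : (Set.range fun x : S => D.pt x) = D.pt '' S := by
    ext z; simp
  let D' : Pool.Agent.TH510.Sefe.Drawing (g₁ ⊔ g₂) :=
    { pt := fun x => D.pt x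
      arc := fun e => D.arc (e.map Subtype.val)
      pt_inj := fun x y hxy => Subtype.ext (D.pt_inj x.2 y.2 hxy)
      isArc := fun x y hxy => D.isArc x y hxy
      avoid := by
        intro e he w hw
        have := D.avoid _ (hedge e he) w w.2 hw
        obtain ⟨a, ha, hb⟩ := Sym2.mem_map.1 this
        rwa [← Subtype.ext hb]
      finite := fun e he f hf hef => D.finite _ (hedge e he) _ (hedge f hf) (hne hef)
      proper := by
        intro e he f hf hef z hz hn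
        exact D.proper _ (hedge e he) _ (hedge f hf) (hne hef) z hz (by
          rw [← hS, ← hrange]; exact hn) }
  have hcross : ∀ e f : Sym2 S, D'.crossings e f =
      D.crossings (e.map Subtype.val) (f.map Subtype.val) := by
    intro e f
    unfold Pool.Agent.TH510.Sefe.Drawing.crossings Drawing.crossings
    rw [← hS, ← hrange]
  obtain ⟨A, hA⟩ := exists_angData D'
  have hev : ∀ a b y z : S, (g₁ ⊔ g₂).Adj a b → (g₁ ⊔ g₂).Adj y z → s(a, b) ≠ s(y, z) →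
      ((G₁.Adj a b ∧ G₁.Adj y z) ∨ (G₂.Adj a b ∧ G₂.Adj y z)) → Even (A.nn a b y z) := by
    intro a b y z hab hyz hne' hcase
    refine hA a b y z hab hyz hne' ?_
    rw [← Nat.not_odd_iff_even, hcross]
    intro hodd
    have := hD _ (hedge _ hab) _ (hedge _ hyz) (hne hne') hodd
    rcases this with ⟨⟨p1, p2⟩, ⟨p3, p4⟩⟩ | ⟨⟨p1, p2⟩, ⟨p3, p4⟩⟩
    · rcases hcase with ⟨q1, q2⟩ | ⟨q1, q2⟩
      · exact p4 ⟨q2, p3⟩
      · exact p2 ⟨p1, q1⟩
    · rcases hcase with ⟨q1, q2⟩ | ⟨q1, q2⟩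
      · exact p2 ⟨q1, p1⟩
      · exact p4 ⟨p3, q2⟩
  obtain ⟨arc₁, arc₂, P₁, P₂, hag⟩ := glue (pt := fun x : S => D.pt x) (G := g₁ ⊓ g₂) A
    D'.pt_inj rfl rfl
    (fun a b y z hab hyz hs => hev a b y z (Or.inl hab) (Or.inl hyz) hs (Or.inl ⟨hab, hyz⟩))
    (fun a b y z hab hyz hs => hev a b y z (Or.inr hab) (Or.inr hyz) hs (Or.inr ⟨hab, hyz⟩))
  obtain ⟨D₁, pl₁, pt₁, ar₁⟩ := build hSf hG1 (g := g₁) (fun x y => Iff.rfl) P₁
  obtain ⟨D₂, pl₂, pt₂, ar₂⟩ := build hSf hG2 (g := g₂) (fun x y => Iff.rfl) P₂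
  refine ⟨D₁, D₂, pl₁, pl₂, fun v _ => by rw [pt₁, pt₂], fun e he => ?_⟩
  induction e with
  | _ u v =>
  have huv : (G₁ ⊓ G₂).Adj u v := he
  have hu : u ∈ S := hG1 (G₁.edge_vert huv.1)
  have hv : v ∈ S := hG1 (G₁.edge_vert huv.1.symm)
  have e1 := ar₁ s(⟨u, hu⟩, ⟨v, hv⟩)
  have e2 := ar₂ s(⟨u, hu⟩, ⟨v, hv⟩)
  have e3 : arc₁ s(⟨u, hu⟩, ⟨v, hv⟩) = arc₂ s(⟨u, hu⟩, ⟨v, hv⟩) := hag _ huv
  calc D₁.arc s(u, v) = arc₁ s(⟨u, hu⟩, ⟨v, hv⟩) := e1
    _ = arc₂ s(⟨u, hu⟩, ⟨v, hv⟩) := e3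
    _ = D₂.arc s(u, v) := e2.symm

end Pool.Agent.H119.Sefe
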