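import Pool.Agent.H119.Sefe.Side
import Pool.Agent.H119.Sefe.Alg

/-!
# Plane drawings with polygonal arcs and prescribed directions
-/

set_option autoImplicit false

namespace Pool.Agent.H119.Sefe

open Set Complex Topology Filter Pool.Agent.TH510.Sefe

variable {W : Type}

/-- admissible directions -/
structure Dirs (θ : W → W → ℝ) (U : SimpleGraph W) : Prop where
  rng : ∀ x y, U.Adj x y → 0 ≤ θ x y ∧ θ x y < 2 * Real.pi
  inj : ∀ x y z, U.Adj x y → U.Adj x z → θ x y = θ x z → y = z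

theorem Dirs.mono {θ : W → W → ℝ} {U H : SimpleGraph W} (h : Dirs θ U) (hH : H ≤ U) : Dirs θ H :=
  ⟨fun x y hxy => h.rng x y (hH hxy), fun x y z h1 h2 => h.inj x y z (hH h1) (hH h2)⟩

/-- plane drawings of `H` with polygonal arcs -/
structure Plane (pt : W → ℂ) (θ : W → W → ℝ) (H : SimpleGraph W) (arc : Sym2 W → Set ℂ) :
    Prop where
  inj : Function.Injective pt
  pa : ∀ x y, H.Adj x y → PA (pt x) (pt y) (θ x y) (θ y x) (arc s(x, y))
  avoid : ∀ e ∈ H.edgeSet, ∀ w, pt w ∈ arc e → w ∈ e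
  meet : ∀ e ∈ H.edgeSet, ∀ f ∈ H.edgeSet, e ≠ f → ∀ z ∈ arc e, z ∈ arc f → ∃ w, z = pt w

/-- the point set of the drawing -/
def MM (pt : W → ℂ) (H : SimpleGraph W) (arc : Sym2 W → Set ℂ) : Set ℂ :=
  Set.range pt ∪ {z | ∃ e ∈ H.edgeSet, z ∈ arc e}

theorem MM_mono {pt : W → ℂ} {H H' : SimpleGraph W} {arc arc' : Sym2 W → Set ℂ} (hH : H ≤ H')
    (ha : ∀ e ∈ H.edgeSet, arc' e = arc e) : MM pt H arc ⊆ MM pt H' arc' := by
  rintro z (hz | ⟨e, he, hz⟩)
  · exact Or.inl hz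
  · exact Or.inr ⟨e, SimpleGraph.edgeSet_mono hH he, by rw [ha e he]; exact hz⟩

variable {pt : W → ℂ} {θ : W → W → ℝ} {H : SimpleGraph W} {arc : Sym2 W → Set ℂ}

theorem Plane.arc_closed (h : Plane pt θ H arc) {e : Sym2 W} (he : e ∈ H.edgeSet) :
    IsClosed (arc e) := by
  induction e with
  | _ x y => exact (h.pa x y he).isClosed

theorem Plane.mono (h : Plane pt θ H arc) {H' : SimpleGraph W} (hH : H' ≤ H) :
    Plane pt θ H' arc :=
  ⟨h.inj, fun x y hxy => h.pa x y (hH hxy),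
    fun e he => h.avoid e (SimpleGraph.edgeSet_mono hH he),
    fun e he f hf => h.meet e (SimpleGraph.edgeSet_mono hH he) f (SimpleGraph.edgeSet_mono hH hf)⟩

variable [Finite W]

theorem Plane.closed (h : Plane pt θ H arc) : IsClosed (MM pt H arc) := by
  refine (Set.finite_range pt).isClosed.union ?_
  have : {z | ∃ e ∈ H.edgeSet, z ∈ arc e} = ⋃ e ∈ H.edgeSet, arc e := by
    ext z; simp
  rw [this]
  exact (Set.toFinite H.edgeSet).isClosed_biUnion fun e he => h.arc_closed he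

/-- the drawing near a vertex -/
theorem Plane.germ (h : Plane pt θ H arc) (x : W) : ∀ᶠ w in 𝓝 (pt x),
    (w ∈ MM pt H arc ↔ w = pt x ∨ ∃ y, H.Adj x y ∧ Ray (pt x) w (θ x y)) := by
  have h1 : ∀ᶠ w in 𝓝 (pt x), ∀ y, H.Adj x y →
      (w ∈ arc s(x, y) ↔ w = pt x ∨ Ray (pt x) w (θ x y)) := by
    rw [eventually_all]
    intro y
    by_cases hxy : H.Adj x y
    · filter_upwards [(h.pa x y hxy).germ] with w hw _ using hw
    · exact Eventually.of_forall fun w hw => absurd hw hxy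
  have h2 : ∀ᶠ w in 𝓝 (pt x), ∀ e : Sym2 W, e ∈ H.edgeSet → x ∉ e → w ∉ arc e := by
    rw [eventually_all]
    intro e
    by_cases he : e ∈ H.edgeSet ∧ x ∉ e
    · have : pt x ∉ arc e := fun hx => he.2 (h.avoid e he.1 x hx)
      filter_upwards [(h.arc_closed he.1).isOpen_compl.mem_nhds this] with w hw _ _ using hw
    · exact Eventually.of_forall fun w h1 h2 => absurd ⟨h1, h2⟩ he
  have h3 : ∀ᶠ w in 𝓝 (pt x), ∀ y, y ≠ x → w ≠ pt y := by
    rw [eventually_all]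
    intro y
    by_cases hxy : y = x
    · exact Eventually.of_forall fun w h1 => absurd hxy h1
    · have : pt x ≠ pt y := fun h' => hxy (h.inj h').symm
      filter_upwards [isOpen_ne.mem_nhds this] with w hw _ using hw
  filter_upwards [h1, h2, h3] with w h1 h2 h3
  constructor
  · rintro (⟨y, rfl⟩ | ⟨e, he, hw⟩)
    · left
      by_contra hne
      exact h3 y (fun hyx => hne (by rw [hyx])) rfl
    · by_cases hx : x ∈ e
      · obtain ⟨y, rfl⟩ := Sym2.mem_iff_exists.1 hx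
        rcases (h1 y he).1 hw with h4 | h4
        · exact Or.inl h4
        · exact Or.inr ⟨y, he, h4⟩
      · exact absurd hw (h2 e he hx)
  · rintro (rfl | ⟨y, hy, hR⟩)
    · exact Or.inl ⟨x, rfl⟩
    · exact Or.inr ⟨s(x, y), hy, (h1 y hy).2 (Or.inr hR)⟩

theorem ray_ev {p : ℂ} {r t c : ℝ} (hr : 0 < r) (hR : Ray p (p + r * ev t) c) : ev t = ev c := by
  have := hR.norm
  rw [add_sub_cancel_left, norm_mul, norm_ev, mul_one, Complex.norm_real,
    Real.norm_of_nonneg hr.le] at this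
  exact mul_left_cancel₀ (by exact_mod_cast hr.ne') (add_left_cancel this)

theorem dist_ev {p : ℂ} {r t : ℝ} (hr : 0 < r) : dist (p + r * ev t) p = r := by
  rw [dist_eq_norm, add_sub_cancel_left, norm_mul, norm_ev, mul_one,
    Complex.norm_real, Real.norm_of_nonneg hr.le]

theorem Plane.clear (h : Plane pt θ H arc) (x : W) {φ : ℝ}
    (hφ : ∀ y, H.Adj x y → ev φ ≠ ev (θ x y)) : Clear (pt x) φ (MM pt H arc) := by
  obtain ⟨δ, hδ, hg⟩ := Metric.eventually_nhds_iff.1 (h.germ x)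
  have h3 : ∀ᶠ s in 𝓝 (0 : ℝ), ∀ y, H.Adj x y → ev (φ + s) ≠ ev (θ x y) := by
    rw [eventually_all]
    intro y
    by_cases hxy : H.Adj x y
    · have hc : Continuous fun s : ℝ => ev (φ + s) := continuous_ev.comp (by fun_prop)
      have := (hc.continuousAt (x := 0)).eventually_ne (y := ev (θ x y)) (by simpa using hφ y hxy)
      filter_upwards [this] with s hs _ using hs
    · exact Eventually.of_forall fun w h1 => absurd h1 hxy
  obtain ⟨η, hη, he⟩ := Metric.eventually_nhds_iff.1 h3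
  refine ⟨min δ η, lt_min hδ hη, fun r s hr hrd hs hmem => ?_⟩
  have hs' := he (y := s) (by
    rw [dist_zero_right, Real.norm_eq_abs]; exact hs.trans_le (min_le_right _ _))
  rcases (hg (by rw [dist_ev hr]; exact hrd.trans_le (min_le_left _ _))).1 hmem with h4 | ⟨y, hy, h4⟩
  · exact (Ray.ne ⟨r, hr, rfl⟩ : pt x ≠ pt x + r * ev (φ + s)) h4.symm
  · exact hs' y hy (ray_ev hr h4)

theorem ev_inj {a b : ℝ} (ha : 0 ≤ a) (ha' : a < 2 * Real.pi) (hb : 0 ≤ b)
    (hb' : b < 2 * Real.pi) (h : ev a = ev b) : a = b := by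
  rcases lt_trichotomy a b with h1 | h1 | h1
  · exact absurd h.symm (ev_ne_of_lt h1 (by linarith))
  · exact h1
  · exact absurd h (ev_ne_of_lt h1 (by linarith))

/-- a sector without edges -/
theorem Plane.sector (h : Plane pt θ H arc) (hd : Dirs θ H) (x : W) {a b : ℝ} (ha : 0 ≤ a)
    (hb : b ≤ 2 * Real.pi) (hno : ∀ y, H.Adj x y → ¬ (a < θ x y ∧ θ x y < b)) :
    ∃ δ > (0 : ℝ), Sector (pt x) a b δ ⊆ (MM pt H arc)ᶜ := by
  obtain ⟨δ, hδ, hg⟩ := Metric.eventually_nhds_iff.1 (h.germ x)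
  refine ⟨δ, hδ, ?_⟩
  rintro w ⟨r, t, hr, hrd, ht1, ht2, rfl⟩ hmem
  rcases (hg (by rw [dist_ev hr]; exact hrd)).1 hmem with h4 | ⟨y, hy, h4⟩
  · exact (Ray.ne ⟨r, hr, rfl⟩ : pt x ≠ pt x + r * ev t) h4.symm
  · have := ray_ev hr h4
    have h5 := hd.rng x y hy
    have := ev_inj (by linarith) (by linarith) h5.1 h5.2 this
    subst this
    exact hno y hy ⟨ht1, ht2⟩

omit [Finite W] in
/-- faces -/
def IsFace (M Φ : Set ℂ) : Prop := ∃ z ∈ Mᶜ, Φ = connectedComponentIn Mᶜ z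

section face

variable {M Φ S : Set ℂ}

theorem IsFace.sub (h : IsFace M Φ) : Φ ⊆ Mᶜ := by
  obtain ⟨z, -, rfl⟩ := h; exact connectedComponentIn_subset _ _

theorem IsFace.pre (h : IsFace M Φ) : IsPreconnected Φ := by
  obtain ⟨z, -, rfl⟩ := h; exact isPreconnected_connectedComponentIn

theorem IsFace.isOpen (h : IsFace M Φ) (hM : IsClosed M) : IsOpen Φ := by
  obtain ⟨z, -, rfl⟩ := h; exact hM.isOpen_compl.connectedComponentIn

theorem IsFace.absorb (h : IsFace M Φ) (hS : IsPreconnected S) (hSM : S ⊆ Mᶜ)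
    (hne : (S ∩ Φ).Nonempty) : S ⊆ Φ := by
  obtain ⟨z, hz, rfl⟩ := h
  obtain ⟨w, hwS, hwΦ⟩ := hne
  rw [connectedComponentIn_eq hwΦ]
  exact hS.subset_connectedComponentIn hwS hSM

theorem exists_face (hS : IsPreconnected S) (hSM : S ⊆ Mᶜ) (hne : S.Nonempty) :
    ∃ Φ, IsFace M Φ ∧ S ⊆ Φ := by
  obtain ⟨w, hw⟩ := hne
  exact ⟨_, ⟨w, hSM hw, rfl⟩, hS.subset_connectedComponentIn hw hSM⟩

theorem face_sector (h : IsFace M Φ) {p : ℂ} {a b δ : ℝ} (hab : a < b) (hδ : 0 < δ)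
    (hs : Sector p a b δ ⊆ Mᶜ) : FanP p a Φ ↔ FanM p b Φ := by
  constructor
  · intro hf
    exact (sector_fanM hab hδ).mono (h.absorb (sector_preconnected _ _ _ _) hs
      (fanP_common (sector_fanP hab hδ) hf))
  · intro hf
    exact (sector_fanP hab hδ).mono (h.absorb (sector_preconnected _ _ _ _) hs
      (fanM_common (sector_fanM hab hδ) hf))

end face

open Classical in
/-- the corners of a face just after a direction -/
noncomputable def cpF (pt : W → ℂ) (Φ : Set ℂ) (x : W) (φ : ℝ) : ℤ :=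
  if FanP (pt x) φ Φ then 1 else 0

open Classical in
/-- the corners of a face just before a direction -/
noncomputable def cmF (pt : W → ℂ) (Φ : Set ℂ) (x : W) (φ : ℝ) : ℤ :=
  if FanM (pt x) φ Φ then 1 else 0

omit [Finite W] in
theorem cpF_eq {Φ : Set ℂ} {x y : W} {φ ψ : ℝ} (h : FanP (pt x) φ Φ ↔ FanM (pt y) ψ Φ) :
    cpF pt Φ x φ = cmF pt Φ y ψ := by
  unfold cpF cmF
  by_cases hh : FanP (pt x) φ Φ
  · rw [if_pos hh, if_pos (h.1 hh)]
  · rw [if_neg hh, if_neg (fun q => hh (h.2 q))]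

theorem clear_fan {p : ℂ} {φ : ℝ} {M Φ : Set ℂ} (hc : Clear p φ M) (hf : IsFace M Φ) :
    FanP p φ Φ ↔ FanM p φ Φ := by
  obtain ⟨δ, hδ, h⟩ := hc
  have hs : Sector p (φ - δ) (φ + δ) δ ⊆ Mᶜ := by
    rintro w ⟨r, t, hr, hrd, h1, h2, rfl⟩
    have := h r (t - φ) hr hrd (by rw [abs_lt]; constructor <;> linarith)
    rwa [show φ + (t - φ) = t by ring] at this
  have fP : FanP p φ (Sector p (φ - δ) (φ + δ) δ) := ⟨δ, hδ, fun r s q1 q2 q3 q4 =>
    ⟨r, φ + s, q1, q2, by linarith, by linarith, rfl⟩⟩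
  have fM : FanM p φ (Sector p (φ - δ) (φ + δ) δ) := ⟨δ, hδ, fun r s q1 q2 q3 q4 =>
    ⟨r, φ - s, q1, q2, by linarith, by linarith, rfl⟩⟩
  constructor
  · intro hp
    exact fM.mono (hf.absorb (sector_preconnected _ _ _ _) hs (fanP_common fP hp))
  · intro hp
    exact fP.mono (hf.absorb (sector_preconnected _ _ _ _) hs (fanM_common fM hp))

/-- the sides of a drawn edge -/
theorem Plane.edge_sides (h : Plane pt θ H arc) (hd : Dirs θ H) {x y : W} (hxy : H.Adj x y) :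
    Sides (pt x) (pt y) (θ x y) (θ y x) (arc s(x, y)) (MM pt H arc) := by
  classical
  set H' : SimpleGraph W := H.deleteEdges {s(x, y)} with hH'
  have hle : H' ≤ H := SimpleGraph.deleteEdges_le _
  have hP' := h.mono hle
  have hmem : ∀ e, e ∈ H'.edgeSet ↔ e ∈ H.edgeSet ∧ e ≠ s(x, y) := by
    intro e; rw [hH', SimpleGraph.edgeSet_deleteEdges]; simp
  have hM : MM pt H arc = arc s(x, y) ∪ MM pt H' arc := by
    ext z
    constructor
    · rintro (hz | ⟨e, he, hz⟩)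
      · exact Or.inr (Or.inl hz)
      · by_cases hexy : e = s(x, y)
        · left; rw [← hexy]; exact hz
        · exact Or.inr (Or.inr ⟨e, (hmem e).2 ⟨he, hexy⟩, hz⟩)
    · rintro (hz | hz)
      · exact Or.inr ⟨_, hxy, hz⟩
      · exact MM_mono hle (fun _ _ => rfl) hz
  have hdir : ∀ a b, s(a, b) = s(x, y) → ∀ z, H'.Adj a z → ev (θ a b) ≠ ev (θ a z) := by
    intro a b hab z haz he
    have hab' : H.Adj a b := by
      have : s(a, b) ∈ H.edgeSet := by rw [hab]; exact hxy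
      exact this
    have h1 := hd.rng a b hab'
    have h2 := hd.rng a z (hle haz)
    have h3 := hd.inj a b z hab' (hle haz) (ev_inj h1.1 h1.2 h2.1 h2.2 he)
    have h4 := ((hmem s(a, z)).1 haz).2
    rw [← h3] at h4
    exact h4 hab
  rw [hM]
  refine (h.pa x y hxy).sides hP'.closed ?_ (hP'.clear x (hdir x y rfl))
    (hP'.clear y (hdir y x Sym2.eq_swap))
  rintro z ⟨hz | ⟨e, he, hz⟩, hz'⟩
  · obtain ⟨w, rfl⟩ := hz
    have := h.avoid _ hxy w hz'
    rw [Sym2.mem_iff] at this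
    rcases this with rfl | rfl
    · exact Or.inl rfl
    · exact Or.inr rfl
  · obtain ⟨w, rfl⟩ := h.meet e ((hmem e).1 he).1 _ hxy ((hmem e).1 he).2 z hz hz'
    have := h.avoid _ hxy w hz'
    rw [Sym2.mem_iff] at this
    rcases this with rfl | rfl
    · exact Or.inl rfl
    · exact Or.inr rfl

/-- the corner functions of a face -/
theorem Plane.isCirc (h : Plane pt θ H arc) (hd : Dirs θ H) {Φ : Set ℂ}
    (hΦ : IsFace (MM pt H arc) Φ) : IsCirc θ H (cpF pt Φ) (cmF pt Φ) where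
  c1 := by
    intro x φ h0 h1 hno
    have : FanP (pt x) φ Φ ↔ FanM (pt x) φ Φ := by
      refine clear_fan (h.clear x fun y hy he => ?_) hΦ
      have h5 := hd.rng x y hy
      exact hno y hy (ev_inj h0 h1 h5.1 h5.2 he).symm
    exact cpF_eq this
  c2 := by
    intro x φ₁ φ₂ h0 h1 h2 hno
    obtain ⟨δ, hδ, hs⟩ := h.sector hd x h0 h2.le hno
    exact cpF_eq (face_sector hΦ h1 hδ hs)
  c3 := by
    intro x φ₁ h0 h1 hno
    obtain ⟨δ, hδ, hs⟩ := h.sector hd x (a := φ₁) (b := 2 * Real.pi) h0 le_rfl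
      (fun y hy hh => hno y hy hh.1)
    have e : FanM (pt x) (2 * Real.pi) Φ ↔ FanM (pt x) 0 Φ := by
      have : ev (2 * Real.pi) = ev 0 := by
        have := ev_two_pi 0
        rwa [zero_add] at this
      exact ⟨fun hh => hh.congr this, fun hh => hh.congr this.symm⟩
    exact cpF_eq ((face_sector hΦ h1 hδ hs).trans e)
  side := by
    intro x y hxy
    obtain ⟨L, R, N, p1, p2, p3, p4, p5, p6, p7, p8, p9, p10, p11⟩ := h.edge_sides hd hxy
    have : FanP (pt x) (θ x y) Φ ↔ FanM (pt y) (θ y x) Φ := by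
      constructor
      · intro hf
        exact p10.mono (hΦ.absorb p1 p3 (fanP_common p8 hf))
      · intro hf
        exact p8.mono (hΦ.absorb p1 p3 (fanM_common p10 hf))
    exact cpF_eq this

/-- the drawing of the beginning of an edge -/
def GermIn (p : ℂ) (φ : ℝ) (S : Set ℂ) : Prop :=
  ∃ δ > (0 : ℝ), ∀ r : ℝ, 0 < r → r < δ → p + r * ev φ ∈ S

theorem GermIn.mono {p : ℂ} {φ : ℝ} {S T : Set ℂ} (h : GermIn p φ S) (hST : S ⊆ T) :
    GermIn p φ T := by
  obtain ⟨δ, h1, h2⟩ := h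
  exact ⟨δ, h1, fun r a b => hST (h2 r a b)⟩

theorem GermIn.inter {p : ℂ} {φ : ℝ} {S T : Set ℂ} (h : GermIn p φ S) (h' : GermIn p φ T) :
    GermIn p φ (S ∩ T) := by
  obtain ⟨δ, h1, h2⟩ := h
  obtain ⟨δ', h1', h2'⟩ := h'
  exact ⟨min δ δ', lt_min h1 h1', fun r a b =>
    ⟨h2 r a (b.trans_le (min_le_left _ _)), h2' r a (b.trans_le (min_le_right _ _))⟩⟩

theorem GermIn.nonempty {p : ℂ} {φ : ℝ} {S : Set ℂ} (h : GermIn p φ S) : S.Nonempty := by
  obtain ⟨δ, h1, h2⟩ := h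
  exact ⟨_, h2 (δ / 2) (by positivity) (by linarith)⟩

theorem Clear.germIn {p : ℂ} {φ : ℝ} {M : Set ℂ} (h : Clear p φ M) : GermIn p φ Mᶜ := by
  obtain ⟨δ, h1, h2⟩ := h
  refine ⟨δ, h1, fun r a b => ?_⟩
  have := h2 r 0 a b (by simpa using h1)
  rwa [add_zero] at this

theorem clear_germ {p : ℂ} {φ : ℝ} {M Φ : Set ℂ} (hc : Clear p φ M) (hf : IsFace M Φ) :
    GermIn p φ Φ ↔ FanP p φ Φ := by
  obtain ⟨δ, hδ, h⟩ := hc
  have hs : Sector p (φ - δ) (φ + δ) δ ⊆ Mᶜ := by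
    rintro w ⟨r, t, hr, hrd, h1, h2, rfl⟩
    have := h r (t - φ) hr hrd (by rw [abs_lt]; constructor <;> linarith)
    rwa [show φ + (t - φ) = t by ring] at this
  have fP : FanP p φ (Sector p (φ - δ) (φ + δ) δ) := ⟨δ, hδ, fun r s q1 q2 q3 q4 =>
    ⟨r, φ + s, q1, q2, by linarith, by linarith, rfl⟩⟩
  have fG : GermIn p φ (Sector p (φ - δ) (φ + δ) δ) := ⟨δ, hδ, fun r q1 q2 =>
    ⟨r, φ, q1, q2, by linarith, by linarith, rfl⟩⟩
  constructor
  · intro hp
    exact fP.mono (hf.absorb (sector_preconnected _ _ _ _) hs (fG.inter hp).nonempty)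
  · intro hp
    exact fG.mono (hf.absorb (sector_preconnected _ _ _ _) hs (fanP_common fP hp))

/-- the two ends of the edge `uv` (not drawn yet) lie in one region -/
def Same (pt : W → ℂ) (θ : W → W → ℝ) (M : Set ℂ) (u v : W) : Prop :=
  ∃ Ψ : Set ℂ, IsPreconnected Ψ ∧ Ψ ⊆ Mᶜ ∧ GermIn (pt u) (θ u v) Ψ ∧ GermIn (pt v) (θ v u) Ψ

theorem Plane.clear_edge (h : Plane pt θ H arc) {U : SimpleGraph W} (hU : Dirs θ U) (hH : H ≤ U)
    {u v : W} (huv : U.Adj u v) (hn : ¬ H.Adj u v) :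
    Clear (pt u) (θ u v) (MM pt H arc) := by
  refine h.clear u fun y hy he => ?_
  have h1 := hU.rng u v huv
  have h2 := hU.rng u y (hH hy)
  have h3 := hU.inj u v y huv (hH hy) (ev_inj h1.1 h1.2 h2.1 h2.2 he)
  rw [h3] at hn
  exact hn hy

/-- adding an edge whose ends lie in one face -/
theorem Plane.add (h : Plane pt θ H arc) {Φ : Set ℂ} (hΦ : IsFace (MM pt H arc) Φ) {u v : W}
    (huv : u ≠ v) (hn : ¬ H.Adj u v) (g1 : GermIn (pt u) (θ u v) Φ)
    (g2 : GermIn (pt v) (θ v u) Φ) :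
    ∃ arc', Plane pt θ (H ⊔ SimpleGraph.edge u v) arc' ∧ (∀ e ∈ H.edgeSet, arc' e = arc e) ∧
      arc' s(u, v) \ {pt u, pt v} ⊆ Φ := by
  classical
  have hnu : pt u ∉ Φ := fun hh => hΦ.sub hh (Or.inl ⟨u, rfl⟩)
  have hnv : pt v ∉ Φ := fun hh => hΦ.sub hh (Or.inl ⟨v, rfl⟩)
  obtain ⟨A, hA, hAΦ⟩ := exists_PA (hΦ.isOpen h.closed) hΦ.pre
    (fun hh => huv (h.inj hh)) hnu hnv g1 g2
  have hnm : s(u, v) ∉ H.edgeSet := hn
  have hold : ∀ e ∈ H.edgeSet, Function.update arc s(u, v) A e = arc e := by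
    intro e he
    refine Function.update_of_ne (fun hh => hnm ?_) _ _
    rw [← hh]; exact he
  have hnew : Function.update arc s(u, v) A s(u, v) = A := Function.update_self _ _ _
  have hedge : ∀ e, e ∈ (H ⊔ SimpleGraph.edge u v).edgeSet ↔ e ∈ H.edgeSet ∨ e = s(u, v) := by
    intro e
    rw [SimpleGraph.edgeSet_sup, SimpleGraph.edgeSet_edge_of_ne huv]
    rfl
  have hAM : ∀ z ∈ A, z ∈ MM pt H arc → z = pt u ∨ z = pt v := by
    intro z hz hzM
    by_contra hcon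
    push Not at hcon
    exact hΦ.sub (hAΦ ⟨hz, by rintro (h | h); exacts [hcon.1 h, hcon.2 h]⟩) hzM
  refine ⟨Function.update arc s(u, v) A, ⟨h.inj, ?_, ?_, ?_⟩, hold, ?_⟩
  · intro x y hxy
    have : s(x, y) ∈ (H ⊔ SimpleGraph.edge u v).edgeSet := hxy
    rcases (hedge _).1 this with h1 | h1
    · rw [hold _ h1]; exact h.pa x y h1
    · rw [h1, hnew]
      rcases Sym2.eq_iff.1 h1 with ⟨rfl, rfl⟩ | ⟨rfl, rfl⟩
      · exact hA
      · exact hA.rev
  · intro e he w hw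
    rcases (hedge _).1 he with h1 | h1
    · rw [hold _ h1] at hw; exact h.avoid e h1 w hw
    · rw [h1, hnew] at hw
      rw [h1, Sym2.mem_iff]
      rcases hAM _ hw (Or.inl ⟨w, rfl⟩) with h2 | h2
      · exact Or.inl (h.inj h2)
      · exact Or.inr (h.inj h2)
  · intro e he f hf hef z hze hzf
    rcases (hedge _).1 he with h1 | h1 <;> rcases (hedge _).1 hf with h2 | h2
    · rw [hold _ h1] at hze; rw [hold _ h2] at hzf
      exact h.meet e h1 f h2 hef z hze hzf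
    · rw [hold _ h1] at hze; rw [h2, hnew] at hzf
      rcases hAM _ hzf (Or.inr ⟨e, h1, hze⟩) with h3 | h3
      · exact ⟨u, h3⟩
      · exact ⟨v, h3⟩
    · rw [hold _ h2] at hzf; rw [h1, hnew] at hze
      rcases hAM _ hze (Or.inr ⟨f, h2, hzf⟩) with h3 | h3
      · exact ⟨u, h3⟩
      · exact ⟨v, h3⟩
    · exact absurd (h1.trans h2.symm) hef
  · rw [hnew]; exact hAΦ

end Pool.Agent.H119.Sefe
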