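import Pool.Graph.R_seed8.TH510.Sefe.Defs

/-!
# Simple polygonal arcs
-/

set_option autoImplicit false

namespace Pool.Agent.H119.Sefe

open Set Complex Topology Filter Pool.Agent.TH510.Sefe

/-- The unit vector with angle `φ`. -/
noncomputable def ev (φ : ℝ) : ℂ := Complex.exp (φ * Complex.I)

theorem ev_ne (φ : ℝ) : ev φ ≠ 0 := Complex.exp_ne_zero _

theorem norm_ev (φ : ℝ) : ‖ev φ‖ = 1 := Complex.norm_exp_ofReal_mul_I φ

theorem ev_add (φ ψ : ℝ) : ev (φ + ψ) = ev φ * ev ψ := by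
  unfold ev; rw [← Complex.exp_add]; push_cast; ring_nf

theorem ev_pi (φ : ℝ) : ev (φ + Real.pi) = - ev φ := by
  rw [ev_add]; unfold ev; rw [Complex.exp_pi_mul_I]; ring

theorem ev_two_pi (φ : ℝ) : ev (φ + 2 * Real.pi) = ev φ := by
  have : φ + 2 * Real.pi = (φ + Real.pi) + Real.pi := by ring
  rw [this, ev_pi, ev_pi, neg_neg]

theorem continuous_ev : Continuous ev := by unfold ev; fun_prop

/-- `v` lies on the open ray from `u` in the direction `φ`. -/
def Ray (u v : ℂ) (φ : ℝ) : Prop := ∃ r : ℝ, 0 < r ∧ v = u + r * ev φ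

theorem Ray.ne {u v : ℂ} {φ : ℝ} (h : Ray u v φ) : u ≠ v := by
  obtain ⟨r, hr, rfl⟩ := h
  intro h
  have h2 : (r : ℂ) * ev φ = 0 := by
    have := h.symm
    simpa using this
  rcases mul_eq_zero.1 h2 with h | h
  · exact hr.ne' (by exact_mod_cast h)
  · exact ev_ne _ h

theorem Ray.symm {u v : ℂ} {φ : ℝ} (h : Ray u v φ) : Ray v u (φ + Real.pi) := by
  obtain ⟨r, hr, rfl⟩ := h
  refine ⟨r, hr, ?_⟩
  rw [ev_pi]; ring

theorem Ray.of_add_pi {u v : ℂ} {φ : ℝ} (h : Ray u v (φ + Real.pi)) : Ray v u φ := by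
  obtain ⟨r, hr, rfl⟩ := h
  refine ⟨r, hr, ?_⟩
  rw [ev_pi]; ring

theorem exists_ray {u v : ℂ} (h : u ≠ v) : ∃ φ, Ray u v φ := by
  refine ⟨(v - u).arg, ‖v - u‖, norm_pos_iff.2 (sub_ne_zero.2 h.symm), ?_⟩
  unfold ev
  rw [Complex.norm_mul_exp_arg_mul_I]; ring

theorem Ray.norm {u v : ℂ} {φ : ℝ} (h : Ray u v φ) : v = u + (‖v - u‖ : ℝ) * ev φ := by
  obtain ⟨r, hr, rfl⟩ := h
  rw [add_sub_cancel_left, norm_mul, norm_ev, mul_one, Complex.norm_real, Real.norm_of_nonneg hr.le]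

/-- Simple polygonal arcs from `u` to `v` leaving `u` in the direction `α` and (backwards) leaving
`v` in the direction `β`. -/
inductive PA : ℂ → ℂ → ℝ → ℝ → Set ℂ → Prop
  | seg (u v : ℂ) (α β : ℝ) (ha : Ray u v α) (hb : Ray v u β) : PA u v α β (segment ℝ u v)
  | cons (u p v : ℂ) (α α' β : ℝ) (A : Set ℂ) (ha : Ray u p α) (hA : PA p v α' β A)
      (hi : segment ℝ u p ∩ A ⊆ {p}) : PA u v α β (segment ℝ u p ∪ A)

namespace PA

variable {u v : ℂ} {α β : ℝ} {A : Set ℂ}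

theorem left_mem (h : PA u v α β A) : u ∈ A := by
  cases h with
  | seg => exact left_mem_segment ℝ u v
  | cons => exact Or.inl (left_mem_segment ℝ _ _)

theorem right_mem (h : PA u v α β A) : v ∈ A := by
  induction h with
  | seg => exact right_mem_segment ℝ _ _
  | cons _ _ _ _ _ _ _ _ _ _ ih => exact Or.inr ih

theorem isCompact (h : PA u v α β A) : IsCompact A := by
  induction h with
  | seg u v => rw [segment_eq_image']; exact isCompact_Icc.image (by fun_prop)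
  | cons u p v _ _ _ _ _ _ _ ih =>
    refine IsCompact.union ?_ ih
    rw [segment_eq_image']; exact isCompact_Icc.image (by fun_prop)

theorem isClosed (h : PA u v α β A) : IsClosed A := h.isCompact.isClosed

theorem ne (h : PA u v α β A) : u ≠ v := by
  cases h with
  | seg _ _ _ _ ha => exact ha.ne
  | cons _ p _ _ α' _ A ha hA hi =>
    rintro rfl
    exact ha.ne (hi ⟨left_mem_segment ℝ _ _, hA.right_mem⟩)

theorem snoc {q : ℂ} (h : PA u q α β A) : ∀ {w : ℂ} {γ : ℝ}, Ray w q γ →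
    segment ℝ q w ∩ A ⊆ {q} → PA u w α γ (A ∪ segment ℝ q w) := by
  induction h with
  | seg u q α β ha hb =>
    intro w γ hw hi
    refine PA.cons u q w α (γ + Real.pi) γ _ ha (PA.seg q w _ _ hw.symm hw) ?_
    rw [inter_comm]; exact hi
  | cons u p q α α' β A ha hA hi ih =>
    intro w γ hw hi'
    rw [union_assoc]
    refine PA.cons u p w α α' γ _ ha (ih hw fun x hx => hi' ⟨hx.1, Or.inr hx.2⟩) ?_
    rintro x ⟨h1, h2 | h2⟩
    · exact hi ⟨h1, h2⟩
    · have hxq : x = q := hi' ⟨h2, Or.inl h1⟩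
      subst hxq
      exact hi ⟨h1, hA.right_mem⟩

theorem rev (h : PA u v α β A) : PA v u β α A := by
  induction h with
  | seg u v α β ha hb => rw [segment_symm]; exact PA.seg v u β α hb ha
  | cons u p v α α' β A ha hA hi ih =>
    have := ih.snoc ha (w := u) (by rw [segment_symm]; exact hi)
    rw [union_comm, segment_symm] at this
    exact this

end PA

/-- the germ of a segment -/
theorem seg_germ {u v : ℂ} {α : ℝ} (ha : Ray u v α) :
    ∀ᶠ w in 𝓝 u, (w ∈ segment ℝ u v ↔ w = u ∨ Ray u w α) := by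
  obtain ⟨r, hr, rfl⟩ := ha
  filter_upwards [Metric.ball_mem_nhds u hr] with w hw
  rw [segment_eq_image']
  constructor
  · rintro ⟨t, ⟨h0, h1⟩, rfl⟩
    rcases h0.eq_or_lt with h | h
    · left; rw [← h]; simp
    · right
      refine ⟨t * r, by positivity, ?_⟩
      simp only [add_sub_cancel_left, Complex.real_smul]
      push_cast; ring
  · rintro (rfl | h)
    · exact ⟨0, by simp, by simp⟩
    · have hn := h.norm
      rw [Metric.mem_ball, dist_eq_norm] at hw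
      refine ⟨‖w - u‖ / r, ⟨by positivity, (div_le_one hr).2 hw.le⟩, ?_⟩
      conv_rhs => rw [hn]
      simp only [add_sub_cancel_left, Complex.real_smul]
      push_cast
      have : (r : ℂ) ≠ 0 := by exact_mod_cast hr.ne'
      field_simp

theorem PA.germ {u v : ℂ} {α β : ℝ} {A : Set ℂ} (h : PA u v α β A) :
    ∀ᶠ w in 𝓝 u, (w ∈ A ↔ w = u ∨ Ray u w α) := by
  cases h with
  | seg _ _ _ _ ha => exact seg_germ ha
  | cons _ p _ _ α' _ A ha hA hi =>
    have hu : u ∉ A := fun hu => ha.ne (hi ⟨left_mem_segment ℝ _ _, hu⟩)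
    filter_upwards [seg_germ ha, hA.isClosed.isOpen_compl.mem_nhds hu] with w h1 h2
    rw [← h1]
    exact ⟨fun h => h.resolve_right h2, Or.inl⟩

theorem PA.germ' {u v : ℂ} {α β : ℝ} {A : Set ℂ} (h : PA u v α β A) :
    ∀ᶠ w in 𝓝 v, (w ∈ A ↔ w = v ∨ Ray v w β) := h.rev.germ

/-- concatenation of arcs -/
theorem isArc_trans {a b : Set ℂ} {x y z : ℂ} (ha : IsArc a x y) (hb : IsArc b y z)
    (hi : a ∩ b ⊆ {y}) : IsArc (a ∪ b) x z := by
  obtain ⟨γ, h1, rfl⟩ := ha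
  obtain ⟨γ', h2, rfl⟩ := hb
  refine ⟨γ.trans γ', ?_, Path.trans_range γ γ'⟩
  have hy : ∀ s t, γ s = γ' t → s = 1 ∧ t = 0 := by
    intro s t h
    have h3 : γ s = y := hi ⟨⟨s, rfl⟩, ⟨t, h.symm⟩⟩
    refine ⟨h1 (by rw [h3, γ.target]), h2 (by rw [← h, h3, γ'.source])⟩
  intro s t hst
  rw [Path.trans_apply, Path.trans_apply] at hst
  split_ifs at hst with c1 c2 c2
  · have := congrArg Subtype.val (h1 hst)
    simp only at this
    exact Subtype.ext (by linarith)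
  · exfalso
    obtain ⟨h3, h4⟩ := hy _ _ hst
    have h4 := congrArg Subtype.val h4
    simp only [Set.Icc.coe_zero] at h4
    apply c2
    linarith
  · exfalso
    obtain ⟨h3, h4⟩ := hy _ _ hst.symm
    have h4 := congrArg Subtype.val h4
    simp only [Set.Icc.coe_zero] at h4
    apply c1
    linarith
  · have := congrArg Subtype.val (h2 hst)
    simp only at this
    exact Subtype.ext (by linarith)

theorem isArc_seg {u v : ℂ} (h : u ≠ v) : IsArc (segment ℝ u v) u v := by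
  refine ⟨⟨⟨fun t => u + (t : ℝ) • (v - u), by fun_prop⟩, by simp, by simp⟩, ?_, ?_⟩
  · intro s t hst
    have h1 : u + (s : ℝ) • (v - u) = u + (t : ℝ) • (v - u) := hst
    have h2 := add_left_cancel h1
    have h3 : ((s : ℝ) - (t : ℝ)) • (v - u) = 0 := by rw [sub_smul, h2, sub_self]
    rcases smul_eq_zero.1 h3 with h4 | h4
    · exact Subtype.ext (by linarith)
    · exact absurd (sub_eq_zero.1 h4).symm h
  · rw [segment_eq_image']
    ext z
    constructor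
    · rintro ⟨t, rfl⟩
      exact ⟨t, t.2, rfl⟩
    · rintro ⟨t, ht, rfl⟩
      exact ⟨⟨t, ht⟩, rfl⟩

theorem PA.isArc {u v : ℂ} {α β : ℝ} {A : Set ℂ} (h : PA u v α β A) : IsArc A u v := by
  induction h with
  | seg u v α β ha hb => exact isArc_seg ha.ne
  | cons u p v α α' β A ha hA hi ih => exact isArc_trans (isArc_seg ha.ne) ih hi

/-- truncation of a segment at the first hit of a closed set -/
theorem seg_trunc {u p : ℂ} {α : ℝ} (ha : Ray u p α) {C : Set ℂ} (hC : IsClosed C) (hu : u ∉ C)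
    (hne : (segment ℝ u p ∩ C).Nonempty) :
    ∃ q ∈ C, Ray u q α ∧ segment ℝ u q ⊆ segment ℝ u p ∧ segment ℝ u q ∩ C ⊆ {q} := by
  let K : Set ℝ := {t | t ∈ Icc (0 : ℝ) 1 ∧ u + t • (p - u) ∈ C}
  have hK : IsCompact K := by
    refine IsCompact.inter_right isCompact_Icc ?_
    exact hC.preimage (by fun_prop)
  have hKn : K.Nonempty := by
    obtain ⟨x, hx, hxC⟩ := hne
    rw [segment_eq_image'] at hx
    obtain ⟨t, ht, rfl⟩ := hx
    exact ⟨t, ht, hxC⟩
  obtain ⟨t, ⟨ht, htC⟩, hmin⟩ := hK.exists_isMinOn hKn continuous_id.continuousOn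
  have ht0 : 0 < t := by
    rcases ht.1.eq_or_lt with h | h
    · exfalso; apply hu; rw [← h] at htC; simpa using htC
    · exact h
  obtain ⟨r, hr, rfl⟩ := ha
  have e0 : u + t • (u + (r : ℂ) * ev α - u) = u + ((t * r : ℝ) : ℂ) * ev α := by
    rw [add_sub_cancel_left, Complex.real_smul]; push_cast; ring
  have hsub : ∀ x ∈ segment ℝ u (u + t • (u + (r : ℂ) * ev α - u)), ∃ s ∈ Icc (0 : ℝ) 1,
      x = u + (s * t) • (u + (r : ℂ) * ev α - u) := by
    intro x hx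
    rw [segment_eq_image'] at hx
    obtain ⟨s, hs, rfl⟩ := hx
    refine ⟨s, hs, ?_⟩
    simp only [add_sub_cancel_left, smul_smul]
  refine ⟨_, htC, ⟨t * r, by positivity, e0⟩, ?_, ?_⟩
  · intro x hx
    obtain ⟨s, hs, rfl⟩ := hsub x hx
    rw [segment_eq_image']
    exact ⟨s * t, ⟨mul_nonneg hs.1 ht.1, mul_le_one₀ hs.2 ht.1 ht.2⟩, rfl⟩
  · rintro x ⟨hx, hxC⟩
    obtain ⟨s, hs, rfl⟩ := hsub x hx
    have h1 : t ≤ s * t := hmin ⟨⟨mul_nonneg hs.1 ht.1, mul_le_one₀ hs.2 ht.1 ht.2⟩, hxC⟩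
    have h2 : s = 1 := by
      apply le_antisymm hs.2
      by_contra hlt
      push Not at hlt
      nlinarith
    rw [h2, one_mul]; rfl

theorem PA.trunc {u w : ℂ} {α β : ℝ} {A : Set ℂ} (h : PA u w α β A) :
    ∀ {C : Set ℂ}, IsClosed C → u ∉ C → (A ∩ C).Nonempty →
    ∃ q ∈ C, ∃ β' A₀, PA u q α β' A₀ ∧ A₀ ⊆ A ∧ A₀ ∩ C ⊆ {q} := by
  induction h with
  | seg u v α β ha hb =>
    intro C hC hu hne
    obtain ⟨q, hq, h1, h2, h3⟩ := seg_trunc ha hC hu hne
    exact ⟨q, hq, α + Real.pi, _, PA.seg u q α _ h1 h1.symm, h2, h3⟩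
  | cons u p v α α' β A ha hA hi ih =>
    intro C hC hu hne
    by_cases h : (segment ℝ u p ∩ C).Nonempty
    · obtain ⟨q, hq, h1, h2, h3⟩ := seg_trunc ha hC hu h
      exact ⟨q, hq, α + Real.pi, _, PA.seg u q α _ h1 h1.symm, fun x hx => Or.inl (h2 hx), h3⟩
    · have hp : p ∉ C := fun hp => h ⟨p, right_mem_segment ℝ _ _, hp⟩
      have hne' : (A ∩ C).Nonempty := by
        obtain ⟨x, hx | hx, hxC⟩ := hne
        · exact absurd ⟨x, hx, hxC⟩ h
        · exact ⟨x, hx, hxC⟩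
      obtain ⟨q, hq, β', A₀, h1, h2, h3⟩ := ih hC hp hne'
      refine ⟨q, hq, β', segment ℝ u p ∪ A₀, PA.cons u p q α α' β' A₀ ha h1
        (fun x hx => hi ⟨hx.1, h2 hx.2⟩), ?_, ?_⟩
      · rintro x (hx | hx)
        · exact Or.inl hx
        · exact Or.inr (h2 hx)
      · rintro x ⟨hx | hx, hxC⟩
        · exact absurd ⟨x, hx, hxC⟩ h
        · exact h3 ⟨hx, hxC⟩

/-- Two points on the frontier of a region can be joined inside the region by a simple polygonal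
arc with prescribed directions at its ends. -/
theorem exists_PA {Φ : Set ℂ} (ho : IsOpen Φ) (hc : IsPreconnected Φ) {u v : ℂ} (huv : u ≠ v)
    (hu : u ∉ Φ) (hv : v ∉ Φ) {α β : ℝ}
    (ha : ∃ δ > (0 : ℝ), ∀ r : ℝ, 0 < r → r < δ → u + r * ev α ∈ Φ)
    (hb : ∃ δ > (0 : ℝ), ∀ r : ℝ, 0 < r → r < δ → v + r * ev β ∈ Φ) :
    ∃ A, PA u v α β A ∧ A \ {u, v} ⊆ Φ := by
  obtain ⟨δ₁, hδ₁, ha⟩ := ha
  obtain ⟨δ₂, hδ₂, hb⟩ := hb
  let R : Set ℂ := {w | w ∈ Φ ∧ ∃ β' A, PA u w α β' A ∧ A \ {u} ⊆ Φ}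
  have key : ∀ (c : ℂ) (ρ : ℝ), Metric.closedBall c ρ ⊆ Φ → ∀ w ∈ R, w ∈ Metric.closedBall c ρ →
      ∀ w' ∈ Metric.closedBall c ρ, w' ∈ R := by
    rintro c ρ hB w ⟨-, β', A, hA, hAΦ⟩ hw w' hw'
    obtain ⟨q, hq, β'', A₀, h1, h2, h3⟩ := hA.trunc Metric.isClosed_closedBall
      (fun h => hu (hB h)) ⟨w, hA.right_mem, hw⟩
    have hA₀ : A₀ \ {u} ⊆ Φ := fun x hx => hAΦ ⟨h2 hx.1, hx.2⟩
    refine ⟨hB hw', ?_⟩
    by_cases he : q = w'
    · subst he; exact ⟨β'', A₀, h1, hA₀⟩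
    · obtain ⟨γ, hγ⟩ := exists_ray (Ne.symm he)
      have hseg : segment ℝ q w' ⊆ Metric.closedBall c ρ :=
        (convex_closedBall c ρ).segment_subset hq hw'
      refine ⟨γ, _, h1.snoc hγ fun x hx => h3 ⟨hx.2, hseg hx.1⟩, ?_⟩
      rintro x ⟨hx | hx, hxu⟩
      · exact hA₀ ⟨hx, hxu⟩
      · exact hB (hseg hx)
  have hopen : IsOpen R := by
    rw [Metric.isOpen_iff]
    intro w hw
    obtain ⟨ρ, hρ, hB⟩ := Metric.nhds_basis_closedBall.mem_iff.1 (ho.mem_nhds hw.1)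
    refine ⟨ρ, hρ, fun w' hw' => key w ρ hB w hw (Metric.mem_closedBall_self hρ.le) w'
      (Metric.ball_subset_closedBall hw')⟩
  have hcl : closure R ∩ Φ ⊆ R := by
    rintro w ⟨hw, hwΦ⟩
    obtain ⟨ρ, hρ, hB⟩ := Metric.nhds_basis_closedBall.mem_iff.1 (ho.mem_nhds hwΦ)
    obtain ⟨w', hw', hd⟩ := Metric.mem_closure_iff.1 hw ρ hρ
    exact key w ρ hB w' hw' (by rw [Metric.mem_closedBall, dist_comm]; exact hd.le) w
      (Metric.mem_closedBall_self hρ.le)
  have hne : (Φ ∩ R).Nonempty := by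
    have h1 := ha (δ₁ / 2) (by positivity) (by linarith)
    refine ⟨_, h1, h1, α + Real.pi, segment ℝ u (u + ((δ₁ / 2 : ℝ) : ℂ) * ev α), ?_, ?_⟩
    · have hr : Ray u (u + ((δ₁ / 2 : ℝ) : ℂ) * ev α) α := ⟨δ₁ / 2, by positivity, rfl⟩
      exact PA.seg _ _ _ _ hr hr.symm
    · rintro x ⟨hx, hxu⟩
      rw [segment_eq_image'] at hx
      obtain ⟨t, ht, rfl⟩ := hx
      have ht0 : 0 < t := by
        rcases ht.1.eq_or_lt with h | h
        · exfalso; apply hxu; rw [← h]; simp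
        · exact h
      have := ha (t * (δ₁ / 2)) (by positivity) (by nlinarith [ht.2])
      convert this using 1
      simp only [add_sub_cancel_left, Complex.real_smul]; push_cast; ring
  have hall : Φ ⊆ R := hc.subset_of_closure_inter_subset hopen hne hcl
  obtain ⟨r₀, hr₀, hr1, hr2⟩ : ∃ r₀ : ℝ, 0 < r₀ ∧ r₀ < δ₂ ∧ r₀ < ‖u - v‖ := by
    have h0 : 0 < ‖u - v‖ := norm_pos_iff.2 (sub_ne_zero.2 huv)
    refine ⟨min δ₂ ‖u - v‖ / 2, by positivity, ?_, ?_⟩
    · have := min_le_left δ₂ ‖u - v‖; linarith [lt_min hδ₂ h0]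
    · have := min_le_right δ₂ ‖u - v‖; linarith [lt_min hδ₂ h0]
  set v' : ℂ := v + (r₀ : ℂ) * ev β with hv'
  have hv'Φ : v' ∈ Φ := hb r₀ hr₀ hr1
  obtain ⟨-, β', A, hA, hAΦ⟩ := hall hv'Φ
  have hseg : ∀ x ∈ segment ℝ v v', ∃ s : ℝ, 0 ≤ s ∧ s ≤ r₀ ∧ x = v + s * ev β := by
    intro x hx
    rw [segment_eq_image'] at hx
    obtain ⟨t, ht, rfl⟩ := hx
    refine ⟨t * r₀, mul_nonneg ht.1 hr₀.le, by nlinarith [ht.2], ?_⟩
    simp only [hv', add_sub_cancel_left, Complex.real_smul]; push_cast; ring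
  have huC : u ∉ segment ℝ v v' := by
    intro h
    obtain ⟨s, h0, h1, h2⟩ := hseg u h
    have : ‖u - v‖ = s := by
      rw [h2, add_sub_cancel_left, norm_mul, norm_ev, mul_one, Complex.norm_real,
        Real.norm_of_nonneg h0]
    linarith
  have hclosed : IsClosed (segment ℝ v v') := by
    rw [segment_eq_image']; exact (isCompact_Icc.image (by fun_prop)).isClosed
  obtain ⟨q, hq, β'', A₀, h1, h2, h3⟩ := hA.trunc hclosed huC
    ⟨v', hA.right_mem, right_mem_segment ℝ _ _⟩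
  have hqv : q ≠ v := by
    intro h
    have h4 : v ∈ A := h2 (h ▸ h1.right_mem)
    exact hv (hAΦ ⟨h4, fun h => huv h.symm⟩)
  obtain ⟨s, hs0, hs1, hs⟩ := hseg q hq
  have hs0' : 0 < s := by
    rcases hs0.eq_or_lt with h | h
    · exfalso; apply hqv; rw [hs, ← h]; simp
    · exact h
  have hsub : segment ℝ q v ⊆ segment ℝ v v' :=
    (convex_segment v v').segment_subset hq (left_mem_segment ℝ _ _)
  refine ⟨_, h1.snoc (w := v) (γ := β) ⟨s, hs0', hs⟩ (fun x hx => h3 ⟨hx.2, hsub hx.1⟩), ?_⟩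
  rintro x ⟨hx | hx, hxn⟩
  · exact hAΦ ⟨h2 hx, fun h => hxn (Or.inl h)⟩
  · obtain ⟨s', h0, h1', rfl⟩ := hseg x (hsub hx)
    refine hb s' ?_ (by linarith)
    rcases h0.eq_or_lt with h | h
    · exfalso; apply hxn; right; rw [← h]; simp
    · exact h

end Pool.Agent.H119.Sefe
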