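import Pool.Agent.H119.Sefe.Poly

/-!
# The two sides of a simple polygonal arc
-/

set_option autoImplicit false

namespace Pool.Agent.H119.Sefe

open Set Complex Topology Filter Pool.Agent.TH510.Sefe

/-- the set contains a fan at `x` just after the direction `φ` -/
def FanP (x : ℂ) (φ : ℝ) (S : Set ℂ) : Prop :=
  ∃ δ > (0 : ℝ), ∀ r s : ℝ, 0 < r → r < δ → 0 < s → s < δ → x + r * ev (φ + s) ∈ S

/-- the set contains a fan at `x` just before the direction `φ` -/
def FanM (x : ℂ) (φ : ℝ) (S : Set ℂ) : Prop :=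
  ∃ δ > (0 : ℝ), ∀ r s : ℝ, 0 < r → r < δ → 0 < s → s < δ → x + r * ev (φ - s) ∈ S

/-- the set avoids a narrow cone at `x` around the direction `φ` -/
def Clear (x : ℂ) (φ : ℝ) (K : Set ℂ) : Prop :=
  ∃ δ > (0 : ℝ), ∀ r s : ℝ, 0 < r → r < δ → |s| < δ → x + r * ev (φ + s) ∉ K

theorem FanP.mono {x : ℂ} {φ : ℝ} {S T : Set ℂ} (h : FanP x φ S) (hST : S ⊆ T) : FanP x φ T := by
  obtain ⟨δ, h1, h2⟩ := h
  exact ⟨δ, h1, fun r s a b c d => hST (h2 r s a b c d)⟩

theorem FanM.mono {x : ℂ} {φ : ℝ} {S T : Set ℂ} (h : FanM x φ S) (hST : S ⊆ T) : FanM x φ T := by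
  obtain ⟨δ, h1, h2⟩ := h
  exact ⟨δ, h1, fun r s a b c d => hST (h2 r s a b c d)⟩

theorem Clear.union {x : ℂ} {φ : ℝ} {K K' : Set ℂ} (h : Clear x φ K) (h' : Clear x φ K') :
    Clear x φ (K ∪ K') := by
  obtain ⟨δ, h1, h2⟩ := h
  obtain ⟨δ', h1', h2'⟩ := h'
  refine ⟨min δ δ', lt_min h1 h1', fun r s hr hrd hs => ?_⟩
  rintro (h | h)
  · exact h2 r s hr (hrd.trans_le (min_le_left _ _)) (hs.trans_le (min_le_left _ _)) h
  · exact h2' r s hr (hrd.trans_le (min_le_right _ _)) (hs.trans_le (min_le_right _ _)) h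

theorem Clear.mono {x : ℂ} {φ : ℝ} {K K' : Set ℂ} (h : Clear x φ K) (h' : K' ⊆ K) :
    Clear x φ K' := by
  obtain ⟨δ, h1, h2⟩ := h
  exact ⟨δ, h1, fun r s a b c d => h2 r s a b c (h' d)⟩

theorem clear_of_notMem {x : ℂ} {φ : ℝ} {K : Set ℂ} (hK : IsClosed K) (hx : x ∉ K) :
    Clear x φ K := by
  obtain ⟨δ, h1, h2⟩ := Metric.mem_nhds_iff.1 (hK.isOpen_compl.mem_nhds hx)
  refine ⟨δ, h1, fun r s hr hrd _ => h2 ?_⟩
  rw [Metric.mem_ball, dist_eq_norm, add_sub_cancel_left, norm_mul, norm_ev, mul_one,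
    Complex.norm_real, Real.norm_of_nonneg hr.le]
  exact hrd

/-- a set that is near `x` a ray in another direction avoids a narrow cone -/
theorem clear_of_ray {x : ℂ} {φ ψ : ℝ} (h : ev φ ≠ ev ψ) {K : Set ℂ}
    (hK : ∀ᶠ w in 𝓝 x, (w ∈ K → w = x ∨ Ray x w ψ)) : Clear x φ K := by
  obtain ⟨δ, h1, h2⟩ := Metric.eventually_nhds_iff.1 hK
  have h3 : ∀ᶠ s in 𝓝 (0 : ℝ), ev (φ + s) ≠ ev ψ := by
    have hc : Continuous fun s : ℝ => ev (φ + s) := continuous_ev.comp (by fun_prop)
    have := hc.continuousAt (x := 0)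
    refine this.eventually_ne ?_
    simpa using h
  obtain ⟨δ', h1', h2'⟩ := Metric.eventually_nhds_iff.1 h3
  refine ⟨min δ δ', lt_min h1 h1', fun r s hr hrd hs hmem => ?_⟩
  have hd : dist (x + r * ev (φ + s)) x < δ := by
    rw [dist_eq_norm, add_sub_cancel_left, norm_mul, norm_ev, mul_one,
      Complex.norm_real, Real.norm_of_nonneg hr.le]
    exact hrd.trans_le (min_le_left _ _)
  have hne := h2' (y := s) (by rw [dist_zero_right, Real.norm_eq_abs]; exact hs.trans_le (min_le_right _ _))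
  rcases h2 hd hmem with he | he
  · have : Ray x (x + r * ev (φ + s)) (φ + s) := ⟨r, hr, rfl⟩
    exact this.ne he.symm
  · have := he.norm
    rw [add_sub_cancel_left, norm_mul, norm_ev, mul_one, Complex.norm_real,
      Real.norm_of_nonneg hr.le] at this
    have h4 := add_left_cancel this
    exact hne (mul_left_cancel₀ (by exact_mod_cast hr.ne') h4)

/-- the sides of an arc `A` in the complement of `M` -/
def Sides (u v : ℂ) (α β : ℝ) (A M : Set ℂ) : Prop :=
  ∃ L R N : Set ℂ, IsPreconnected L ∧ IsPreconnected R ∧ L ⊆ Mᶜ ∧ R ⊆ Mᶜ ∧ IsOpen N ∧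
    A \ {u, v} ⊆ N ∧ N \ A ⊆ L ∪ R ∧ FanP u α L ∧ FanM u α R ∧ FanM v β L ∧ FanP v β R

/-- a cone criterion -/
theorem cone {x : ℂ} {φ : ℝ} {K : Set ℂ} (h : Clear x φ K) {ρ : ℝ} (hρ : 0 < ρ) :
    ∃ ε > (0 : ℝ), ∀ z : ℂ, 0 < z.re → z.re < ε → |z.im| < ε * z.re →
      x + ρ * ev φ * z ∉ K := by
  obtain ⟨δ, h1, h2⟩ := h
  -- continuity of the argument at 1
  have harg : ∀ᶠ w in 𝓝 (1 : ℂ), |arg w| < δ := by
    have hc : ContinuousAt arg (1 : ℂ) := Complex.continuousAt_arg (Or.inl (by simp))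
    have : Tendsto (fun w => |arg w|) (𝓝 1) (𝓝 |arg 1|) := hc.abs
    rw [Complex.arg_one, abs_zero] at this
    exact this.eventually_lt_const h1
  obtain ⟨η, h3, h4⟩ := Metric.eventually_nhds_iff.1 harg
  refine ⟨min (min η 1) (δ / (2 * ρ)), by positivity, fun z hz hzr hzi => ?_⟩
  have e1 : |z.im| < η * z.re := hzi.trans_le (mul_le_mul_of_nonneg_right
    ((min_le_left _ _).trans (min_le_left _ _)) hz.le)
  have e2 : |z.im| < 1 * z.re := hzi.trans_le (mul_le_mul_of_nonneg_right
    ((min_le_left _ _).trans (min_le_right _ _)) hz.le)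
  have e3 : z.re < δ / (2 * ρ) := hzr.trans_le (min_le_right _ _)
  have hz0 : z ≠ 0 := by
    intro h
    rw [h] at hz; simp at hz
  have harg2 : |arg z| < δ := by
    have h5 : arg z = arg ((z.re⁻¹ : ℝ) * z) := (Complex.arg_real_mul z (inv_pos.2 hz)).symm
    rw [h5]
    apply h4
    rw [dist_eq_norm]
    have : ((z.re⁻¹ : ℝ) : ℂ) * z - 1 = ((z.im / z.re : ℝ) : ℂ) * Complex.I := by
      apply Complex.ext
      · simp; field_simp; simp
      · simp; field_simp
    rw [this, norm_mul, Complex.norm_I, mul_one, Complex.norm_real, Real.norm_eq_abs, abs_div,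
      abs_of_pos hz, div_lt_iff₀ hz]
    exact e1
  have hform : x + ρ * ev φ * z = x + ((ρ * ‖z‖ : ℝ) : ℂ) * ev (φ + arg z) := by
    rw [ev_add]
    conv_lhs => rw [← Complex.norm_mul_exp_arg_mul_I z]
    unfold ev
    push_cast; ring
  rw [hform]
  apply h2 _ _ (by positivity) _ harg2
  have h6 : ‖z‖ ≤ |z.re| + |z.im| := Complex.norm_le_abs_re_add_abs_im z
  rw [abs_of_pos hz] at h6
  have h7 : ‖z‖ < 2 * z.re := by linarith
  calc ρ * ‖z‖ < ρ * (2 * z.re) := by gcongr
    _ < ρ * (2 * (δ / (2 * ρ))) := by gcongr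
    _ = δ := by field_simp

/-- the rhombus around a segment -/
theorem rhombus {u v : ℂ} {α β : ℝ} (ha : Ray u v α) (hb : Ray v u β) {K : Set ℂ}
    (hK : IsClosed K) (hKA : K ∩ segment ℝ u v ⊆ {u, v}) (cu : Clear u α K) (cv : Clear v β K) :
    ∃ ε > (0 : ℝ), ∀ z : ℂ, |z.im| < ε * z.re → |z.im| < ε * (1 - z.re) →
      u + (v - u) * z ∉ K := by
  obtain ⟨ρ, hρ, hv⟩ := ha
  have huv : u ≠ v := Ray.ne ⟨ρ, hρ, hv⟩
  have hvu : v - u = ρ * ev α := by rw [hv]; ring
  have hβ : (u - v : ℂ) = ρ * ev β := by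
    have := hb.norm
    have h2 : ‖u - v‖ = ρ := by
      rw [norm_sub_rev, hvu, norm_mul, norm_ev, mul_one, Complex.norm_real,
        Real.norm_of_nonneg hρ.le]
    rw [h2] at this
    linear_combination this
  obtain ⟨ε₁, hε₁, c1⟩ := cone cu hρ
  obtain ⟨ε₂, hε₂, c2⟩ := cone cv hρ
  let P : Set ℝ → Prop := fun S => ∃ ε > (0 : ℝ), ∀ z : ℂ, z.re ∈ S → |z.im| < ε * z.re →
    |z.im| < ε * (1 - z.re) → u + (v - u) * z ∉ K
  have hP : P (Icc (0 : ℝ) 1) := by
    refine isCompact_Icc.induction_on (p := P) ?_ ?_ ?_ ?_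
    · exact ⟨1, one_pos, fun z hz => absurd hz (Set.notMem_empty _)⟩
    · rintro S T hST ⟨ε, h1, h2⟩
      exact ⟨ε, h1, fun z hz => h2 z (hST hz)⟩
    · rintro S T ⟨ε, h1, h2⟩ ⟨ε', h1', h2'⟩
      refine ⟨min ε ε', lt_min h1 h1', fun z hz z1 z2 => ?_⟩
      have hre : 0 < z.re := by
        by_contra hcon
        push Not at hcon
        have := mul_nonpos_of_nonneg_of_nonpos (lt_min h1 h1').le hcon
        linarith [abs_nonneg z.im]
      have hre' : 0 < 1 - z.re := by
        by_contra hcon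
        push Not at hcon
        have := mul_nonpos_of_nonneg_of_nonpos (lt_min h1 h1').le hcon
        linarith [abs_nonneg z.im]
      rcases hz with hz | hz
      · exact h2 z hz (z1.trans_le (mul_le_mul_of_nonneg_right (min_le_left _ _) hre.le))
          (z2.trans_le (mul_le_mul_of_nonneg_right (min_le_left _ _) hre'.le))
      · exact h2' z hz (z1.trans_le (mul_le_mul_of_nonneg_right (min_le_right _ _) hre.le))
          (z2.trans_le (mul_le_mul_of_nonneg_right (min_le_right _ _) hre'.le))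
    · intro t ht
      rcases ht.1.eq_or_lt with h0 | h0
      · refine ⟨Iio ε₁, mem_nhdsWithin_of_mem_nhds (Iio_mem_nhds (by rw [← h0]; exact hε₁)),
          ε₁, hε₁, fun z hz z1 z2 => ?_⟩
        have hre : 0 < z.re := by
          by_contra hcon
          push Not at hcon
          have := mul_nonpos_of_nonneg_of_nonpos hε₁.le hcon
          linarith [abs_nonneg z.im]
        rw [hvu]
        exact c1 z hre hz z1
      rcases ht.2.eq_or_lt with h1 | h1
      · refine ⟨Ioi (1 - ε₂), mem_nhdsWithin_of_mem_nhds (Ioi_mem_nhds (by rw [h1]; linarith)),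
          ε₂, hε₂, fun z hz z1 z2 => ?_⟩
        have hre' : 0 < 1 - z.re := by
          by_contra hcon
          push Not at hcon
          have := mul_nonpos_of_nonneg_of_nonpos hε₂.le hcon
          linarith [abs_nonneg z.im]
        have hz' : 1 - ε₂ < z.re := hz
        have e : u + (v - u) * z = v + ρ * ev β * (1 - z) := by
          rw [← hβ]; ring
        rw [e]
        apply c2 (1 - z)
        · simpa using hre'
        · simp; linarith
        · simpa using z2
      · -- interior point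
        have hmem : u + (v - u) * (t : ℂ) ∈ segment ℝ u v := by
          rw [segment_eq_image']
          refine ⟨t, ht, ?_⟩
          simp only [Complex.real_smul]; ring
        have hvu0 : v - u ≠ 0 := sub_ne_zero.2 huv.symm
        have hnK : u + (v - u) * (t : ℂ) ∉ K := by
          intro h
          rcases hKA ⟨h, hmem⟩ with h2 | h2
          · have : (v - u) * (t : ℂ) = 0 := by linear_combination h2
            rcases mul_eq_zero.1 this with h3 | h3
            · exact hvu0 h3
            · exact h0.ne' (by exact_mod_cast h3)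
          · have h2' : u + (v - u) * (t : ℂ) = v := h2
            have : (v - u) * ((t : ℂ) - 1) = 0 := by linear_combination h2'
            rcases mul_eq_zero.1 this with h3 | h3
            · exact hvu0 h3
            · have : (t : ℂ) = 1 := by linear_combination h3
              exact h1.ne (by exact_mod_cast this)
        have hcont : ContinuousAt (fun z : ℂ => u + (v - u) * z) (t : ℂ) := by fun_prop
        obtain ⟨η, hη, hη2⟩ := Metric.eventually_nhds_iff.1
          (hcont.eventually (hK.isOpen_compl.mem_nhds hnK))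
        refine ⟨Metric.ball t (η / 2), mem_nhdsWithin_of_mem_nhds (Metric.ball_mem_nhds t
          (by positivity)), η / 2, by positivity, fun z hz z1 z2 => ?_⟩
        apply hη2
        rw [Metric.mem_ball, Real.dist_eq] at hz
        have hz1 : |z.im| < η / 2 := by
          by_contra hcon
          push Not at hcon
          nlinarith [hη]
        rw [dist_eq_norm]
        have h6 := Complex.norm_le_abs_re_add_abs_im (z - t)
        simp only [Complex.sub_re, Complex.ofReal_re, Complex.sub_im, Complex.ofReal_im,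
          sub_zero] at h6
        linarith
  obtain ⟨ε, hε, h⟩ := hP
  refine ⟨ε, hε, fun z z1 z2 => h z ⟨?_, ?_⟩ z1 z2⟩
  · by_contra hcon
    push Not at hcon
    have := mul_nonpos_of_nonneg_of_nonpos hε.le hcon.le
    linarith [abs_nonneg z.im]
  · by_contra hcon
    push Not at hcon
    have := mul_nonpos_of_nonneg_of_nonpos hε.le (by linarith : 1 - z.re ≤ 0)
    linarith [abs_nonneg z.im]

theorem ev_re (s : ℝ) : (ev s).re = Real.cos s := Complex.exp_ofReal_mul_I_re s

theorem ev_im (s : ℝ) : (ev s).im = Real.sin s := Complex.exp_ofReal_mul_I_im s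

/-- small fans in a thin triangle -/
theorem tri {ε : ℝ} (hε : 0 < ε) : ∃ δ > (0 : ℝ), ∀ r s : ℝ, 0 < r → r < δ → 0 < s → s < δ →
    0 < r * Real.sin s ∧ r * Real.sin s < ε * (r * Real.cos s) ∧
      r * Real.sin s < ε * (1 - r * Real.cos s) := by
  have h1 : ∀ᶠ s in 𝓝 (0 : ℝ), Real.sin s < ε * Real.cos s := by
    have c1 : ContinuousAt Real.sin 0 := Real.continuous_sin.continuousAt
    have c2 : ContinuousAt (fun s => ε * Real.cos s) 0 := by fun_prop
    exact c1.eventually_lt c2 (by simpa using hε)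
  obtain ⟨η, hη, h2⟩ := Metric.eventually_nhds_iff.1 h1
  refine ⟨min η (min 1 (ε / (1 + ε))), by positivity, fun r s hr hrd hs hsd => ?_⟩
  have h3 : s < η := hsd.trans_le (min_le_left _ _)
  have h4 : s < 1 := hsd.trans_le ((min_le_right _ _).trans (min_le_left _ _))
  have h5 : r < ε / (1 + ε) := hrd.trans_le ((min_le_right _ _).trans (min_le_right _ _))
  have hsin : 0 < Real.sin s := Real.sin_pos_of_pos_of_lt_pi hs (by linarith [Real.pi_gt_three])
  have h6 := h2 (y := s) (by rw [dist_zero_right, Real.norm_eq_abs, abs_of_pos hs]; exact h3)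
  refine ⟨by positivity, ?_, ?_⟩
  · calc r * Real.sin s < r * (ε * Real.cos s) := by gcongr
      _ = ε * (r * Real.cos s) := by ring
  · have h7 : r * (1 + ε) < ε := (lt_div_iff₀ (by positivity)).1 h5
    have h8 : r * Real.sin s ≤ r * 1 := by gcongr; exact Real.sin_le_one s
    have h9 : r * Real.cos s ≤ r * 1 := by gcongr; exact Real.cos_le_one s
    nlinarith

/-- the sides of a segment -/
theorem seg_sides {u v : ℂ} {α β : ℝ} (ha : Ray u v α) (hb : Ray v u β) {K : Set ℂ}
    (hK : IsClosed K) (hKA : K ∩ segment ℝ u v ⊆ {u, v}) (cu : Clear u α K) (cv : Clear v β K) :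
    Sides u v α β (segment ℝ u v) (segment ℝ u v ∪ K) := by
  obtain ⟨ε, hε, hrh⟩ := rhombus ha hb hK hKA cu cv
  obtain ⟨ρ, hρ, hv⟩ := ha
  have huv : u ≠ v := Ray.ne ⟨ρ, hρ, hv⟩
  have hvu0 : v - u ≠ 0 := sub_ne_zero.2 huv.symm
  have hρ0 : (ρ : ℂ) ≠ 0 := by exact_mod_cast hρ.ne'
  have hvu : v - u = ρ * ev α := by rw [hv]; ring
  have hβ : (u - v : ℂ) = ρ * ev β := by
    have := hb.norm
    have h2 : ‖u - v‖ = ρ := by
      rw [norm_sub_rev, hvu, norm_mul, norm_ev, mul_one, Complex.norm_real,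
        Real.norm_of_nonneg hρ.le]
    rw [h2] at this
    linear_combination this
  obtain ⟨δ, hδ, htri⟩ := tri hε
  set f : ℂ → ℂ := fun z => u + (v - u) * z with hf
  set g : ℂ → ℂ := fun w => (w - u) / (v - u) with hg
  have hfg : ∀ w, f (g w) = w := fun w => by simp only [hf, hg]; field_simp; ring
  have hgf : ∀ z, g (f z) = z := fun z => by simp only [hf, hg]; field_simp; ring
  have hfc : Continuous f := by fun_prop
  have hgc : Continuous g := by fun_prop
  have hseg : ∀ z : ℂ, f z ∈ segment ℝ u v → z.im = 0 := by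
    intro z hz
    rw [segment_eq_image'] at hz
    obtain ⟨t, ht, he⟩ := hz
    have h1 : f (t : ℂ) = f z := by
      rw [← he]; simp only [hf, Complex.real_smul]; ring
    have h2 := congrArg g h1
    rw [hgf, hgf] at h2
    rw [← h2]; simp
  have hseg' : ∀ z : ℂ, z.im = 0 → 0 ≤ z.re → z.re ≤ 1 → f z ∈ segment ℝ u v := by
    intro z h0 h1 h2
    rw [segment_eq_image']
    refine ⟨z.re, ⟨h1, h2⟩, ?_⟩
    simp only [hf, Complex.real_smul]
    have : ((z.re : ℝ) : ℂ) = z := by apply Complex.ext <;> simp [h0]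
    rw [this]; ring
  set TP : Set ℂ := {z | 0 < z.im ∧ z.im < ε * z.re ∧ z.im < ε * (1 - z.re)} with hTP
  set TM : Set ℂ := {z | z.im < 0 ∧ - z.im < ε * z.re ∧ - z.im < ε * (1 - z.re)} with hTM
  have convP : Convex ℝ TP := by
    intro x hx y hy a b ha hb hab
    simp only [hTP, Set.mem_ofPred_eq] at hx hy ⊢
    simp only [Complex.add_im, Complex.add_re, Complex.real_smul, Complex.mul_im, Complex.mul_re,
      Complex.ofReal_re, Complex.ofReal_im, zero_mul, add_zero, sub_zero]
    obtain ⟨x1, x2, x3⟩ := hx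
    obtain ⟨y1, y2, y3⟩ := hy
    rcases ha.eq_or_lt with h0 | h0
    · have : b = 1 := by linarith
      rw [← h0, this]
      simp only [zero_mul, one_mul, zero_add]
      exact ⟨y1, y2, y3⟩
    · have q1 := mul_pos h0 (sub_pos.2 x2)
      have q2 := mul_nonneg hb (sub_pos.2 y2).le
      have q3 := mul_pos h0 (sub_pos.2 x3)
      have q4 := mul_nonneg hb (sub_pos.2 y3).le
      refine ⟨?_, ?_, ?_⟩
      · have := mul_pos h0 x1
        have := mul_nonneg hb y1.le
        linarith
      · nlinarith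
      · have : b = 1 - a := by linarith
        subst this
        nlinarith
  have convM : Convex ℝ TM := by
    intro x hx y hy a b ha hb hab
    simp only [hTM, Set.mem_ofPred_eq] at hx hy ⊢
    simp only [Complex.add_im, Complex.add_re, Complex.real_smul, Complex.mul_im, Complex.mul_re,
      Complex.ofReal_re, Complex.ofReal_im, zero_mul, add_zero, sub_zero]
    obtain ⟨x1, x2, x3⟩ := hx
    obtain ⟨y1, y2, y3⟩ := hy
    rcases ha.eq_or_lt with h0 | h0
    · have : b = 1 := by linarith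
      rw [← h0, this]
      simp only [zero_mul, one_mul, zero_add]
      exact ⟨y1, y2, y3⟩
    · have q1 := mul_pos h0 (sub_pos.2 x2)
      have q2 := mul_nonneg hb (sub_pos.2 y2).le
      have q3 := mul_pos h0 (sub_pos.2 x3)
      have q4 := mul_nonneg hb (sub_pos.2 y3).le
      refine ⟨?_, ?_, ?_⟩
      · have := mul_pos h0 (neg_pos.2 x1)
        have := mul_nonneg hb (neg_pos.2 y1).le
        linarith
      · nlinarith
      · have : b = 1 - a := by linarith
        subst this
        nlinarith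
  refine ⟨f '' TP, f '' TM, {w | |(g w).im| < ε * (g w).re ∧ |(g w).im| < ε * (1 - (g w).re)},
    convP.isPreconnected.image f hfc.continuousOn, convM.isPreconnected.image f hfc.continuousOn,
    ?_, ?_, ?_, ?_, ?_, ?_, ?_, ?_, ?_⟩
  · rintro _ ⟨z, ⟨z1, z2, z3⟩, rfl⟩ hmem
    rcases hmem with hmem | hmem
    · exact z1.ne' (hseg z hmem)
    · exact hrh z (by rw [abs_of_pos z1]; exact z2) (by rw [abs_of_pos z1]; exact z3) hmem
  · rintro _ ⟨z, ⟨z1, z2, z3⟩, rfl⟩ hmem
    rcases hmem with hmem | hmem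
    · exact z1.ne (hseg z hmem)
    · exact hrh z (by rw [abs_of_neg z1]; exact z2) (by rw [abs_of_neg z1]; exact z3) hmem
  · have c1 : Continuous fun w => |(g w).im| := (Complex.continuous_im.comp hgc).abs
    have c2 : Continuous fun w => ε * (g w).re :=
      continuous_const.mul (Complex.continuous_re.comp hgc)
    have c3 : Continuous fun w => ε * (1 - (g w).re) :=
      continuous_const.mul (continuous_const.sub (Complex.continuous_re.comp hgc))
    exact (isOpen_lt c1 c2).inter (isOpen_lt c1 c3)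
  · rintro w ⟨hw, hn⟩
    rw [← hfg w] at hw
    have h0 := hseg _ hw
    rw [segment_eq_image'] at hw
    obtain ⟨t, ht, he⟩ := hw
    have h1 : f (t : ℂ) = f (g w) := by
      rw [← he]; simp only [hf, Complex.real_smul]; ring
    have h2 := congrArg g h1
    rw [hgf, hgf] at h2
    have hre : (g w).re = t := by rw [← h2]; simp
    have ht0 : 0 < t := by
      rcases ht.1.eq_or_lt with h | h
      · exfalso; apply hn; left
        rw [← hfg w, ← h2, ← h]; simp [hf]
      · exact h
    have ht1 : t < 1 := by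
      rcases ht.2.eq_or_lt with h | h
      · exfalso; apply hn; right
        rw [← hfg w, ← h2, h]; simp [hf]
      · exact h
    change |(g w).im| < ε * (g w).re ∧ |(g w).im| < ε * (1 - (g w).re)
    rw [h0, hre, abs_zero]
    exact ⟨mul_pos hε ht0, mul_pos hε (by linarith)⟩
  · rintro w ⟨⟨h1, h2⟩, hn⟩
    rcases lt_trichotomy (g w).im 0 with h | h | h
    · right
      refine ⟨g w, ⟨h, ?_, ?_⟩, hfg w⟩
      · rw [← abs_of_neg h]; exact h1
      · rw [← abs_of_neg h]; exact h2
    · exfalso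
      apply hn
      rw [h, abs_zero] at h1 h2
      rw [← hfg w]
      refine hseg' _ h ?_ ?_
      · exact ((mul_pos_iff_of_pos_left hε).1 h1).le
      · have := (mul_pos_iff_of_pos_left hε).1 h2
        linarith
    · left
      refine ⟨g w, ⟨h, ?_, ?_⟩, hfg w⟩
      · rw [← abs_of_pos h]; exact h1
      · rw [← abs_of_pos h]; exact h2
  all_goals
    refine ⟨min δ (δ * ρ), by positivity, fun r s hr hrd hs hsd => ?_⟩
    have hr' : r / ρ < δ := (div_lt_iff₀ hρ).2 (hrd.trans_le (min_le_right _ _))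
    obtain ⟨t1, t2, t3⟩ := htri (r / ρ) s (by positivity) hr' hs (hsd.trans_le (min_le_left _ _))
  · refine ⟨((r / ρ : ℝ) : ℂ) * ev s, ?_, ?_⟩
    · simp only [hTP, Set.mem_ofPred_eq, Complex.re_ofReal_mul, Complex.im_ofReal_mul, ev_re, ev_im]
      exact ⟨t1, t2, t3⟩
    · simp only [hf]; rw [hvu, ev_add]; push_cast; field_simp
  · refine ⟨((r / ρ : ℝ) : ℂ) * ev (-s), ?_, ?_⟩
    · simp only [hTM, Set.mem_ofPred_eq, Complex.re_ofReal_mul, Complex.im_ofReal_mul, ev_re, ev_im,
        Real.sin_neg, Real.cos_neg]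
      refine ⟨by linarith, by linarith, by linarith⟩
    · simp only [hf]; rw [hvu, sub_eq_add_neg, ev_add]; push_cast; field_simp
  · refine ⟨1 - ((r / ρ : ℝ) : ℂ) * ev (-s), ?_, ?_⟩
    · simp only [hTP, Set.mem_ofPred_eq, Complex.sub_re, Complex.sub_im, Complex.one_re, Complex.one_im,
        Complex.re_ofReal_mul, Complex.im_ofReal_mul, ev_re, ev_im, Real.sin_neg, Real.cos_neg]
      refine ⟨by linarith, by linarith, by linarith⟩
    · have e : f (1 - ((r / ρ : ℝ) : ℂ) * ev (-s)) = v + ((r / ρ : ℝ) : ℂ) * (u - v) * ev (-s) := by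
        simp only [hf]; ring
      rw [e, hβ, sub_eq_add_neg, ev_add]; push_cast; field_simp
  · refine ⟨1 - ((r / ρ : ℝ) : ℂ) * ev s, ?_, ?_⟩
    · simp only [hTM, Set.mem_ofPred_eq, Complex.sub_re, Complex.sub_im, Complex.one_re, Complex.one_im,
        Complex.re_ofReal_mul, Complex.im_ofReal_mul, ev_re, ev_im]
      refine ⟨by linarith, by linarith, by linarith⟩
    · have e : f (1 - ((r / ρ : ℝ) : ℂ) * ev s) = v + ((r / ρ : ℝ) : ℂ) * (u - v) * ev s := by
        simp only [hf]; ring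
      rw [e, hβ, ev_add]; push_cast; field_simp

theorem ev_eq_iff {a b : ℝ} : ev a = ev b ↔ ∃ n : ℤ, a = b + n * (2 * Real.pi) := by
  unfold ev
  rw [Complex.exp_eq_exp_iff_exists_int]
  constructor
  · rintro ⟨n, hn⟩
    refine ⟨n, ?_⟩
    have h := congrArg Complex.im hn
    simp at h
    exact h
  · rintro ⟨n, rfl⟩
    exact ⟨n, by push_cast; ring⟩

theorem ev_ne_of_lt {a b : ℝ} (h1 : a < b) (h2 : b < a + 2 * Real.pi) : ev b ≠ ev a := by
  intro h
  obtain ⟨n, hn⟩ := ev_eq_iff.1 h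
  have hπ := Real.pi_pos
  have h3 : (0 : ℝ) < n := by
    by_contra hcon
    push Not at hcon
    nlinarith
  have h4 : (n : ℝ) < 1 := by
    by_contra hcon
    push Not at hcon
    nlinarith
  have h5 : 0 < n := by exact_mod_cast h3
  have h6 : n < 1 := by exact_mod_cast h4
  omega

/-- shifting an angle into `[a, a + 2π)` -/
theorem exists_shift (a b : ℝ) : ∃ b', ev b' = ev b ∧ a ≤ b' ∧ b' < a + 2 * Real.pi := by
  have h := toIcoMod_mem_Ico Real.two_pi_pos a b
  refine ⟨toIcoMod Real.two_pi_pos a b, ?_, h.1, h.2⟩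
  rw [ev_eq_iff]
  refine ⟨-toIcoDiv Real.two_pi_pos a b, ?_⟩
  rw [toIcoMod]
  simp only [zsmul_eq_mul]
  push_cast
  ring

/-- an open sector -/
def Sector (p : ℂ) (a b δ : ℝ) : Set ℂ :=
  {w | ∃ r t : ℝ, 0 < r ∧ r < δ ∧ a < t ∧ t < b ∧ w = p + r * ev t}

theorem sector_preconnected (p : ℂ) (a b δ : ℝ) : IsPreconnected (Sector p a b δ) := by
  have h : Sector p a b δ = (fun q : ℝ × ℝ => p + q.1 * ev q.2) '' (Ioo 0 δ ×ˢ Ioo a b) := by
    ext w
    constructor
    · rintro ⟨r, t, h1, h2, h3, h4, rfl⟩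
      exact ⟨(r, t), ⟨⟨h1, h2⟩, ⟨h3, h4⟩⟩, rfl⟩
    · rintro ⟨⟨r, t⟩, ⟨⟨h1, h2⟩, ⟨h3, h4⟩⟩, rfl⟩
      exact ⟨r, t, h1, h2, h3, h4, rfl⟩
  rw [h]
  refine ((isPreconnected_Ioo.prod isPreconnected_Ioo).image _ ?_)
  have := continuous_ev
  exact (by fun_prop : Continuous fun q : ℝ × ℝ => p + (q.1 : ℂ) * ev q.2).continuousOn

theorem sector_fanP {p : ℂ} {a b δ : ℝ} (hab : a < b) (hδ : 0 < δ) : FanP p a (Sector p a b δ) :=
  ⟨min δ (b - a), lt_min hδ (by linarith), fun r s hr hrd hs hsd =>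
    ⟨r, a + s, hr, hrd.trans_le (min_le_left _ _), by linarith,
      by linarith [hsd.trans_le (min_le_right δ (b - a))], rfl⟩⟩

theorem sector_fanM {p : ℂ} {a b δ : ℝ} (hab : a < b) (hδ : 0 < δ) : FanM p b (Sector p a b δ) :=
  ⟨min δ (b - a), lt_min hδ (by linarith), fun r s hr hrd hs hsd =>
    ⟨r, b - s, hr, hrd.trans_le (min_le_left _ _), by
      linarith [hsd.trans_le (min_le_right δ (b - a))], by linarith, rfl⟩⟩

theorem FanP.congr {p : ℂ} {a b : ℝ} {S : Set ℂ} (h : FanP p a S) (hab : ev a = ev b) :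
    FanP p b S := by
  obtain ⟨δ, h1, h2⟩ := h
  refine ⟨δ, h1, fun r s q1 q2 q3 q4 => ?_⟩
  rw [ev_add, ← hab, ← ev_add]
  exact h2 r s q1 q2 q3 q4

theorem FanM.congr {p : ℂ} {a b : ℝ} {S : Set ℂ} (h : FanM p a S) (hab : ev a = ev b) :
    FanM p b S := by
  obtain ⟨δ, h1, h2⟩ := h
  refine ⟨δ, h1, fun r s q1 q2 q3 q4 => ?_⟩
  rw [sub_eq_add_neg, ev_add, ← hab, ← ev_add, ← sub_eq_add_neg]
  exact h2 r s q1 q2 q3 q4

theorem fanP_common {p : ℂ} {a : ℝ} {S T : Set ℂ} (hS : FanP p a S) (hT : FanP p a T) :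
    (S ∩ T).Nonempty := by
  obtain ⟨δ, h1, h2⟩ := hS
  obtain ⟨δ', h1', h2'⟩ := hT
  have h : 0 < min δ δ' := lt_min h1 h1'
  have l1 := min_le_left δ δ'
  have l2 := min_le_right δ δ'
  exact ⟨_, h2 (min δ δ' / 2) (min δ δ' / 2) (by linarith) (by linarith) (by linarith)
    (by linarith), h2' (min δ δ' / 2) (min δ δ' / 2) (by linarith) (by linarith) (by linarith)
    (by linarith)⟩

theorem fanM_common {p : ℂ} {a : ℝ} {S T : Set ℂ} (hS : FanM p a S) (hT : FanM p a T) :
    (S ∩ T).Nonempty := by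
  obtain ⟨δ, h1, h2⟩ := hS
  obtain ⟨δ', h1', h2'⟩ := hT
  have h : 0 < min δ δ' := lt_min h1 h1'
  have l1 := min_le_left δ δ'
  have l2 := min_le_right δ δ'
  exact ⟨_, h2 (min δ δ' / 2) (min δ δ' / 2) (by linarith) (by linarith) (by linarith)
    (by linarith), h2' (min δ δ' / 2) (min δ δ' / 2) (by linarith) (by linarith) (by linarith)
    (by linarith)⟩

theorem union_pre {S T : Set ℂ} (h : (S ∩ T).Nonempty) (hS : IsPreconnected S)
    (hT : IsPreconnected T) : IsPreconnected (S ∪ T) := by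
  obtain ⟨x, h1, h2⟩ := h
  exact IsPreconnected.union x h1 h2 hS hT

/-- two rays cut a neighbourhood of a point into two sectors -/
theorem bend {p : ℂ} {a b : ℝ} (hab : ev a ≠ ev b) {M : Set ℂ}
    (hM : ∀ᶠ w in 𝓝 p, (w ∈ M ↔ w = p ∨ Ray p w a ∨ Ray p w b)) :
    ∃ δ > (0 : ℝ), ∃ b', ev b' = ev b ∧ a < b' ∧ b' < a + 2 * Real.pi ∧
      Sector p a b' δ ⊆ Mᶜ ∧ Sector p b' (a + 2 * Real.pi) δ ⊆ Mᶜ ∧
      Metric.ball p δ \ M ⊆ Sector p a b' δ ∪ Sector p b' (a + 2 * Real.pi) δ := by
  obtain ⟨δ, hδ, h⟩ := Metric.eventually_nhds_iff.1 hM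
  obtain ⟨b', hb', h1, h2⟩ := exists_shift a b
  have h1' : a < b' := by
    rcases h1.eq_or_lt with h | h
    · exfalso; apply hab; rw [← hb', ← h]
    · exact h
  have hdist : ∀ (r t : ℝ), 0 < r → r < δ → dist (p + r * ev t) p < δ := by
    intro r t hr hrd
    rw [dist_eq_norm, add_sub_cancel_left, norm_mul, norm_ev, mul_one,
      Complex.norm_real, Real.norm_of_nonneg hr.le]
    exact hrd
  have hray : ∀ (r t c : ℝ), 0 < r → Ray p (p + r * ev t) c → ev t = ev c := by
    intro r t c hr hR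
    have := hR.norm
    rw [add_sub_cancel_left, norm_mul, norm_ev, mul_one, Complex.norm_real,
      Real.norm_of_nonneg hr.le] at this
    exact mul_left_cancel₀ (by exact_mod_cast hr.ne') (add_left_cancel this)
  refine ⟨δ, hδ, b', hb', h1', h2, ?_, ?_, ?_⟩
  · rintro w ⟨r, t, hr, hrd, ht1, ht2, rfl⟩ hmem
    rcases (h (hdist r t hr hrd)).1 hmem with h3 | h3 | h3
    · exact (Ray.ne ⟨r, hr, rfl⟩ : p ≠ p + r * ev t) h3.symm
    · exact ev_ne_of_lt ht1 (by linarith) (hray r t a hr h3)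
    · have := hray r t b hr h3
      rw [← hb'] at this
      exact ev_ne_of_lt ht2 (by linarith) this.symm
  · rintro w ⟨r, t, hr, hrd, ht1, ht2, rfl⟩ hmem
    rcases (h (hdist r t hr hrd)).1 hmem with h3 | h3 | h3
    · exact (Ray.ne ⟨r, hr, rfl⟩ : p ≠ p + r * ev t) h3.symm
    · exact ev_ne_of_lt (by linarith) ht2 (hray r t a hr h3)
    · have := hray r t b hr h3
      rw [← hb'] at this
      exact ev_ne_of_lt ht1 (by linarith) this
  · rintro w ⟨hw, hn⟩
    have hwM := (h hw).not.1 hn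
    push Not at hwM
    obtain ⟨n1, n2, n3⟩ := hwM
    obtain ⟨t₀, ht₀⟩ := exists_ray (Ne.symm n1)
    obtain ⟨t, ht, ht1, ht2⟩ := exists_shift a t₀
    have hw2 : w = p + (‖w - p‖ : ℝ) * ev t := by rw [ht]; exact ht₀.norm
    have hpos : 0 < ‖w - p‖ := norm_pos_iff.2 (sub_ne_zero.2 n1)
    have hlt : ‖w - p‖ < δ := by rw [← dist_eq_norm]; exact hw
    rcases ht1.eq_or_lt with h4 | h4
    · exact absurd ⟨_, hpos, by rw [h4]; exact hw2⟩ n2
    · rcases lt_trichotomy t b' with h5 | h5 | h5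
      · exact Or.inl ⟨_, t, hpos, hlt, h4, h5, hw2⟩
      · exact absurd ⟨_, hpos, by rw [← hb', ← h5]; exact hw2⟩ n3
      · exact Or.inr ⟨_, t, hpos, hlt, h5, ht2, hw2⟩

/-- the sides of a simple polygonal arc -/
theorem PA.sides {u v : ℂ} {α β : ℝ} {A : Set ℂ} (h : PA u v α β A) : ∀ {K : Set ℂ},
    IsClosed K → K ∩ A ⊆ {u, v} → Clear u α K → Clear v β K → Sides u v α β A (A ∪ K) := by
  induction h with
  | seg u v α β ha hb => intro K hK hKA cu cv; exact seg_sides ha hb hK hKA cu cv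
  | cons u p v α α' β A ha hA hi ih =>
    intro K hK hKA cu cv
    have hsegc : IsClosed (segment ℝ u p) := by
      rw [segment_eq_image']; exact (isCompact_Icc.image (by fun_prop)).isClosed
    have hup : u ≠ p := ha.ne
    have hpv : p ≠ v := hA.ne
    have huA : u ∉ A := fun hu => hup (hi ⟨left_mem_segment ℝ _ _, hu⟩)
    have hvs : v ∉ segment ℝ u p := fun hv => hpv (hi ⟨hv, hA.right_mem⟩).symm
    have huv : u ≠ v := fun h => hvs (h ▸ left_mem_segment ℝ _ _)
    have hpK : p ∉ K := fun hp => by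
      rcases hKA ⟨hp, Or.inl (right_mem_segment ℝ _ _)⟩ with h | h
      · exact hup h.symm
      · exact hpv h
    -- the direction back from p to u
    set β₁ : ℝ := α + Real.pi with hβ₁
    have hb : Ray p u β₁ := ha.symm
    have hne : ev α' ≠ ev β₁ := by
      intro he
      have g1 := seg_germ hb
      have g2 := hA.germ
      obtain ⟨δ, hδ, hg⟩ := Metric.eventually_nhds_iff.1 (g1.and g2)
      have hd : dist (p + ((δ / 2 : ℝ) : ℂ) * ev α') p < δ := by
        rw [dist_eq_norm, add_sub_cancel_left, norm_mul, norm_ev, mul_one,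
          Complex.norm_real, Real.norm_of_nonneg (by positivity)]
        linarith
      obtain ⟨q1, q2⟩ := hg hd
      have hr : Ray p (p + ((δ / 2 : ℝ) : ℂ) * ev α') α' := ⟨δ / 2, by positivity, rfl⟩
      have hr' : Ray p (p + ((δ / 2 : ℝ) : ℂ) * ev α') β₁ := ⟨δ / 2, by positivity, by rw [he]⟩
      have m1 := q1.2 (Or.inr hr')
      rw [segment_symm] at m1
      have m2 := q2.2 (Or.inr hr)
      exact hr.ne (hi ⟨m1, m2⟩).symm
    -- the segment
    have s1 : Sides u p α β₁ (segment ℝ u p) (segment ℝ u p ∪ (K ∪ A)) := by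
      refine seg_sides ha hb (hK.union hA.isClosed) ?_ ?_ ?_
      · rintro x ⟨hx | hx, hx'⟩
        · rcases hKA ⟨hx, Or.inl hx'⟩ with h | h
          · exact Or.inl h
          · exact absurd (h ▸ hx') hvs
        · exact Or.inr (hi ⟨hx', hx⟩)
      · exact cu.union (clear_of_notMem hA.isClosed huA)
      · exact (clear_of_notMem hK hpK).union (clear_of_ray hne.symm
          (hA.germ.mono fun w hw => hw.1))
    -- the rest
    have s2 : Sides p v α' β A (A ∪ (K ∪ segment ℝ u p)) := by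
      refine ih (hK.union hsegc) ?_ ?_ ?_
      · rintro x ⟨hx | hx, hx'⟩
        · rcases hKA ⟨hx, Or.inr hx'⟩ with h | h
          · exact absurd (h ▸ hx') huA
          · exact Or.inr h
        · exact Or.inl (hi ⟨hx, hx'⟩)
      · refine (clear_of_notMem hK hpK).union (clear_of_ray hne ?_)
        have := seg_germ hb
        rw [segment_symm]
        exact this.mono fun w hw => hw.1
      · exact cv.union (clear_of_notMem hsegc hvs)
    have hM1 : segment ℝ u p ∪ (K ∪ A) = (segment ℝ u p ∪ A) ∪ K := by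
      rw [union_comm K A, ← union_assoc]
    have hM2 : A ∪ (K ∪ segment ℝ u p) = (segment ℝ u p ∪ A) ∪ K := by
      rw [union_comm K, ← union_assoc, union_comm A]
    rw [hM1] at s1
    rw [hM2] at s2
    set M := (segment ℝ u p ∪ A) ∪ K with hM
    have hgerm : ∀ᶠ w in 𝓝 p, (w ∈ M ↔ w = p ∨ Ray p w α' ∨ Ray p w β₁) := by
      have g1 := seg_germ hb
      rw [segment_symm] at g1
      filter_upwards [g1, hA.germ, hK.isOpen_compl.mem_nhds hpK] with w h1 h2 h3
      rw [hM, mem_union, mem_union, h1, h2]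
      have : w ∉ K := h3
      tauto
    obtain ⟨δ, hδ, b', hb', hab, hb2, hL, hR, hball⟩ := bend hne hgerm
    obtain ⟨L₁, R₁, N₁, p1, p2, p3, p4, p5, p6, p7, p8, p9, p10, p11⟩ := s1
    obtain ⟨L₂, R₂, N₂, q1, q2, q3, q4, q5, q6, q7, q8, q9, q10, q11⟩ := s2
    have c1 : IsPreconnected (Sector p α' b' δ ∪ L₂) :=
      union_pre (fanP_common (sector_fanP hab hδ) q8) (sector_preconnected _ _ _ _) q1
    have c2 : IsPreconnected (L₁ ∪ (Sector p α' b' δ ∪ L₂)) :=
      union_pre (fanM_common p10 (((sector_fanM hab hδ).congr hb').mono subset_union_left)) p1 c1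
    have c3 : IsPreconnected (Sector p b' (α' + 2 * Real.pi) δ ∪ R₂) :=
      union_pre (fanM_common ((sector_fanM hb2 hδ).congr (ev_two_pi _)) q9)
        (sector_preconnected _ _ _ _) q2
    have c4 : IsPreconnected (R₁ ∪ (Sector p b' (α' + 2 * Real.pi) δ ∪ R₂)) :=
      union_pre (fanP_common p11 (((sector_fanP hb2 hδ).congr hb').mono subset_union_left)) p2 c3
    refine ⟨_, _, N₁ ∪ ((Metric.ball p δ ∩ Kᶜ) ∪ N₂), c2, c4, ?_, ?_, ?_, ?_, ?_, ?_, ?_, ?_, ?_⟩
    · exact union_subset p3 (union_subset hL q3)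
    · exact union_subset p4 (union_subset hR q4)
    · exact p5.union ((Metric.isOpen_ball.inter hK.isOpen_compl).union q5)
    · rintro x ⟨hx, hxn⟩
      by_cases hxp : x = p
      · right; left; rw [hxp]; exact ⟨Metric.mem_ball_self hδ, hpK⟩
      · rcases hx with hx | hx
        · left
          refine p6 ⟨hx, ?_⟩
          rintro (h | h)
          · exact hxn (Or.inl h)
          · exact hxp h
        · right; right
          refine q6 ⟨hx, ?_⟩
          rintro (h | h)
          · exact hxp h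
          · exact hxn (Or.inr h)
    · rintro x ⟨hx, hxn⟩
      have n1 : x ∉ segment ℝ u p := fun h => hxn (Or.inl h)
      have n2 : x ∉ A := fun h => hxn (Or.inr h)
      rcases hx with hx | hx | hx
      · rcases p7 ⟨hx, n1⟩ with h | h
        · exact Or.inl (Or.inl h)
        · exact Or.inr (Or.inl h)
      · have hxM : x ∉ M := by
          rintro (h | h)
          · exact hxn h
          · exact hx.2 h
        rcases hball ⟨hx.1, hxM⟩ with h | h
        · exact Or.inl (Or.inr (Or.inl h))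
        · exact Or.inr (Or.inr (Or.inl h))
      · rcases q7 ⟨hx, n2⟩ with h | h
        · exact Or.inl (Or.inr (Or.inr h))
        · exact Or.inr (Or.inr (Or.inr h))
    · exact p8.mono subset_union_left
    · exact p9.mono subset_union_left
    · exact q10.mono (subset_union_right.trans subset_union_right)
    · exact q11.mono (subset_union_right.trans subset_union_right)

end Pool.Agent.H119.Sefe
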