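import Pool.Graph.R_seed8.H858R3.Cross
import Pool.Agent.H119.Sefe.Side
import Pool.Agent.H119.Sefe.Alg

/-!
# The crossing number of two arcs modulo two from the variations of the argument
-/

set_option autoImplicit false

namespace Pool.Agent.H119.Sefe

open Set Complex Topology Filter Pool.Agent.H858R3.Lift Pool.Agent.H858R3.Cross
open Pool.Agent.TH510.Sefe (IsProperCrossing)

/-- clamping to the unit interval -/
noncomputable def cl (t : ℝ) : ℝ := max 0 (min t 1)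

theorem cl_nonneg (t : ℝ) : 0 ≤ cl t := le_max_left _ _

theorem cl_le (t : ℝ) : cl t ≤ 1 := max_le zero_le_one (min_le_right _ _)

theorem cl_zero : cl 0 = 0 := by simp [cl]

theorem cl_one : cl 1 = 1 := by simp [cl]

theorem cl_pos {t : ℝ} (h : 0 < t) : 0 < cl t := lt_max_of_lt_right (lt_min h one_pos)

theorem le_zero_of_cl {t : ℝ} (h : cl t = 0) : t ≤ 0 := by
  by_contra hcon
  push Not at hcon
  exact (cl_pos hcon).ne' h

theorem continuous_cl : Continuous cl := by unfold cl; fun_prop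

/-- the part of a curve between two parameters -/
noncomputable def sub (X : ℝ → ℂ) (a b : ℝ) : ℝ → ℂ := fun t => X (a + (b - a) * cl t)

theorem sub_cont {X : ℝ → ℂ} (hX : Continuous X) (a b : ℝ) : Continuous (sub X a b) := by
  have := continuous_cl
  unfold sub; fun_prop

theorem sub_zero' (X : ℝ → ℂ) (a b : ℝ) : sub X a b 0 = X a := by simp [sub, cl_zero]

theorem sub_one' (X : ℝ → ℂ) (a b : ℝ) : sub X a b 1 = X b := by simp [sub, cl_one]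

theorem par_mem {a b c d : ℝ} (_hcd : c ≤ d) (ha : a ∈ Icc c d) (hb : b ∈ Icc c d) (t : ℝ) :
    a + (b - a) * cl t ∈ Icc c d := by
  have h0 := cl_nonneg t
  have h1 := cl_le t
  have e : a + (b - a) * cl t = (1 - cl t) * a + cl t * b := by ring
  rw [e]
  exact (convex_Icc c d) ha hb (by linarith) h0 (by ring)

/-- a primitive for the variations of the argument seen from a point -/
theorem exists_primitive {Y : ℝ → ℂ} (hY : Continuous Y) {c d : ℝ} (hcd : c ≤ d) {z : ℂ}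
    (hz : ∀ t ∈ Icc c d, Y t ≠ z) :
    ∃ ℓ : ℝ → ℂ, ∀ u ∈ Icc c d, ∀ v ∈ Icc c d, al z (sub Y u v) = ℓ v - ℓ u := by
  have hcc : Continuous fun t : ℝ => max c (min t d) := by fun_prop
  have hmem : ∀ t : ℝ, max c (min t d) ∈ Icc c d := fun t =>
    ⟨le_max_left _ _, max_le hcd (min_le_right _ _)⟩
  obtain ⟨L, hL, hexp⟩ := lift1 (g := fun t => Y (max c (min t d)) - z) (by fun_prop)
    (fun t => sub_ne_zero.2 (hz _ (hmem t)))
  refine ⟨L, fun u hu v hv => ?_⟩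
  have key := lv_eq (g := fun t => sub Y u v t - z) (L := fun t => L (u + (v - u) * cl t))
    (by have := continuous_cl; fun_prop) (fun t => by
      rw [hexp]
      have h1 := par_mem hcd hu hv t
      have : max c (min (u + (v - u) * cl t) d) = u + (v - u) * cl t := by
        rw [min_eq_left h1.2, max_eq_right h1.1]
      rw [this]; rfl) 0 1
  unfold al
  rw [key, cl_zero, cl_one]
  ring_nf

/-- the crossing integral of two curves -/
noncomputable def KK (X : ℝ → ℂ) (a b : ℝ) (Y : ℝ → ℂ) (c d : ℝ) : ℂ :=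
  al (X b) (sub Y c d) - al (X a) (sub Y c d) - al (Y d) (sub X a b) + al (Y c) (sub X a b)

theorem KK_zero {X Y : ℝ → ℂ} (hX : Continuous X) (hY : Continuous Y) {a b c d : ℝ}
    (hab : a ≤ b) (hcd : c ≤ d) (h : ∀ s ∈ Icc a b, ∀ t ∈ Icc c d, X s ≠ Y t) :
    KK X a b Y c d = 0 := by
  have key := R (sub_cont hX a b) (sub_cont hY c d) (fun s t => h _
    (par_mem hab (left_mem_Icc.2 hab) (right_mem_Icc.2 hab) s) _
    (par_mem hcd (left_mem_Icc.2 hcd) (right_mem_Icc.2 hcd) t))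
  rw [sub_one', sub_zero', sub_one', sub_zero'] at key
  exact key

theorem KK_add {X Y : ℝ → ℂ} (hX : Continuous X) {a b b' c d : ℝ}
    (hab : a ≤ b) (hbb : b ≤ b') (h1 : ∀ s ∈ Icc a b', X s ≠ Y d) (h2 : ∀ s ∈ Icc a b', X s ≠ Y c) :
    KK X a b' Y c d = KK X a b Y c d + KK X b b' Y c d := by
  have hab' := hab.trans hbb
  obtain ⟨ℓ, hℓ⟩ := exists_primitive hX hab' h1
  obtain ⟨m, hm⟩ := exists_primitive hX hab' h2
  have ma : a ∈ Icc a b' := ⟨le_rfl, hab'⟩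
  have mb : b ∈ Icc a b' := ⟨hab, hbb⟩
  have mb' : b' ∈ Icc a b' := ⟨hab', le_rfl⟩
  unfold KK
  rw [hℓ a ma b' mb', hℓ a ma b mb, hℓ b mb b' mb', hm a ma b' mb', hm a ma b mb, hm b mb b' mb']
  ring

/-- one proper crossing -/
theorem KK_one {X Y : ℝ → ℂ} (hX : Continuous X) (hY : Continuous Y) {a b c d s₀ t₀ : ℝ}
    (hs₁ : a < s₀) (hs₂ : s₀ < b) (ht₁ : c < t₀) (ht₂ : t₀ < d)
    (iX : ∀ s ∈ Icc a b, ∀ s' ∈ Icc a b, X s = X s' → s = s')
    (iY : ∀ s ∈ Icc c d, ∀ s' ∈ Icc c d, Y s = Y s' → s = s')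
    (hz : X s₀ = Y t₀) (honly : ∀ s ∈ Icc a b, ∀ t ∈ Icc c d, X s = Y t → s = s₀)
    {p q : Set ℂ} (hp : ∀ s ∈ Icc a b, X s ∈ p) (hq : ∀ t ∈ Icc c d, Y t ∈ q)
    (hpr : IsProperCrossing p q (X s₀)) :
    ∃ m : ℤ, KK X a b Y c d = 2 * Real.pi * I * (2 * m + 1) := by
  have hab : a ≤ b := (hs₁.trans hs₂).le
  have hcd : c ≤ d := (ht₁.trans ht₂).le
  have ma : a ∈ Icc a b := ⟨le_rfl, hab⟩
  have mb : b ∈ Icc a b := ⟨hab, le_rfl⟩
  have ms : s₀ ∈ Icc a b := ⟨hs₁.le, hs₂.le⟩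
  have mc : c ∈ Icc c d := ⟨le_rfl, hcd⟩
  have md : d ∈ Icc c d := ⟨hcd, le_rfl⟩
  have mt : t₀ ∈ Icc c d := ⟨ht₁.le, ht₂.le⟩
  have honly' : ∀ s ∈ Icc a b, ∀ t ∈ Icc c d, X s = Y t → s = s₀ ∧ t = t₀ := by
    intro s hs t ht h
    have h1 := honly s hs t ht h
    refine ⟨h1, iY t ht t₀ mt ?_⟩
    rw [← h, h1, hz]
  set A := sub X s₀ b with hA
  set B := sub X s₀ a with hB
  set C := sub Y t₀ d with hC
  set D := sub Y t₀ c with hD
  have clz : ∀ {x y t : ℝ}, x ≠ y → x + (y - x) * cl t = x → t ≤ 0 := by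
    intro x y t hxy h
    have h1 : (y - x) * cl t = 0 := by linarith
    rcases mul_eq_zero.1 h1 with h2 | h2
    · exact absurd (by linarith) hxy
    · exact le_zero_of_cl h2
  have cAB : Cor A B := by
    intro s t h
    have h1 := iX _ (par_mem hab ms mb s) _ (par_mem hab ms ma t) h
    have q1 := cl_nonneg s
    have q2 := cl_nonneg t
    have p1 : 0 ≤ (b - s₀) * cl s := mul_nonneg (by linarith) q1
    have p2 : (a - s₀) * cl t ≤ 0 := mul_nonpos_of_nonpos_of_nonneg (by linarith) q2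
    have e1 : (b - s₀) * cl s = 0 := by linarith
    have e2 : (a - s₀) * cl t = 0 := by linarith
    exact ⟨clz hs₂.ne (by linarith), clz hs₁.ne' (by linarith)⟩
  have cCD : Cor C D := by
    intro s t h
    have h1 := iY _ (par_mem hcd mt md s) _ (par_mem hcd mt mc t) h
    have q1 := cl_nonneg s
    have q2 := cl_nonneg t
    have p1 : 0 ≤ (d - t₀) * cl s := mul_nonneg (by linarith) q1
    have p2 : (c - t₀) * cl t ≤ 0 := mul_nonpos_of_nonpos_of_nonneg (by linarith) q2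
    have e1 : (d - t₀) * cl s = 0 := by linarith
    have e2 : (c - t₀) * cl t = 0 := by linarith
    exact ⟨clz ht₂.ne (by linarith), clz ht₁.ne' (by linarith)⟩
  have cXY : ∀ {b' d' : ℝ}, b' ∈ Icc a b → d' ∈ Icc c d → s₀ ≠ b' → t₀ ≠ d' →
      Cor (sub X s₀ b') (sub Y t₀ d') := by
    intro b' d' hb' hd' h1 h2 s t h
    obtain ⟨e1, e2⟩ := honly' _ (par_mem hab ms hb' s) _ (par_mem hcd mt hd' t) h
    exact ⟨clz h1 e1, clz h2 e2⟩
  have cAC : Cor A C := cXY mb md hs₂.ne ht₂.ne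
  have cAD : Cor A D := cXY mb mc hs₂.ne ht₁.ne'
  have cBC : Cor B C := cXY ma md hs₁.ne' ht₂.ne
  have cBD : Cor B D := cXY ma mc hs₁.ne' ht₁.ne'
  have z1 : A 0 = B 0 := by rw [hA, hB, sub_zero', sub_zero']
  have z2 : A 0 = C 0 := by rw [hA, hC, sub_zero', sub_zero', hz]
  have z3 : A 0 = D 0 := by rw [hA, hD, sub_zero', sub_zero', hz]
  obtain ⟨φ, f1, f2, f3⟩ := hpr
  have kA : Continuous A := sub_cont hX _ _
  have kB : Continuous B := sub_cont hX _ _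
  have kC : Continuous C := sub_cont hY _ _
  have kD : Continuous D := sub_cont hY _ _
  have key := crossing_sign kA kB kC kD z1 z2 z3 cAB cAC cAD cBC cBD cCD p q φ
    (by rw [hA, sub_zero']; exact f1) (by rw [hA, sub_zero']; exact f2) f3
    (fun s _ _ => hp _ (par_mem hab ms mb s)) (fun s _ _ => hp _ (par_mem hab ms ma s))
    (fun s _ _ => hq _ (par_mem hcd mt md s)) (fun s _ _ => hq _ (par_mem hcd mt mc s))
  have hexp := S_exp kA kB kC z1 z2 cAB cBC cAC.symm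
  obtain ⟨m, hm⟩ : ∃ m : ℤ, S A B C = Real.pi * I + m * (2 * Real.pi * I) := by
    rw [← Complex.exp_eq_exp_iff_exists_int, hexp, Complex.exp_pi_mul_I]
  -- splitting
  have nXd : ∀ s ∈ Icc a b, X s ≠ Y d := fun s hs h => ht₂.ne' (honly' s hs d md h).2
  have nXc : ∀ s ∈ Icc a b, X s ≠ Y c := fun s hs h => ht₁.ne (honly' s hs c mc h).2
  have nYb : ∀ t ∈ Icc c d, Y t ≠ X b := fun t ht h => hs₂.ne' (honly' b mb t ht h.symm).1
  have nYa : ∀ t ∈ Icc c d, Y t ≠ X a := fun t ht h => hs₁.ne (honly' a ma t ht h.symm).1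
  obtain ⟨ℓ₁, e1⟩ := exists_primitive hX hab nXd
  obtain ⟨ℓ₂, e2⟩ := exists_primitive hX hab nXc
  obtain ⟨ℓ₃, e3⟩ := exists_primitive hY hcd nYb
  obtain ⟨ℓ₄, e4⟩ := exists_primitive hY hcd nYa
  have hK : KK X a b Y c d = S A B C - S A B D := by
    have q1 : al (C 1) A = ℓ₁ b - ℓ₁ s₀ := by rw [hC, sub_one', hA, e1 _ ms _ mb]
    have q2 : al (C 1) B = ℓ₁ a - ℓ₁ s₀ := by rw [hC, sub_one', hB, e1 _ ms _ ma]
    have q3 : al (D 1) A = ℓ₂ b - ℓ₂ s₀ := by rw [hD, sub_one', hA, e2 _ ms _ mb]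
    have q4 : al (D 1) B = ℓ₂ a - ℓ₂ s₀ := by rw [hD, sub_one', hB, e2 _ ms _ ma]
    have q5 : al (A 1) C = ℓ₃ d - ℓ₃ t₀ := by rw [hA, sub_one', hC, e3 _ mt _ md]
    have q6 : al (A 1) D = ℓ₃ c - ℓ₃ t₀ := by rw [hA, sub_one', hD, e3 _ mt _ mc]
    have q7 : al (B 1) C = ℓ₄ d - ℓ₄ t₀ := by rw [hB, sub_one', hC, e4 _ mt _ md]
    have q8 : al (B 1) D = ℓ₄ c - ℓ₄ t₀ := by rw [hB, sub_one', hD, e4 _ mt _ mc]
    unfold KK S
    simp only [beta_al]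
    rw [q1, q2, q3, q4, q5, q6, q7, q8, e1 _ ma _ mb, e2 _ ma _ mb, e3 _ mc _ md, e4 _ mc _ md]
    ring
  refine ⟨m, ?_⟩
  rw [hK, key.1, hm]
  ring

/-- the crossing integral counts crossings modulo two -/
theorem KK_parity {X Y : ℝ → ℂ} (hX : Continuous X) (hY : Continuous Y) {c d : ℝ} (hcd : c < d)
    (iY : ∀ s ∈ Icc c d, ∀ s' ∈ Icc c d, Y s = Y s' → s = s') {p q : Set ℂ}
    (hq : ∀ t ∈ Icc c d, Y t ∈ q) (n : ℕ) : ∀ {a b : ℝ}, a < b →
    (∀ s ∈ Icc a b, ∀ s' ∈ Icc a b, X s = X s' → s = s') → (∀ s ∈ Icc a b, X s ∈ p) →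
    {s | s ∈ Icc a b ∧ ∃ t ∈ Icc c d, X s = Y t}.Finite →
    {s | s ∈ Icc a b ∧ ∃ t ∈ Icc c d, X s = Y t}.ncard = n →
    (∀ s ∈ Icc a b, ∀ t ∈ Icc c d, X s = Y t → (a < s ∧ s < b ∧ c < t ∧ t < d ∧
      IsProperCrossing p q (X s))) →
    ∃ m : ℤ, KK X a b Y c d = 2 * Real.pi * I * m ∧ Even (m - n) := by
  induction n with
  | zero =>
    intro a b hab iX hp hfin hcard hcr
    have hemp := (Set.ncard_eq_zero hfin).1 hcard
    refine ⟨0, ?_, by simp⟩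
    rw [KK_zero hX hY hab.le hcd.le]
    · simp
    · intro s hs t ht h
      have : s ∈ {s | s ∈ Icc a b ∧ ∃ t ∈ Icc c d, X s = Y t} := ⟨hs, t, ht, h⟩
      rw [hemp] at this
      exact this
  | succ n ih =>
    intro a b hab iX hp hfin hcard hcr
    set Z := {s | s ∈ Icc a b ∧ ∃ t ∈ Icc c d, X s = Y t} with hZ
    have hne : Z.Nonempty := by
      rw [Set.nonempty_iff_ne_empty]
      intro h
      rw [h, Set.ncard_empty] at hcard
      omega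
    obtain ⟨s₀, hs₀, hmin⟩ := hfin.isCompact.exists_isLeast hne
    obtain ⟨t₀, ht₀, hst⟩ := hs₀.2
    obtain ⟨h1, h2, h3, h4, h5⟩ := hcr s₀ hs₀.1 t₀ ht₀ hst
    -- a parameter between the first and the second crossing
    obtain ⟨b', hb1, hb2, hb3⟩ : ∃ b', s₀ < b' ∧ b' < b ∧ ∀ s ∈ Z, s ≤ b' → s = s₀ := by
      have hcl : IsClosed (Z \ {s₀}) := (hfin.subset sdiff_subset).isClosed
      have hmem : s₀ ∉ Z \ {s₀} := fun h => h.2 rfl
      obtain ⟨δ, hδ, hball⟩ := Metric.mem_nhds_iff.1 (hcl.isOpen_compl.mem_nhds hmem)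
      have hm : 0 < min δ (b - s₀) := lt_min hδ (by linarith)
      have l1 := min_le_left δ (b - s₀)
      have l2 := min_le_right δ (b - s₀)
      refine ⟨s₀ + min δ (b - s₀) / 2, by linarith, by linarith, fun s hs hle => ?_⟩
      by_contra hcon
      have hge := hmin hs
      have : s ∈ (Z \ {s₀})ᶜ := hball (by
        rw [Metric.mem_ball, Real.dist_eq, abs_of_nonneg (by linarith)]
        linarith)
      exact this ⟨hs, hcon⟩
    have sub1 : Icc a b' ⊆ Icc a b := Icc_subset_Icc_right hb2.le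
    have sub2 : Icc b' b ⊆ Icc a b := Icc_subset_Icc_left (by linarith)
    have hb' : b' ∈ Icc a b := ⟨by linarith, hb2.le⟩
    have hnb' : ∀ t ∈ Icc c d, X b' ≠ Y t := by
      intro t ht h
      have := hb3 b' ⟨hb', t, ht, h⟩ le_rfl
      linarith
    have mc : c ∈ Icc c d := ⟨le_rfl, hcd.le⟩
    have md : d ∈ Icc c d := ⟨hcd.le, le_rfl⟩
    have hadd := KK_add hX (Y := Y) (a := a) (b := b') (b' := b) (c := c) (d := d) (by linarith)
      hb2.le (fun s hs h => lt_irrefl _ (hcr s hs d md h).2.2.2.1)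
      (fun s hs h => lt_irrefl _ (hcr s hs c mc h).2.2.1)
    obtain ⟨m₁, hm₁⟩ := KK_one hX hY (a := a) (b := b') (c := c) (d := d) h1 hb1 h3 h4
      (fun s hs s' hs' => iX s (sub1 hs) s' (sub1 hs')) iY hst
      (fun s hs t ht h => hb3 s ⟨sub1 hs, t, ht, h⟩ hs.2)
      (fun s hs => hp s (sub1 hs)) hq h5
    have hset : {s | s ∈ Icc b' b ∧ ∃ t ∈ Icc c d, X s = Y t} = Z \ {s₀} := by
      ext s
      constructor
      · rintro ⟨hs, t, ht, h⟩
        refine ⟨⟨sub2 hs, t, ht, h⟩, ?_⟩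
        intro h6
        have : s = s₀ := h6
        linarith [hs.1]
      · rintro ⟨⟨hs, t, ht, h⟩, h6⟩
        refine ⟨⟨?_, hs.2⟩, t, ht, h⟩
        by_contra hcon
        push Not at hcon
        exact h6 (hb3 s ⟨hs, t, ht, h⟩ hcon.le)
    obtain ⟨m₂, hm₂, hev⟩ := ih (a := b') (b := b) hb2
      (fun s hs s' hs' => iX s (sub2 hs) s' (sub2 hs')) (fun s hs => hp s (sub2 hs))
      (by rw [hset]; exact hfin.subset sdiff_subset)
      (by
        rw [hset, Set.ncard_sdiff_singleton_of_mem hs₀, hcard]; rfl)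
      (by
        intro s hs t ht h
        obtain ⟨g1, g2, g3, g4, g5⟩ := hcr s (sub2 hs) t ht h
        refine ⟨lt_of_le_of_ne hs.1 ?_, g2, g3, g4, g5⟩
        rintro rfl
        exact hnb' t ht h)
    refine ⟨(2 * m₁ + 1) + m₂, ?_, ?_⟩
    · rw [hadd, hm₁, hm₂]; push_cast; ring
    · push_cast
      obtain ⟨k, hk⟩ := hev
      exact ⟨m₁ + k, by omega⟩

theorem arg_one_sub {δ : ℝ} (h0 : 0 < δ) (h1 : δ < 2 * Real.pi) :
    (1 - ev δ).arg = (δ - Real.pi) / 2 := by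
  have hs : 0 < Real.sin (δ / 2) := Real.sin_pos_of_pos_of_lt_pi (by linarith) (by linarith)
  have hform : 1 - ev δ = ((2 * Real.sin (δ / 2) : ℝ) : ℂ) *
      (Complex.cos (((δ - Real.pi) / 2 : ℝ) : ℂ) + Complex.sin (((δ - Real.pi) / 2 : ℝ) : ℂ) * I) := by
    have e1 : (δ - Real.pi) / 2 = δ / 2 - Real.pi / 2 := by ring
    have e2 : Real.cos δ = 1 - 2 * Real.sin (δ / 2) ^ 2 := by
      have := Real.cos_two_mul (δ / 2)
      rw [show 2 * (δ / 2) = δ by ring] at this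
      have h3 := Real.sin_sq_add_cos_sq (δ / 2)
      linarith
    have e3 : Real.sin δ = 2 * Real.sin (δ / 2) * Real.cos (δ / 2) := by
      have := Real.sin_two_mul (δ / 2)
      rwa [show 2 * (δ / 2) = δ by ring] at this
    rw [← Complex.ofReal_cos, ← Complex.ofReal_sin, e1, Real.cos_sub_pi_div_two,
      Real.sin_sub_pi_div_two]
    apply Complex.ext
    · simp only [Complex.sub_re, Complex.one_re, ev_re, Complex.re_ofReal_mul, Complex.add_re,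
        Complex.ofReal_re, Complex.mul_re, Complex.I_re, Complex.I_im, Complex.ofReal_im]
      rw [e2]; ring
    · simp only [Complex.sub_im, Complex.one_im, ev_im, Complex.im_ofReal_mul, Complex.add_im,
        Complex.ofReal_im, Complex.mul_im, Complex.I_re, Complex.I_im, Complex.ofReal_re]
      rw [e3]; ring
  rw [hform, Complex.arg_mul_cos_add_sin_mul_I (by positivity) ⟨by linarith, by linarith⟩]

theorem arg_psi {φ ψ : ℝ} (h0 : 0 ≤ φ) (h1 : φ < 2 * Real.pi) (k0 : 0 ≤ ψ)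
    (k1 : ψ < 2 * Real.pi) (hne : φ ≠ ψ) : (1 - ev φ / ev ψ).arg = psi φ ψ / 2 := by
  have hdiv : ev φ / ev ψ = ev (φ - ψ) := by
    rw [div_eq_iff (ev_ne ψ), ← ev_add]; ring_nf
  rw [hdiv]
  unfold psi
  rcases lt_trichotomy φ ψ with h | h | h
  · rw [if_neg (lt_asymm h), if_pos h, ← ev_two_pi, arg_one_sub (by linarith) (by linarith)]
    ring
  · exact absurd h hne
  · rw [if_pos h, arg_one_sub (by linarith) (by linarith)]

/-- two arcs with a common starting point -/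
theorem KK_share {X Y : ℝ → ℂ} (hX : Continuous X) (hY : Continuous Y) (h0 : X 0 = Y 0)
    {σ τ r φ ψ : ℝ} (hr : 0 < r) (hσ : 0 < σ) (hσ1 : σ < 1) (hτ : 0 < τ) (hτ1 : τ < 1)
    (eσ : X σ = X 0 + r * ev φ) (eτ : Y τ = Y 0 + r * ev ψ)
    (dσ : ∀ s ∈ Icc 0 σ, ‖X s - X 0‖ ≤ r) (dτ : ∀ s ∈ Icc 0 τ, ‖Y s - Y 0‖ ≤ r)
    (φ0 : 0 ≤ φ) (φ1 : φ < 2 * Real.pi) (ψ0 : 0 ≤ ψ) (ψ1 : ψ < 2 * Real.pi)
    (iX : ∀ s ∈ Icc (0 : ℝ) 1, ∀ s' ∈ Icc (0 : ℝ) 1, X s = X s' → s = s')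
    (iY : ∀ s ∈ Icc (0 : ℝ) 1, ∀ s' ∈ Icc (0 : ℝ) 1, Y s = Y s' → s = s') {p q : Set ℂ}
    (hp : ∀ s ∈ Icc (0 : ℝ) 1, X s ∈ p) (hq : ∀ t ∈ Icc (0 : ℝ) 1, Y t ∈ q) {n : ℕ}
    (hfin : {s | s ∈ Icc (0 : ℝ) 1 ∧ s ≠ 0 ∧ ∃ t ∈ Icc (0 : ℝ) 1, X s = Y t}.Finite)
    (hcard : {s | s ∈ Icc (0 : ℝ) 1 ∧ s ≠ 0 ∧ ∃ t ∈ Icc (0 : ℝ) 1, X s = Y t}.ncard = n)
    (hcr : ∀ s ∈ Icc (0 : ℝ) 1, ∀ t ∈ Icc (0 : ℝ) 1, X s = Y t → (s = 0 ∧ t = 0) ∨
      (r < ‖X s - X 0‖ ∧ s < 1 ∧ t < 1 ∧ IsProperCrossing p q (X s))) :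
    ∃ m : ℤ, (al (X 1) (sub Y 0 1) - al (X 0) (sub Y τ 1) - al (Y 1) (sub X 0 1) +
      al (X 0) (sub X σ 1)).im = 2 * Real.pi * m - psi φ ψ ∧ Even (m - n) := by
  have m0 : (0 : ℝ) ∈ Icc (0 : ℝ) 1 := ⟨le_rfl, zero_le_one⟩
  have m1 : (1 : ℝ) ∈ Icc (0 : ℝ) 1 := ⟨zero_le_one, le_rfl⟩
  have mσ : σ ∈ Icc (0 : ℝ) 1 := ⟨hσ.le, hσ1.le⟩
  have mτ : τ ∈ Icc (0 : ℝ) 1 := ⟨hτ.le, hτ1.le⟩
  have inside : ∀ s ∈ Icc (0 : ℝ) σ, ∀ t ∈ Icc (0 : ℝ) 1, X s = Y t → s = 0 ∧ t = 0 := by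
    intro s hs t ht h
    rcases hcr s ⟨hs.1, hs.2.trans hσ1.le⟩ t ht h with h1 | h1
    · exact h1
    · exact absurd h1.1 (not_lt.2 (dσ s hs))
  have insideY : ∀ t ∈ Icc (0 : ℝ) τ, ∀ s ∈ Icc (0 : ℝ) 1, X s = Y t → s = 0 ∧ t = 0 := by
    intro t ht s hs h
    rcases hcr s hs t ⟨ht.1, ht.2.trans hτ1.le⟩ h with h1 | h1
    · exact h1
    · rw [h, h0] at h1
      exact absurd h1.1 (not_lt.2 (dτ t ht))
  -- primitives
  have nX : ∀ s ∈ Icc (0 : ℝ) 1, X s ≠ Y 1 := by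
    intro s hs h
    rcases hcr s hs 1 m1 h with h1 | h1
    · exact one_ne_zero h1.2
    · exact lt_irrefl _ h1.2.2.1
  have nY : ∀ t ∈ Icc (0 : ℝ) 1, Y t ≠ X σ := by
    intro t ht h
    exact hσ.ne' (inside σ ⟨hσ.le, le_rfl⟩ t ht h.symm).1
  obtain ⟨ℓ₁, e1⟩ := exists_primitive hX zero_le_one nX
  obtain ⟨ℓ₂, e2⟩ := exists_primitive hY zero_le_one nY
  -- the part outside the disc
  have hset : {s | s ∈ Icc σ 1 ∧ ∃ t ∈ Icc (0 : ℝ) 1, X s = Y t} =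
      {s | s ∈ Icc (0 : ℝ) 1 ∧ s ≠ 0 ∧ ∃ t ∈ Icc (0 : ℝ) 1, X s = Y t} := by
    ext s
    constructor
    · rintro ⟨hs, t, ht, h⟩
      exact ⟨⟨hσ.le.trans hs.1, hs.2⟩, (hσ.trans_le hs.1).ne', t, ht, h⟩
    · rintro ⟨hs, hs0, t, ht, h⟩
      refine ⟨⟨?_, hs.2⟩, t, ht, h⟩
      by_contra hcon
      push Not at hcon
      exact hs0 (inside s ⟨hs.1, hcon.le⟩ t ht h).1
  obtain ⟨m, hm, hev⟩ := KK_parity hX hY zero_lt_one iY hq n (a := σ) (b := 1) hσ1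
    (fun s hs s' hs' => iX s ⟨hσ.le.trans hs.1, hs.2⟩ s' ⟨hσ.le.trans hs'.1, hs'.2⟩)
    (fun s hs => hp s ⟨hσ.le.trans hs.1, hs.2⟩) (by rw [hset]; exact hfin)
    (by rw [hset]; exact hcard) (by
      intro s hs t ht h
      have hs' : s ∈ Icc (0 : ℝ) 1 := ⟨hσ.le.trans hs.1, hs.2⟩
      rcases hcr s hs' t ht h with h1 | h1
      · exact absurd h1.1 (hσ.trans_le hs.1).ne'
      · refine ⟨lt_of_le_of_ne hs.1 ?_, h1.2.1, lt_of_le_of_ne ht.1 ?_, h1.2.2.1, h1.2.2.2⟩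
        · rintro rfl
          exact hσ.ne' (inside σ ⟨hσ.le, le_rfl⟩ t ht h).1
        · rintro rfl
          rw [← h0] at h
          exact (hσ.trans_le hs.1).ne' (iX s hs' 0 m0 h))
  -- the part of `X` inside the disc and the part of `Y` outside
  have hz := KK_zero hX hY (a := 0) (b := σ) (c := τ) (d := 1) hσ.le hτ1.le (by
    intro s hs t ht h
    have := (inside s hs t ⟨hτ.le.trans ht.1, ht.2⟩ h).2
    linarith [ht.1])
  -- the disc
  have hne : ev φ ≠ ev ψ := by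
    intro h
    have : X σ = Y τ := by rw [eσ, eτ, h0, h]
    exact hσ.ne' (inside σ ⟨hσ.le, le_rfl⟩ τ mτ this).1
  have hφψ : φ ≠ ψ := fun h => hne (by rw [h])
  have nrm : ∀ a : ℝ, ‖(r : ℂ) * ev a‖ = r := by
    intro a
    rw [norm_mul, norm_ev, mul_one, Complex.norm_real, Real.norm_of_nonneg hr.le]
  have hr0 : (r : ℂ) ≠ 0 := by exact_mod_cast hr.ne'
  have v1 := disc_var (X := sub X 0 σ) (sub_cont hX 0 σ) zero_le_one hr (w := Y τ)
    (by rw [sub_zero', eτ, h0, add_sub_cancel_left, nrm])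
    (by
      intro s _
      rw [sub_zero']
      exact dσ _ (par_mem hσ.le ⟨le_rfl, hσ.le⟩ ⟨hσ.le, le_rfl⟩ s))
    (by
      intro s h
      exact hτ.ne' (inside _ (par_mem hσ.le ⟨le_rfl, hσ.le⟩ ⟨hσ.le, le_rfl⟩ s) τ mτ h).2)
  have v2 := disc_var (X := sub Y 0 τ) (sub_cont hY 0 τ) zero_le_one hr (w := X σ)
    (by rw [sub_zero', eσ, h0, add_sub_cancel_left, nrm])
    (by
      intro s _
      rw [sub_zero']
      exact dτ _ (par_mem hτ.le ⟨le_rfl, hτ.le⟩ ⟨hτ.le, le_rfl⟩ s))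
    (by
      intro s h
      exact hσ.ne' (insideY _ (par_mem hτ.le ⟨le_rfl, hτ.le⟩ ⟨hτ.le, le_rfl⟩ s) σ mσ h.symm).1)
  rw [sub_one', sub_zero'] at v1 v2
  have w1 : al (Y τ) (sub X 0 σ) = log (1 - ev φ / ev ψ) := by
    unfold al
    rw [v1, eσ, eτ, h0, add_sub_cancel_left, add_sub_cancel_left, mul_div_mul_left _ _ hr0]
  have w2 : al (X σ) (sub Y 0 τ) = log (1 - ev ψ / ev φ) := by
    unfold al
    rw [v2, eσ, eτ, h0, add_sub_cancel_left, add_sub_cancel_left, mul_div_mul_left _ _ hr0]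
  refine ⟨m, ?_, hev⟩
  have hsum : al (X 1) (sub Y 0 1) - al (X 0) (sub Y τ 1) - al (Y 1) (sub X 0 1) +
      al (X 0) (sub X σ 1) = KK X σ 1 Y 0 1 + (log (1 - ev ψ / ev φ) - log (1 - ev φ / ev ψ)) := by
    rw [← w1, ← w2]
    have q1 : al (X σ) (sub Y 0 1) = al (X σ) (sub Y 0 τ) + al (X σ) (sub Y τ 1) := by
      rw [e2 _ m0 _ m1, e2 _ m0 _ mτ, e2 _ mτ _ m1]; ring
    have q2 : al (Y 1) (sub X 0 1) = al (Y 1) (sub X 0 σ) + al (Y 1) (sub X σ 1) := by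
      rw [e1 _ m0 _ m1, e1 _ m0 _ mσ, e1 _ mσ _ m1]; ring
    unfold KK at hz ⊢
    rw [q1, q2, ← h0]
    linear_combination hz
  rw [hsum, hm, Complex.add_im, Complex.sub_im, Complex.log_im, Complex.log_im,
    arg_psi φ0 φ1 ψ0 ψ1 hφψ, arg_psi ψ0 ψ1 φ0 φ1 hφψ.symm, psi_anti φ ψ]
  have : (2 * (Real.pi : ℂ) * I * m).im = 2 * Real.pi * m := by
    have e : 2 * (Real.pi : ℂ) * I * m = ((2 * Real.pi * m : ℝ) : ℂ) * I := by push_cast; ring
    rw [e, Complex.im_ofReal_mul, Complex.I_im, mul_one]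
  rw [this]
  ring

end Pool.Agent.H119.Sefe
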